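import Pool.Agent.Work.MP_1ddc88_an.GR.Stmts

/-!
# MP_1ddc88_an, block GR, item Act: the action of matrices of operators on vectors
-/

set_option autoImplicit false

open Filter Topology
open scoped ENNReal Classical

namespace Pool.Agent.Work.MP_1ddc88_an.GR

open TL

namespace IAct

theorem act_apply {Y : Type} {n : ℕ} (x : MatY Y n) (v : Fin n → HY Y) (a : Fin n) :
    act x v a = ∑ b, x a b (v b) := rfl

theorem lin {Y : Type} {n : ℕ} (x : MatY Y n) : ∃ L : (Fin n → HY Y) →ₗ[ℂ] (Fin n → HY Y),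
    ∀ v, L v = act x v := by
  refine ⟨{ toFun := fun v => act x v, map_add' := ?_, map_smul' := ?_ }, fun v => rfl⟩
  · intro v w
    funext a
    simp only [Pi.add_apply, act_apply, map_add]
    exact Finset.sum_add_distrib
  · intro c v
    funext a
    simp only [Pi.smul_apply, act_apply, map_smul, RingHom.id_apply]
    exact (Finset.smul_sum).symm

theorem sum_clm {Y : Type} {n : ℕ} (f : Fin n → OpY Y) (ξ : HY Y) :
    (∑ i, f i) ξ = ∑ i, f i ξ := by
  simp

theorem mul {Y : Type} {n : ℕ} (x y : MatY Y n) (v : Fin n → HY Y) :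
    act (x * y) v = act x (act y v) := by
  funext a
  rw [act_apply, act_apply]
  have h1 : ∀ b, (x * y) a b (v b) = ∑ c, x a c (y c b (v b)) := by
    intro b
    rw [Matrix.mul_apply, sum_clm]
    rfl
  have h2 : ∀ c, x a c (act y v c) = ∑ b, x a c (y c b (v b)) := by
    intro c
    rw [act_apply, map_sum]
  rw [Finset.sum_congr rfl (fun b _ => h1 b), Finset.sum_congr rfl (fun c _ => h2 c)]
  exact Finset.sum_comm

theorem bdd {Y : Type} {n : ℕ} (x : MatY Y n) : ∃ C : ℝ, 0 ≤ C ∧ ∀ v : Fin n → HY Y,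
    ‖act x v‖ ≤ C * ‖v‖ := by
  have hC : 0 ≤ ∑ a, ∑ b, ‖x a b‖ :=
    Finset.sum_nonneg (fun a _ => Finset.sum_nonneg (fun b _ => norm_nonneg _))
  refine ⟨∑ a, ∑ b, ‖x a b‖, hC, ?_⟩
  intro v
  rw [pi_norm_le_iff_of_nonneg (mul_nonneg hC (norm_nonneg _))]
  intro a
  rw [act_apply]
  calc ‖∑ b, x a b (v b)‖ ≤ ∑ b, ‖x a b (v b)‖ := norm_sum_le _ _
    _ ≤ ∑ b, ‖x a b‖ * ‖v‖ := by
        apply Finset.sum_le_sum
        intro b _
        exact (ContinuousLinearMap.le_opNorm _ _).trans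
          (mul_le_mul_of_nonneg_left (norm_le_pi_norm v b) (norm_nonneg _))
    _ = (∑ b, ‖x a b‖) * ‖v‖ := (Finset.sum_mul _ _ _).symm
    _ ≤ (∑ a, ∑ b, ‖x a b‖) * ‖v‖ := by
        apply mul_le_mul_of_nonneg_right _ (norm_nonneg _)
        exact Finset.single_le_sum (f := fun a => ∑ b, ‖x a b‖)
          (fun a _ => Finset.sum_nonneg (fun b _ => norm_nonneg _)) (Finset.mem_univ a)

theorem bdP {Y : Type} {n : ℕ} (x : MatY Y n) (P : OpY Y) (δ : ℝ) (v : Fin n → HY Y)
    (hδ : 0 ≤ δ) (hx : ∀ a b, ‖x a b * P‖ ≤ δ) (hv : ∀ b, P (v b) = v b) :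
    ‖act x v‖ ≤ n * δ * ‖v‖ := by
  rw [pi_norm_le_iff_of_nonneg (by positivity)]
  intro a
  rw [act_apply]
  calc ‖∑ b, x a b (v b)‖ ≤ ∑ b, ‖x a b (v b)‖ := norm_sum_le _ _
    _ ≤ ∑ _b : Fin n, δ * ‖v‖ := by
        apply Finset.sum_le_sum
        intro b _
        have h1 : x a b (v b) = (x a b * P) (v b) := by
          show x a b (v b) = x a b (P (v b))
          rw [hv b]
        rw [h1]
        exact (ContinuousLinearMap.le_opNorm _ _).trans
          (mul_le_mul (hx a b) (norm_le_pi_norm v b) (norm_nonneg _) hδ)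
    _ = n * δ * ‖v‖ := by
        rw [Finset.sum_const, Finset.card_univ, Fintype.card_fin, nsmul_eq_mul]
        ring

end IAct

/-- Item Act. -/
theorem pr_Act : St_Act := by
  intro Y n x y
  exact ⟨IAct.lin x, IAct.mul x y, IAct.bdd x,
    fun P δ v hδ hx hv => IAct.bdP x P δ v hδ hx hv⟩

end Pool.Agent.Work.MP_1ddc88_an.GR
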