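import Pool.Agent.Work.MP_1ddc88_an.GR.StmtsA

/-! # MP_1ddc88_an, block GR, item AmA (helper4) -/

set_option autoImplicit false

open Filter Topology
open scoped ENNReal Classical

namespace Pool.Agent.Work.MP_1ddc88_an.GR

open TL

noncomputable section

namespace IAmA

theorem ext' {Y : Type} {A B : OpY Y} (h : ∀ (ξ : HY Y) (y : Y) (k : ℕ), A ξ (y, k) = B ξ (y, k)) : A = B := by
  apply op_ext
  rintro ξ ⟨y, k⟩
  exact h ξ y k

theorem add_app {Y : Type} (A B : OpY Y) (ξ : HY Y) (p : Y × ℕ) : (A + B) ξ p = A ξ p + B ξ p := by simp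

theorem sub_app {Y : Type} (A B : OpY Y) (ξ : HY Y) (p : Y × ℕ) : (A - B) ξ p = A ξ p - B ξ p := by simp

theorem mul_app {Y : Type} (A B : OpY Y) (ξ : HY Y) : (A * B) ξ = A (B ξ) := rfl

end IAmA

theorem pr_AmA (h1 : St_Slc) (h2 : St_AmX) : St_AmA := by
  intro Y B B'
  refine ⟨?_, ?_, ?_, ?_⟩
  · apply IAmA.ext'
    intro ξ y k
    rw [IAmA.add_app, (h2 Y (B + B')).1, (h2 Y B).1, (h2 Y B').1, IAmA.add_app]
  · apply IAmA.ext'
    intro ξ y k
    rw [IAmA.sub_app, (h2 Y (B - B')).1, (h2 Y B).1, (h2 Y B').1, IAmA.sub_app]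
  · apply IAmA.ext'
    intro ξ y k
    rw [(h2 Y 0).1]
    simp
  · intro hq
    apply IAmA.ext'
    intro ξ y k
    rw [IAmA.mul_app, (h2 Y (B * B')).1, (h2 Y B).1, IAmA.mul_app]
    have key : slc Y k (amp B' ξ) = B' (slc Y k ξ) := by
      ext p
      obtain ⟨z, j⟩ := p
      rw [h1]
      by_cases hj : j = 0
      · rw [if_pos hj, (h2 Y B').1, hj]
      · rw [if_neg hj]
        have e : B' (slc Y k ξ) = q0 Y (B' (slc Y k ξ)) := by
          rw [← IAmA.mul_app (q0 Y) B', hq]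
        rw [e]
        unfold q0
        rw [proj_apply, if_neg (by exact hj)]
    rw [key]

end

end Pool.Agent.Work.MP_1ddc88_an.GR
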