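import Pool.Agent.Work.MP_1ddc88_an.GR.StmtsA

/-!
# MP_1ddc88_an, block GR, item AmJ: `JY` commutes with the amplifications
-/

set_option autoImplicit false

open Filter Topology
open scoped ENNReal Classical

namespace Pool.Agent.Work.MP_1ddc88_an.GR

open TL

noncomputable section

namespace IAmJ

theorem jy {Y : Type} (s : Y → ℕ) (ξ : HY Y) (y : Y) (k : ℕ) :
    JY s ξ (y, k) = if k < s y then ξ (y, k) else 0 := by
  unfold JY
  rw [proj_apply]
  by_cases h : k < s y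
  · rw [if_pos h, if_pos (by exact h)]
  · rw [if_neg h, if_neg (by exact h)]

theorem col (T : Tower) (a : ℕ → ℕ) (k : ℕ) (ξ : HY (Yt T)) (y : Yt T) (j : ℕ) :
    colY T {m | k < a m} ξ (y, j) = if k < a y.1.2 then ξ (y, j) else 0 := by
  unfold colY
  rw [proj_apply]
  by_cases h : k < a y.1.2
  · rw [if_pos h, if_pos (by exact h)]
  · rw [if_neg h, if_neg (by exact h)]

theorem slcJ (h1 : St_Slc) (T : Tower) (a : ℕ → ℕ) (k : ℕ) (ξ : HY (Yt T)) :
    slc (Yt T) k (JY (fun y : Yt T => a y.1.2) ξ) =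
      colY T {m | k < a m} (slc (Yt T) k ξ) := by
  ext p
  obtain ⟨y, j⟩ := p
  have e1 := h1 (Yt T) k (JY (fun y : Yt T => a y.1.2) ξ) y j
  have e2 := col T a k (slc (Yt T) k ξ) y j
  have e3 := h1 (Yt T) k ξ y j
  have e4 := jy (fun y : Yt T => a y.1.2) ξ y k
  rw [e1, e2, e3, e4]
  by_cases hj : j = 0
  · rw [if_pos hj, if_pos hj, hj]
  · rw [if_neg hj, if_neg hj, ite_self]

end IAmJ

theorem pr_AmJ (h1 : St_Slc) (h2 : St_AmX) : St_AmJ := by
  intro T a B hB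
  apply op_ext
  rintro ξ ⟨y, k⟩
  show JY (fun y : Yt T => a y.1.2) (amp B ξ) (y, k) =
    amp B (JY (fun y : Yt T => a y.1.2) ξ) (y, k)
  have e1 := IAmJ.jy (fun y : Yt T => a y.1.2) (amp B ξ) y k
  have e2 := (h2 (Yt T) B).1 ξ y k
  have e3 := (h2 (Yt T) B).1 (JY (fun y : Yt T => a y.1.2) ξ) y k
  have e4 : B (colY T {m | k < a m} (slc (Yt T) k ξ)) =
      colY T {m | k < a m} (B (slc (Yt T) k ξ)) := by
    have := congrArg (fun F : OpY (Yt T) => F (slc (Yt T) k ξ)) (hB {m | k < a m})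
    exact this.symm
  have e5 := IAmJ.col T a k (B (slc (Yt T) k ξ)) y 0
  rw [e1, e3, IAmJ.slcJ h1, e4, e5, e2]

end

end Pool.Agent.Work.MP_1ddc88_an.GR
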