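import Pool.Agent.Work.MP_1ddc88_an.GR.StmtsA

/-!
# MP_1ddc88_an, block GR, item AmP: amplification of a coordinate projection
-/

set_option autoImplicit false

open Filter Topology
open scoped ENNReal Classical

namespace Pool.Agent.Work.MP_1ddc88_an.GR

open TL

noncomputable section

theorem pr_AmP (h1 : St_Slc) (h2 : St_AmX) : St_AmP := by
  intro Y s
  apply op_ext
  rintro ξ ⟨y, k⟩
  rw [(h2 Y (proj s)).1 ξ y k, proj_apply, proj_apply, h1, if_pos rfl]
  rfl

end

end Pool.Agent.Work.MP_1ddc88_an.GR
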