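import Pool.Agent.Work.MP_1ddc88_an.GR.StmtsA
import Pool.Agent.Work.MP_1ddc88_an.I_Conv

/-!
# MP_1ddc88_an, block GR, part A, item AmR

The amplification of an operator of the Roe algebra, cut down to finitely many slices over every
point, is in the Roe algebra.
-/

set_option autoImplicit false

open Filter Topology
open scoped ENNReal Classical

namespace Pool.Agent.Work.MP_1ddc88_an.GR

open TL

noncomputable section

namespace IAmR

variable {Y : Type}

theorem compact_of_finite {ι : Type} {s : Set ι} (hs : s.Finite) : IsCompactOperator (proj s) := by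
  have := IConv.proj_compact hs.toFinset
  rwa [Set.Finite.coe_toFinset] at this

theorem key (h2 : St_Slc) (h3 : St_AmX) {d : Y → Y → ℕ} {R : ℕ} {B : OpY Y} (hB : FP d R B)
    (s : Y → ℕ) (ξ : HY Y) (p : Y × ℕ) (hp : (JY s * amp B) ξ p ≠ 0) :
    p.2 < s p.1 ∧ ∃ y, ξ (y, p.2) ≠ 0 ∧ d p.1 y ≤ R := by
  have e : (JY s * amp B) ξ p = JY s (amp B ξ) p := rfl
  rw [e, JY, proj_apply] at hp
  by_cases h : p ∈ {p : Y × ℕ | p.2 < s p.1}
  · refine ⟨h, ?_⟩
    rw [if_pos h] at hp
    have h4 := (h3 Y B).1 ξ p.1 p.2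
    obtain ⟨q, hq, hd⟩ := hB (slc Y p.2 ξ) (p.1, 0) (by rw [← h4]; exact hp)
    have h5 := h2 Y p.2 ξ q.1 q.2
    by_cases hq2 : q.2 = 0
    · rw [if_pos hq2] at h5
      exact ⟨q.1, fun h0 => hq (h5.trans h0), hd⟩
    · rw [if_neg hq2] at h5
      exact absurd h5 hq
  · rw [if_neg h] at hp
    exact absurd rfl hp

theorem lco (h2 : St_Slc) (h3 : St_AmX) {d : Y → Y → ℕ} (hbg : S.BddGeo d) {R : ℕ} {B : OpY Y}
    (hB : FP d R B) (s : Y → ℕ) : LCo (JY s * amp B) := by
  intro z
  constructor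
  · obtain ⟨N, hN⟩ := hbg.2 R
    have hfin : {w | d z w ≤ R}.Finite := (hN z).1
    set M : ℕ := hfin.toFinset.sup s with hM
    have hzero : (JY s * amp B) * proj {p : Y × ℕ | p.1 = z ∧ M ≤ p.2} = 0 := by
      apply op_ext
      intro ξ p
      by_contra hne
      have hp : (JY s * amp B) (proj {p : Y × ℕ | p.1 = z ∧ M ≤ p.2} ξ) p ≠ 0 := hne
      obtain ⟨h4, y, hy, hd⟩ := key h2 h3 hB s _ p hp
      rw [proj_apply] at hy
      by_cases hm : (y, p.2) ∈ {p : Y × ℕ | p.1 = z ∧ M ≤ p.2}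
      · have hyz : y = z := hm.1
        have hMp : M ≤ p.2 := hm.2
        have h5 : s p.1 ≤ M := by
          apply Finset.le_sup (f := s)
          rw [Set.Finite.mem_toFinset]
          show d z p.1 ≤ R
          rw [(hbg.1 z p.1 z).2.2.1, ← hyz]
          exact hd
        omega
      · rw [if_neg hm] at hy
        exact hy rfl
    have hu : cellY z = {p : Y × ℕ | p.1 = z ∧ p.2 < M} ∪ {p : Y × ℕ | p.1 = z ∧ M ≤ p.2} := by
      ext p
      simp only [cellY, Set.mem_setOf_eq, Set.mem_union]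
      constructor
      · intro h
        rcases lt_or_ge p.2 M with h' | h'
        · exact Or.inl ⟨h, h'⟩
        · exact Or.inr ⟨h, h'⟩
      · rintro (h | h)
        · exact h.1
        · exact h.1
    have hdis : Disjoint {p : Y × ℕ | p.1 = z ∧ p.2 < M} {p : Y × ℕ | p.1 = z ∧ M ≤ p.2} := by
      rw [Set.disjoint_left]
      intro p hp hp'
      exact absurd hp'.2 (not_le.2 hp.2)
    have hf : {p : Y × ℕ | p.1 = z ∧ p.2 < M}.Finite := by
      refine ((Set.finite_singleton z).prod (Set.finite_lt_nat M)).subset ?_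
      rintro p ⟨h, h'⟩
      exact ⟨h, h'⟩
    rw [hu, proj_union _ _ hdis, mul_add, hzero, add_zero]
    exact (compact_of_finite hf).clm_comp (JY s * amp B)
  · have hf : (cellY z ∩ {p : Y × ℕ | p.2 < s p.1}).Finite := by
      refine ((Set.finite_singleton z).prod (Set.finite_lt_nat (s z))).subset ?_
      rintro p ⟨h, h'⟩
      have hz : p.1 = z := h
      have hs : p.2 < s p.1 := h'
      rw [hz] at hs
      exact ⟨hz, hs⟩
    rw [← mul_assoc, JY, proj_mul]
    exact (compact_of_finite hf).comp_clm (amp B)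

theorem cont (h3 : St_AmX) (h4 : St_AmA) (s : Y → ℕ) :
    Continuous (fun B : OpY Y => JY s * amp B) := by
  let f : OpY Y →+ OpY Y :=
    { toFun := fun B => amp B
      map_zero' := (h4 Y 0 0).2.2.1
      map_add' := fun B B' => (h4 Y B B').1 }
  have hf : Continuous f := AddMonoidHomClass.continuous_of_bound f 1
    (fun B => by rw [one_mul]; exact (h3 Y B).2)
  exact continuous_const.mul hf

end IAmR

/-- AmR -/
theorem pr_AmR (_h1 : St_GFP) (h2 : St_Slc) (h3 : St_AmX) (h4 : St_AmA) : St_AmR := by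
  intro Y d hbg B hB s
  refine map_mem_closure (f := fun B : OpY Y => JY s * amp B) (IAmR.cont h3 h4 s) hB ?_
  rintro B' ⟨⟨R, hR⟩, -⟩
  refine ⟨⟨R, ?_⟩, IAmR.lco h2 h3 hbg hR s⟩
  intro ξ p hp
  obtain ⟨_, y, hy, hd⟩ := IAmR.key h2 h3 hR s ξ p hp
  exact ⟨(y, p.2), hy, hd⟩

end

end Pool.Agent.Work.MP_1ddc88_an.GR
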