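import Pool.Agent.Work.MP_1ddc88_an.GR.StmtsA

/-!
# MP_1ddc88_an, block GR, item AmX: the operator acting on every slice as `B` on the slice 0
-/

set_option autoImplicit false

open Filter Topology
open scoped ENNReal Classical

namespace Pool.Agent.Work.MP_1ddc88_an.GR

open TL

noncomputable section

namespace IAmX

variable {Y : Type}

theorem inj0 : Function.Injective (fun y : Y => ((y, 0) : Y × ℕ)) := by
  intro y z h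
  exact congrArg Prod.fst h

theorem slc_norm (h1 : St_Slc) (k : ℕ) (ξ : HY Y) :
    ‖slc Y k ξ‖ ^ 2 = ∑' y : Y, ‖ξ (y, k)‖ ^ 2 := by
  rw [l2_norm_sq]
  have h2 := (inj0 (Y := Y)).tsum_eq (f := fun p : Y × ℕ => ‖slc Y k ξ p‖ ^ 2) (by
    intro p hp
    rw [Function.mem_support] at hp
    obtain ⟨y, j⟩ := p
    by_cases hj : j = 0
    · exact ⟨y, by rw [hj]⟩
    · exfalso
      apply hp
      rw [h1 Y k ξ y j, if_neg hj]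
      simp)
  rw [← h2]
  congr 1
  funext y
  rw [h1 Y k ξ y 0, if_pos rfl]

theorem row (B : OpY Y) (h1 : St_Slc) (k : ℕ) (ξ : HY Y) :
    Summable (fun y : Y => ‖B (slc Y k ξ) (y, 0)‖ ^ 2) ∧
      ∑' y : Y, ‖B (slc Y k ξ) (y, 0)‖ ^ 2 ≤ ‖B‖ ^ 2 * ∑' y : Y, ‖ξ (y, k)‖ ^ 2 := by
  have hs := l2_summable (B (slc Y k ξ))
  have hs2 : Summable (fun y : Y => ‖B (slc Y k ξ) (y, 0)‖ ^ 2) :=
    hs.comp_injective (inj0 (Y := Y))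
  refine ⟨hs2, ?_⟩
  have h3 : ∑' y : Y, ‖B (slc Y k ξ) (y, 0)‖ ^ 2 ≤ ‖B (slc Y k ξ)‖ ^ 2 := by
    rw [l2_norm_sq]
    exact hs2.tsum_le_tsum_of_inj (fun y : Y => ((y, 0) : Y × ℕ)) (inj0 (Y := Y))
      (fun p _ => by positivity) (fun y => le_refl _) hs
  have h4 : ‖B (slc Y k ξ)‖ ^ 2 ≤ (‖B‖ * ‖slc Y k ξ‖) ^ 2 :=
    pow_le_pow_left₀ (norm_nonneg _) (B.le_opNorm _) 2
  rw [mul_pow, slc_norm h1] at h4
  exact h3.trans h4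

theorem full (B : OpY Y) (h1 : St_Slc) (ξ : HY Y) :
    Summable (fun p : Y × ℕ => ‖B (slc Y p.2 ξ) (p.1, 0)‖ ^ 2) ∧
      ∑' p : Y × ℕ, ‖B (slc Y p.2 ξ) (p.1, 0)‖ ^ 2 ≤ ‖B‖ ^ 2 * ‖ξ‖ ^ 2 := by
  have hx : Summable (fun q : ℕ × Y => ‖ξ (q.2, q.1)‖ ^ 2) := by
    exact (l2_summable ξ).prod_symm
  have hS : Summable (fun q : ℕ × Y => ‖B (slc Y q.1 ξ) (q.2, 0)‖ ^ 2) := by
    rw [summable_prod_of_nonneg (fun q => by positivity)]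
    refine ⟨fun k => (row B h1 k ξ).1, ?_⟩
    exact Summable.of_nonneg_of_le (fun k => tsum_nonneg fun y => by positivity)
      (fun k => (row B h1 k ξ).2) (hx.prod.mul_left _)
  have hS' : Summable (fun p : Y × ℕ => ‖B (slc Y p.2 ξ) (p.1, 0)‖ ^ 2) := by
    have := hS.prod_symm
    simpa using this
  refine ⟨hS', ?_⟩
  calc ∑' p : Y × ℕ, ‖B (slc Y p.2 ξ) (p.1, 0)‖ ^ 2
      = ∑' q : ℕ × Y, ‖B (slc Y q.1 ξ) (q.2, 0)‖ ^ 2 :=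
        (Equiv.prodComm ℕ Y).tsum_eq
          (fun p : Y × ℕ => ‖B (slc Y p.2 ξ) (p.1, 0)‖ ^ 2) |>.symm
    _ = ∑' k : ℕ, ∑' y : Y, ‖B (slc Y k ξ) (y, 0)‖ ^ 2 := hS.tsum_prod
    _ ≤ ∑' k : ℕ, ‖B‖ ^ 2 * ∑' y : Y, ‖ξ (y, k)‖ ^ 2 :=
        hS.prod.tsum_le_tsum (fun k => (row B h1 k ξ).2) (hx.prod.mul_left _)
    _ = ‖B‖ ^ 2 * ∑' k : ℕ, ∑' y : Y, ‖ξ (y, k)‖ ^ 2 := tsum_mul_left
    _ = ‖B‖ ^ 2 * ∑' q : ℕ × Y, ‖ξ (q.2, q.1)‖ ^ 2 := by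
        congr 1
        exact hx.tsum_prod.symm
    _ = ‖B‖ ^ 2 * ‖ξ‖ ^ 2 := by
        rw [l2_norm_sq]
        congr 1
        exact (Equiv.prodComm ℕ Y).tsum_eq (fun p : Y × ℕ => ‖ξ p‖ ^ 2)

theorem ex (h1 : St_Slc) (B : OpY Y) : ∃ C : OpY Y, IsAmp B C ∧ ‖C‖ ≤ ‖B‖ := by
  have hmem : ∀ ξ : HY Y, Memℓp (fun p : Y × ℕ => (B (slc Y p.2 ξ) (p.1, 0) : ℂ)) 2 := by
    intro ξ
    refine memℓp_gen ?_
    have := (full B h1 ξ).1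
    simpa using this
  let L : HY Y →ₗ[ℂ] HY Y :=
    { toFun := fun ξ => ⟨fun p : Y × ℕ => B (slc Y p.2 ξ) (p.1, 0), hmem ξ⟩
      map_add' := fun ξ η => by
        ext p
        simp only [lp.coeFn_add, Pi.add_apply, map_add]
      map_smul' := fun c ξ => by
        ext p
        simp only [lp.coeFn_smul, Pi.smul_apply, map_smul, RingHom.id_apply] }
  have hL : ∀ ξ : HY Y, ‖L ξ‖ ≤ ‖B‖ * ‖ξ‖ := by
    intro ξ
    have h2 : ‖L ξ‖ ^ 2 ≤ (‖B‖ * ‖ξ‖) ^ 2 := by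
      rw [l2_norm_sq, mul_pow]
      exact (full B h1 ξ).2
    exact (abs_le_of_sq_le_sq' h2 (by positivity)).2
  refine ⟨L.mkContinuous ‖B‖ hL, ?_, LinearMap.mkContinuous_norm_le _ (norm_nonneg _) _⟩
  intro ξ y k
  rfl

end IAmX

theorem pr_AmX (h1 : St_Slc) : St_AmX := by
  intro Y B
  have h := IAmX.ex h1 B
  unfold amp
  rw [dif_pos h]
  exact h.choose_spec

end

end Pool.Agent.Work.MP_1ddc88_an.GR
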