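import Pool.Agent.Work.MP_1ddc88_an.GR.Stmts

/-!
# MP_1ddc88_an, block GR: item Est
-/

set_option autoImplicit false

open Filter Topology

namespace Pool.Agent.Work.MP_1ddc88_an.GR

theorem pr_Est : St_Est := by
  intro B _ _ X Y C δ v u hC hδ hX hY h1 h2 h3 hlt
  have e1 : Y v = Y (X u) + Y (X (Y v - u)) - Y (X (Y v) - v) := by
    simp only [map_sub]; abel
  have b2 : ‖Y (X (Y v - u))‖ ≤ C * (C * (δ * ‖v‖)) :=
    (hY _).trans (mul_le_mul_of_nonneg_left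
      ((hX _).trans (mul_le_mul_of_nonneg_left h2 hC)) hC)
  have b3 : ‖Y (X (Y v) - v)‖ ≤ C * (δ * ‖v‖) :=
    (hY _).trans (mul_le_mul_of_nonneg_left h1 hC)
  have b1 : ‖Y v‖ ≤ δ * ‖v‖ + C * (C * (δ * ‖v‖)) + C * (δ * ‖v‖) := by
    calc ‖Y v‖ = ‖Y (X u) + Y (X (Y v - u)) - Y (X (Y v) - v)‖ := by rw [← e1]
      _ ≤ ‖Y (X u) + Y (X (Y v - u))‖ + ‖Y (X (Y v) - v)‖ := norm_sub_le _ _
      _ ≤ ‖Y (X u)‖ + ‖Y (X (Y v - u))‖ + ‖Y (X (Y v) - v)‖ := by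
          have := norm_add_le (Y (X u)) (Y (X (Y v - u)))
          linarith
      _ ≤ _ := by linarith
  have e2 : v = X (Y v) - (X (Y v) - v) := by abel
  have b4 : ‖v‖ ≤ C * ‖Y v‖ + δ * ‖v‖ := by
    calc ‖v‖ = ‖X (Y v) - (X (Y v) - v)‖ := by rw [← e2]
      _ ≤ ‖X (Y v)‖ + ‖X (Y v) - v‖ := norm_sub_le _ _
      _ ≤ _ := by linarith [hX (Y v)]
  have b5 : C * ‖Y v‖ ≤ C * (δ * ‖v‖ + C * (C * (δ * ‖v‖)) + C * (δ * ‖v‖)) :=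
    mul_le_mul_of_nonneg_left b1 hC
  have b6 : ‖v‖ ≤ ((C * (1 + C + C ^ 2) + 1) * δ) * ‖v‖ := by
    calc ‖v‖ ≤ C * (δ * ‖v‖ + C * (C * (δ * ‖v‖)) + C * (δ * ‖v‖)) + δ * ‖v‖ := by linarith
      _ = _ := by ring
  have b7 : (1 - (C * (1 + C + C ^ 2) + 1) * δ) * ‖v‖ ≤ 0 := by linarith
  have b8 : 0 < 1 - (C * (1 + C + C ^ 2) + 1) * δ := by linarith
  have b9 : ‖v‖ ≤ 0 := by
    by_contra hcon
    push Not at hcon
    have := mul_pos b8 hcon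
    linarith
  exact norm_le_zero_iff.mp b9

end Pool.Agent.Work.MP_1ddc88_an.GR
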