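import Pool.Agent.Work.MP_1ddc88_an.GR.Stmts

/-!
# MP_1ddc88_an, block GR, item GAG: the ghost operators form an ideal (adapted from `TL/I_TAG.lean`)
-/

set_option autoImplicit false

open Filter Topology
open scoped ENNReal Classical

namespace Pool.Agent.Work.MP_1ddc88_an.GR

open TL

namespace IGAG

variable {Y : Type} (d : Y → Y → ℕ)

/-- the first part of `BddGeo` -/
def Met : Prop := ∀ x y z : Y, d x x = 0 ∧ (d x y = 0 → x = y) ∧ d x y = d y x ∧ d x z ≤ d x y + d y z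

/-- the second part of `BddGeo` -/
def Geo : Prop := ∀ R : ℕ, ∃ B : ℕ, ∀ z : Y, {w | d z w ≤ R}.Finite ∧ {w | d z w ≤ R}.ncard ≤ B

theorem proj_fin (s : Finset Y) :
    proj {q : Y × ℕ | q.1 ∈ s} = ∑ z ∈ s, proj (cellY z) := by
  induction s using Finset.induction_on with
  | empty =>
    rw [Finset.sum_empty]
    have : {q : Y × ℕ | q.1 ∈ (∅ : Finset Y)} = ∅ := by
      ext q
      simp
    rw [this, proj_empty]
  | insert z s hz ih =>
    rw [Finset.sum_insert hz, ← ih]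
    have h1 : {q : Y × ℕ | q.1 ∈ insert z s} = cellY z ∪ {q : Y × ℕ | q.1 ∈ s} := by
      ext q
      simp [cellY]
    rw [h1, proj_union]
    rw [Set.disjoint_left]
    intro q hq hq'
    apply hz
    have h2 : q.1 = z := hq
    rw [← h2]
    exact hq'

theorem left (S : OpY Y) (R : ℕ) (hS : FP d R S) (z : Y) (s : Finset Y)
    (hs : ∀ w, w ∈ s ↔ d z w ≤ R) :
    proj (cellY z) * S = proj (cellY z) * S * proj {q : Y × ℕ | q.1 ∈ s} := by
  apply op_ext
  intro ξ p
  show proj (cellY z) (S ξ) p = proj (cellY z) (S (proj {q : Y × ℕ | q.1 ∈ s} ξ)) p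
  rw [proj_apply, proj_apply]
  by_cases hp : p ∈ cellY z
  · rw [if_pos hp, if_pos hp]
    have hp' : p.1 = z := hp
    by_contra hne
    have h1 : S (ξ - proj {q : Y × ℕ | q.1 ∈ s} ξ) p ≠ 0 := by
      rw [map_sub]
      show S ξ p - S (proj {q : Y × ℕ | q.1 ∈ s} ξ) p ≠ 0
      exact sub_ne_zero.2 hne
    obtain ⟨q, hq, hd⟩ := hS _ _ h1
    rw [hp'] at hd
    apply hq
    show ξ q - proj {q : Y × ℕ | q.1 ∈ s} ξ q = 0
    rw [proj_apply, if_pos (show q ∈ {q : Y × ℕ | q.1 ∈ s} from (hs q.1).2 hd), sub_self]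
  · rw [if_neg hp, if_neg hp]

theorem right (h1 : Met d) (S : OpY Y) (R : ℕ) (hS : FP d R S) (w : Y)
    (s : Finset Y) (hs : ∀ z, z ∈ s ↔ d w z ≤ R) :
    S * proj (cellY w) = proj {q : Y × ℕ | q.1 ∈ s} * (S * proj (cellY w)) := by
  apply op_ext
  intro ξ p
  show S (proj (cellY w) ξ) p = proj {q : Y × ℕ | q.1 ∈ s} (S (proj (cellY w) ξ)) p
  rw [proj_apply]
  by_cases hp : p ∈ {q : Y × ℕ | q.1 ∈ s}
  · rw [if_pos hp]
  · rw [if_neg hp]
    by_contra hne
    obtain ⟨q, hq, hd⟩ := hS _ _ hne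
    apply hq
    rw [proj_apply, if_neg]
    intro hq'
    have hq2 : q.1 = w := hq'
    apply hp
    show p.1 ∈ s
    rw [hs, (h1 w p.1 w).2.2.1, ← hq2]
    exact hd

/-- the estimate on the left -/
theorem estL (S T : OpY Y) (R : ℕ) (hS : FP d R S) (z w : Y) (s : Finset Y)
    (hs : ∀ w, w ∈ s ↔ d z w ≤ R) (δ : ℝ)
    (hT : ∀ z' ∈ s, ‖proj (cellY z') * (T * proj (cellY w))‖ ≤ δ) :
    ‖proj (cellY z) * (S * T * proj (cellY w))‖ ≤ ‖S‖ * (s.card * δ) := by
  have h1 : proj (cellY z) * (S * T * proj (cellY w)) =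
      proj (cellY z) * S * ∑ z' ∈ s, proj (cellY z') * (T * proj (cellY w)) := by
    rw [← Finset.sum_mul, ← proj_fin, ← mul_assoc _ (proj {q : Y × ℕ | q.1 ∈ s}),
      ← left d S R hS z s hs]
    simp only [mul_assoc]
  rw [h1]
  refine (norm_mul_le _ _).trans ?_
  have h2 : ‖proj (cellY z) * S‖ ≤ ‖S‖ := by
    refine (norm_mul_le _ _).trans ?_
    have := proj_norm_le (cellY z)
    have h0 := norm_nonneg S
    nlinarith
  have h3 : ‖∑ z' ∈ s, proj (cellY z') * (T * proj (cellY w))‖ ≤ s.card * δ := by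
    refine (norm_sum_le _ _).trans ?_
    refine (Finset.sum_le_sum hT).trans ?_
    rw [Finset.sum_const, nsmul_eq_mul]
  exact mul_le_mul h2 h3 (norm_nonneg _) (norm_nonneg _)

/-- the estimate on the right -/
theorem estR (h1 : Met d) (S T : OpY Y) (R : ℕ) (hS : FP d R S) (z w : Y)
    (s : Finset Y) (hs : ∀ z, z ∈ s ↔ d w z ≤ R) (δ : ℝ)
    (hT : ∀ w' ∈ s, ‖proj (cellY z) * (T * proj (cellY w'))‖ ≤ δ) :
    ‖proj (cellY z) * (T * S * proj (cellY w))‖ ≤ (s.card * δ) * ‖S‖ := by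
  have h2 : proj (cellY z) * (T * S * proj (cellY w)) =
      (∑ w' ∈ s, proj (cellY z) * (T * proj (cellY w'))) * (S * proj (cellY w)) := by
    rw [← Finset.mul_sum, ← Finset.mul_sum, ← proj_fin, mul_assoc (proj (cellY z)),
      mul_assoc T (proj {q : Y × ℕ | q.1 ∈ s}), ← right d h1 S R hS w s hs, mul_assoc T]
  rw [h2]
  refine (norm_mul_le _ _).trans ?_
  have h3 : ‖S * proj (cellY w)‖ ≤ ‖S‖ := by
    refine (norm_mul_le _ _).trans ?_
    have := proj_norm_le (cellY w)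
    have h0 := norm_nonneg S
    nlinarith
  have h4 : ‖∑ w' ∈ s, proj (cellY z) * (T * proj (cellY w'))‖ ≤ s.card * δ := by
    refine (norm_sum_le _ _).trans ?_
    refine (Finset.sum_le_sum hT).trans ?_
    rw [Finset.sum_const, nsmul_eq_mul]
  exact mul_le_mul h4 h3 (norm_nonneg _) ((norm_nonneg _).trans h4)

theorem blk_le (A : OpY Y) (z w : Y) : ‖proj (cellY z) * (A * proj (cellY w))‖ ≤ ‖A‖ := by
  refine (norm_mul_le _ _).trans ?_
  have h1 := proj_norm_le (cellY z)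
  have h2 : ‖A * proj (cellY w)‖ ≤ ‖A‖ * ‖proj (cellY w)‖ := norm_mul_le _ _
  have h3 := proj_norm_le (cellY w)
  have h4 : ‖A‖ * ‖proj (cellY w)‖ ≤ ‖A‖ * 1 := mul_le_mul_of_nonneg_left h3 (norm_nonneg _)
  have h5 : ‖proj (cellY z)‖ * ‖A * proj (cellY w)‖ ≤ 1 * ‖A * proj (cellY w)‖ :=
    mul_le_mul_of_nonneg_right h1 (norm_nonneg _)
  linarith

theorem mem_ball (R : ℕ) (z : Y) (h : {w | d z w ≤ R}.Finite) (w : Y) :
    w ∈ h.toFinset ↔ d z w ≤ R := by
  rw [Set.Finite.mem_toFinset]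
  rfl

/-- the neighbourhood of a finite set -/
theorem nbh (h2 : Geo d) (R : ℕ) (F : Finset Y) :
    ∃ F' : Finset Y, (∀ z ∈ F, z ∈ F') ∧ ∀ z ∈ F, ∀ w, d z w ≤ R → w ∈ F' := by
  obtain ⟨B, hB⟩ := h2 R
  refine ⟨F ∪ F.biUnion fun z => (hB z).1.toFinset, fun z hz => Finset.mem_union_left _ hz, ?_⟩
  intro z hz w hw
  refine Finset.mem_union_right _ ?_
  rw [Finset.mem_biUnion]
  exact ⟨z, hz, (mem_ball d R z (hB z).1 w).2 hw⟩

end IGAG

theorem IGAG.ghost {Y : Type} (d : Y → Y → ℕ) (hb : S.BddGeo d) (h3 : St_GAR) (S T T' : OpY Y)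
    (hS : S ∈ RoeP d) (hT : T ∈ GhY d) (hT' : T' ∈ GhY d) :
    T + T' ∈ GhY d ∧ S * T ∈ GhY d ∧ T * S ∈ GhY d := by
  have h1 : IGAG.Met d := hb.1
  have h2 : IGAG.Geo d := hb.2
  obtain ⟨c, hc⟩ := hS
  refine ⟨⟨(h3 Y d hb T T' hT.1 hT'.1).1, ?_⟩, ⟨?_, ?_⟩, ⟨?_, ?_⟩⟩
  · intro ε hε
    obtain ⟨F, hF⟩ := hT.2 (ε / 2) (by linarith)
    obtain ⟨F', hF'⟩ := hT'.2 (ε / 2) (by linarith)
    refine ⟨F ∪ F', fun z w hzw => ?_⟩
    have a1 := hF z w (hzw.imp (fun h h' => h (Finset.mem_union_left _ h'))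
      fun h h' => h (Finset.mem_union_left _ h'))
    have a2 := hF' z w (hzw.imp (fun h h' => h (Finset.mem_union_right _ h'))
      fun h h' => h (Finset.mem_union_right _ h'))
    have a3 : proj (cellY z) * (T + T') * proj (cellY w) =
        proj (cellY z) * T * proj (cellY w) + proj (cellY z) * T' * proj (cellY w) := by
      rw [mul_add, add_mul]
    rw [a3]
    refine (norm_add_le _ _).trans ?_
    linarith
  · have e1 : S * T = (S - c • (1 : OpY Y)) * T + c • T := by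
      rw [sub_mul, smul_mul_assoc, one_mul, sub_add_cancel]
    rw [e1]
    exact (h3 Y d hb _ _ (h3 Y d hb _ _ hc hT.1).2.1 ((h3 Y d hb T T hT.1 hT.1).2.2 c)).1
  · intro ε hε
    have hT0 := norm_nonneg T
    obtain ⟨S1, ⟨⟨R, hR⟩, _⟩, hd⟩ := Metric.mem_closure_iff.1 hc (ε / (3 * (‖T‖ + 1)))
      (by positivity)
    obtain ⟨B, hB⟩ := h2 R
    have hB0 : (0 : ℝ) ≤ B := Nat.cast_nonneg B
    have hS0 := norm_nonneg S1
    have hc0 := norm_nonneg c
    obtain ⟨F, hF⟩ := hT.2 (ε / (3 * ((‖S1‖ + 1) * (B + 1) * (‖c‖ + 1)))) (by positivity)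
    obtain ⟨F', hF1, hF2⟩ := IGAG.nbh d h2 R F
    refine ⟨F', fun z w hzw => ?_⟩
    have hz' : ∀ z', d z z' ≤ R → z' ∉ F ∨ w ∉ F := by
      intro z' hz'
      rcases hzw with h | h
      · left
        intro h'
        apply h
        refine hF2 z' h' z ?_
        rw [(h1 z' z z).2.2.1]
        exact hz'
      · right
        intro h'
        exact h (hF1 w h')
    have hz0 : z ∉ F ∨ w ∉ F := hz' z (by rw [(h1 z z z).1]; exact Nat.zero_le R)
    have b1 : ‖proj (cellY z) * ((S - c • (1 : OpY Y) - S1) * T * proj (cellY w))‖ ≤ ε / 3 := by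
      refine (IGAG.blk_le _ z w).trans ?_
      refine (norm_mul_le _ _).trans ?_
      rw [dist_eq_norm] at hd
      calc ‖S - c • (1 : OpY Y) - S1‖ * ‖T‖ ≤ ε / (3 * (‖T‖ + 1)) * (‖T‖ + 1) :=
            mul_le_mul hd.le (by linarith) hT0 (by positivity)
        _ = ε / 3 := by field_simp
    have b2 := IGAG.estL d S1 T R hR z w (hB z).1.toFinset (IGAG.mem_ball d R z (hB z).1)
      (ε / (3 * ((‖S1‖ + 1) * (B + 1) * (‖c‖ + 1)))) (fun z' hz'' =>
        hF z' w (hz' z' ((IGAG.mem_ball d R z (hB z).1 z').1 hz'')))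
    have hcard : (((hB z).1.toFinset.card : ℕ) : ℝ) ≤ B := by
      have := (hB z).2
      rw [Set.ncard_eq_toFinset_card _ (hB z).1] at this
      exact_mod_cast this
    have b2' : ‖proj (cellY z) * (S1 * T * proj (cellY w))‖ ≤ ε / 3 := by
      refine b2.trans ?_
      calc ‖S1‖ * (((hB z).1.toFinset.card : ℕ) *
              (ε / (3 * ((‖S1‖ + 1) * (B + 1) * (‖c‖ + 1)))))
          ≤ (‖S1‖ + 1) * ((B + 1) * (ε / (3 * ((‖S1‖ + 1) * (B + 1) * (‖c‖ + 1))))) := by
            gcongr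
            · linarith
            · linarith
        _ = ε / 3 / (‖c‖ + 1) := by field_simp
        _ ≤ ε / 3 := div_le_self (by positivity) (by linarith)
    have b3 : ‖c • (proj (cellY z) * (T * proj (cellY w)))‖ ≤ ε / 3 := by
      rw [norm_smul]
      have h5 := hF z w hz0
      change ‖proj (cellY z) * (T * proj (cellY w))‖ ≤ _ at h5
      calc ‖c‖ * ‖proj (cellY z) * (T * proj (cellY w))‖
          ≤ (‖c‖ + 1) * (ε / (3 * ((‖S1‖ + 1) * (B + 1) * (‖c‖ + 1)))) := by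
            gcongr
            linarith
        _ = ε / 3 / ((‖S1‖ + 1) * (B + 1)) := by field_simp
        _ ≤ ε / 3 := div_le_self (by positivity) (by nlinarith)
    have e2 : proj (cellY z) * (S * T) * proj (cellY w) =
        proj (cellY z) * ((S - c • (1 : OpY Y) - S1) * T * proj (cellY w)) +
        proj (cellY z) * (S1 * T * proj (cellY w)) +
        c • (proj (cellY z) * (T * proj (cellY w))) := by
      rw [mul_assoc (proj (cellY z))]
      rw [← mul_add, ← mul_smul_comm, ← mul_add, ← smul_mul_assoc, ← add_mul, ← add_mul]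
      congr 2
      rw [sub_mul, sub_mul, smul_mul_assoc, one_mul]
      abel
    rw [e2]
    refine (norm_add_le _ _).trans ?_
    have := norm_add_le (proj (cellY z) * ((S - c • (1 : OpY Y) - S1) * T * proj (cellY w)))
      (proj (cellY z) * (S1 * T * proj (cellY w)))
    linarith
  · have e1 : T * S = T * (S - c • (1 : OpY Y)) + c • T := by
      rw [mul_sub, mul_smul_comm, mul_one, sub_add_cancel]
    rw [e1]
    exact (h3 Y d hb _ _ (h3 Y d hb _ _ hT.1 hc).2.1 ((h3 Y d hb T T hT.1 hT.1).2.2 c)).1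
  · intro ε hε
    have hT0 := norm_nonneg T
    obtain ⟨S1, ⟨⟨R, hR⟩, _⟩, hd⟩ := Metric.mem_closure_iff.1 hc (ε / (3 * (‖T‖ + 1)))
      (by positivity)
    obtain ⟨B, hB⟩ := h2 R
    have hB0 : (0 : ℝ) ≤ B := Nat.cast_nonneg B
    have hS0 := norm_nonneg S1
    have hc0 := norm_nonneg c
    obtain ⟨F, hF⟩ := hT.2 (ε / (3 * ((‖S1‖ + 1) * (B + 1) * (‖c‖ + 1)))) (by positivity)
    obtain ⟨F', hF1, hF2⟩ := IGAG.nbh d h2 R F
    refine ⟨F', fun z w hzw => ?_⟩
    have hw' : ∀ w', d w w' ≤ R → z ∉ F ∨ w' ∉ F := by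
      intro w' hw'
      rcases hzw with h | h
      · left
        intro h'
        exact h (hF1 z h')
      · right
        intro h'
        apply h
        refine hF2 w' h' w ?_
        rw [(h1 w' w w).2.2.1]
        exact hw'
    have hw0 : z ∉ F ∨ w ∉ F := hw' w (by rw [(h1 w w w).1]; exact Nat.zero_le R)
    have b1 : ‖proj (cellY z) * (T * (S - c • (1 : OpY Y) - S1) * proj (cellY w))‖ ≤ ε / 3 := by
      refine (IGAG.blk_le _ z w).trans ?_
      refine (norm_mul_le _ _).trans ?_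
      rw [dist_eq_norm] at hd
      calc ‖T‖ * ‖S - c • (1 : OpY Y) - S1‖ ≤ (‖T‖ + 1) * (ε / (3 * (‖T‖ + 1))) :=
            mul_le_mul (by linarith) hd.le (norm_nonneg _) (by positivity)
        _ = ε / 3 := by field_simp
    have b2 := IGAG.estR d h1 S1 T R hR z w (hB w).1.toFinset (IGAG.mem_ball d R w (hB w).1)
      (ε / (3 * ((‖S1‖ + 1) * (B + 1) * (‖c‖ + 1)))) (fun w' hw'' =>
        hF z w' (hw' w' ((IGAG.mem_ball d R w (hB w).1 w').1 hw'')))
    have hcard : (((hB w).1.toFinset.card : ℕ) : ℝ) ≤ B := by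
      have := (hB w).2
      rw [Set.ncard_eq_toFinset_card _ (hB w).1] at this
      exact_mod_cast this
    have b2' : ‖proj (cellY z) * (T * S1 * proj (cellY w))‖ ≤ ε / 3 := by
      refine b2.trans ?_
      calc ((((hB w).1.toFinset.card : ℕ) : ℝ) *
              (ε / (3 * ((‖S1‖ + 1) * (B + 1) * (‖c‖ + 1))))) * ‖S1‖
          ≤ ((B + 1) * (ε / (3 * ((‖S1‖ + 1) * (B + 1) * (‖c‖ + 1))))) * (‖S1‖ + 1) := by
            gcongr
            · linarith
            · linarith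
        _ = ε / 3 / (‖c‖ + 1) := by field_simp
        _ ≤ ε / 3 := div_le_self (by positivity) (by linarith)
    have b3 : ‖c • (proj (cellY z) * (T * proj (cellY w)))‖ ≤ ε / 3 := by
      rw [norm_smul]
      have h5 := hF z w hw0
      change ‖proj (cellY z) * (T * proj (cellY w))‖ ≤ _ at h5
      calc ‖c‖ * ‖proj (cellY z) * (T * proj (cellY w))‖
          ≤ (‖c‖ + 1) * (ε / (3 * ((‖S1‖ + 1) * (B + 1) * (‖c‖ + 1)))) := by
            gcongr
            linarith
        _ = ε / 3 / ((‖S1‖ + 1) * (B + 1)) := by field_simp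
        _ ≤ ε / 3 := div_le_self (by positivity) (by nlinarith)
    have e2 : proj (cellY z) * (T * S) * proj (cellY w) =
        proj (cellY z) * (T * (S - c • (1 : OpY Y) - S1) * proj (cellY w)) +
        proj (cellY z) * (T * S1 * proj (cellY w)) +
        c • (proj (cellY z) * (T * proj (cellY w))) := by
      rw [mul_assoc (proj (cellY z))]
      rw [← mul_add, ← mul_smul_comm, ← mul_add, ← smul_mul_assoc, ← add_mul, ← add_mul]
      congr 2
      rw [mul_sub, mul_sub, mul_smul_comm, mul_one]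
      abel
    rw [e2]
    refine (norm_add_le _ _).trans ?_
    have := norm_add_le (proj (cellY z) * (T * (S - c • (1 : OpY Y) - S1) * proj (cellY w)))
      (proj (cellY z) * (T * S1 * proj (cellY w)))
    linarith

theorem pr_GAG (_h1 : St_GFP) (h3 : St_GAR) : St_GAG := by
  intro Y d hb S S' G G' hS hS' hG hG'
  have hzero : (0 : OpY Y) ∈ RoeY d := by
    have h4 := (h3 Y d hb G G hG.1 hG.1).2.2 0
    rwa [zero_smul] at h4
  have hscal : ∀ c : ℂ, c • (1 : OpY Y) ∈ RoeP d := by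
    intro c
    refine ⟨c, ?_⟩
    rw [sub_self]
    exact hzero
  obtain ⟨a1, a2, a3⟩ := IGAG.ghost d hb h3 S G G' hS hG hG'
  have a4 : ∀ c : ℂ, c • G ∈ GhY d := by
    intro c
    have h4 := (IGAG.ghost d hb h3 (c • (1 : OpY Y)) G G (hscal c) hG hG).2.1
    rwa [smul_mul_assoc, one_mul] at h4
  have a5 : (0 : OpY Y) ∈ GhY d := by
    have h4 := a4 0
    rwa [zero_smul] at h4
  obtain ⟨c, hc⟩ := hS
  obtain ⟨c', hc'⟩ := hS'
  have b := h3 Y d hb _ _ hc hc'
  refine ⟨⟨⟨c + c', ?_⟩, ⟨c * c', ?_⟩, fun t => ⟨t * c, ?_⟩, ⟨1, ?_⟩, ⟨0, ?_⟩, fun C hC => ⟨0, ?_⟩⟩,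
    a1, a4, a2, a3, a5⟩
  · have e : S + S' - (c + c') • (1 : OpY Y) =
        (S - c • (1 : OpY Y)) + (S' - c' • (1 : OpY Y)) := by
      rw [add_smul]
      abel
    rw [e]
    exact b.1
  · have e : S * S' - (c * c') • (1 : OpY Y) =
        (S - c • (1 : OpY Y)) * (S' - c' • (1 : OpY Y)) +
          (c • (S' - c' • (1 : OpY Y)) + c' • (S - c • (1 : OpY Y))) := by
      rw [mul_sub, sub_mul, sub_mul, smul_mul_assoc, one_mul, mul_smul_comm, mul_one,
        mul_smul_comm, mul_one, smul_sub, smul_sub, smul_smul, smul_smul, mul_comm c' c]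
      abel
    rw [e]
    exact (h3 Y d hb _ _ b.2.1 (h3 Y d hb _ _ ((h3 Y d hb _ _ hc' hc').2.2 c) ((h3 Y d hb _ _ hc hc).2.2 c')).1).1
  · have e : t • S - (t * c) • (1 : OpY Y) = t • (S - c • (1 : OpY Y)) := by
      rw [smul_sub, smul_smul]
    rw [e]
    exact b.2.2 t
  · rw [one_smul, sub_self]
    exact hzero
  · rw [zero_smul, sub_self]
    exact hzero
  · rw [zero_smul, sub_zero]
    exact hC

end Pool.Agent.Work.MP_1ddc88_an.GR
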