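import Pool.Agent.Work.MP_1ddc88_an.GR.Stmts

/-!
# MP_1ddc88_an, block GR, item GAR (helper60): the Roe algebra is an algebra

After `TL/I_TAR.lean` (helper96).
-/

set_option autoImplicit false

open Filter Topology
open scoped ENNReal Classical

namespace Pool.Agent.Work.MP_1ddc88_an.GR

open TL

noncomputable section

namespace IGAR

theorem add_lco {Y : Type} (S T : OpY Y) (hS : LCo S) (hT : LCo T) : LCo (S + T) := by
  intro z
  obtain ⟨h1, h2⟩ := hS z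
  obtain ⟨h3, h4⟩ := hT z
  constructor
  · rw [add_mul]
    exact h1.add h3
  · rw [mul_add]
    exact h2.add h4

theorem smul_lco {Y : Type} (c : ℂ) (S : OpY Y) (hS : LCo S) : LCo (c • S) := by
  intro z
  obtain ⟨h1, h2⟩ := hS z
  constructor
  · rw [smul_mul_assoc]
    exact h1.smul c
  · rw [mul_smul_comm]
    exact h2.smul c

end IGAR

open IGAR

theorem pr_GAR (h1 : St_GFP) (h2 : St_GLC) : St_GAR := by
  intro Y d hd S S' hS hS'
  refine ⟨?_, ?_, ?_⟩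
  · refine map_mem_closure₂ continuous_add hS hS' ?_
    rintro A ⟨⟨R, hA⟩, hA'⟩ B ⟨⟨R', hB⟩, hB'⟩
    exact ⟨⟨_, (h1 Y d hd R R' A B hA hB).2.1⟩, add_lco A B hA' hB'⟩
  · refine map_mem_closure₂ continuous_mul hS hS' ?_
    rintro A ⟨⟨R, hA⟩, hA'⟩ B ⟨⟨R', hB⟩, hB'⟩
    exact ⟨⟨_, (h1 Y d hd R R' A B hA hB).1⟩, (h2 Y d hd R A B hA hB').1⟩
  · intro c
    refine map_mem_closure (continuous_const_smul c) hS ?_
    rintro A ⟨⟨R, hA⟩, hA'⟩
    exact ⟨⟨R, (h1 Y d hd R R A A hA hA).2.2.2.1 c⟩, smul_lco c A hA'⟩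

end

end Pool.Agent.Work.MP_1ddc88_an.GR
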