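import Pool.Agent.Work.MP_1ddc88_an.GR.Stmts

/-!
# MP_1ddc88_an, block GR, item GCC

An operator of the Roe algebra times the projection onto finitely many cells is compact.
-/

set_option autoImplicit false

open Filter Topology
open scoped ENNReal Classical

namespace Pool.Agent.Work.MP_1ddc88_an.GR

open TL

noncomputable section

namespace IGCC

theorem closed {Y : Type} (P : OpY Y) : IsClosed {B : OpY Y | IsCompactOperator (B * P)} := by
  have h : Continuous (fun B : OpY Y => B * P) := continuous_id.mul continuous_const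
  exact (isClosed_setOf_isCompactOperator (σ₁₂ := RingHom.id ℂ) (M₁ := HY Y)
    (M₂ := HY Y)).preimage h

end IGCC

/-- GCC -/
theorem pr_GCC (h1 : St_GLC) : St_GCC := by
  intro Y d hd A hA F
  refine closure_minimal ?_ (IGCC.closed (proj {p : Y × ℕ | p.1 ∈ F})) hA
  rintro B ⟨⟨R, hR⟩, hL⟩
  exact (h1 Y d hd R B B hR hL).2 F

end

end Pool.Agent.Work.MP_1ddc88_an.GR
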