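import Pool.Agent.Work.MP_1ddc88_an.GR.Stmts

/-!
# MP_1ddc88_an, block GR, item GCQ: compact operators and projections onto sets moving to infinity
-/

set_option autoImplicit false

open Filter Topology
open scoped ENNReal Classical

namespace Pool.Agent.Work.MP_1ddc88_an.GR

open TL

noncomputable section

namespace IGCQ

/-- The adjoint of a compact operator is compact. -/
theorem adj_compact {E : Type} [NormedAddCommGroup E] [InnerProductSpace ℂ E] [CompleteSpace E]
    (T : E →L[ℂ] E) (hT : IsCompactOperator T) :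
    IsCompactOperator (ContinuousLinearMap.adjoint T) := by
  set A := ContinuousLinearMap.adjoint T with hA
  have h1 : IsCompactOperator (T ∘L A) := hT.comp_clm A
  have h2 : IsCompact (closure (((T ∘L A : E →L[ℂ] E) : E →ₗ[ℂ] E) '' Metric.closedBall 0 1)) :=
    IsCompactOperator.isCompact_closure_image_closedBall h1 1
  have h3 : TotallyBounded (((T ∘L A : E →L[ℂ] E) : E →ₗ[ℂ] E) '' Metric.closedBall 0 1) :=
    h2.totallyBounded.subset subset_closure
  refine (isCompactOperator_iff_isCompact_closure_image_closedBall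
    (A : E →ₗ[ℂ] E) one_pos).2 ?_
  refine TotallyBounded.isCompact_of_isClosed (TotallyBounded.closure ?_) isClosed_closure
  rw [Metric.totallyBounded_iff]
  intro ε hε
  obtain ⟨t, hts, htf, hcov⟩ := Metric.finite_approx_of_totallyBounded h3 (ε ^ 2 / 4) (by positivity)
  have hex : ∀ y ∈ t, ∃ x, ‖x‖ ≤ 1 ∧ T (A x) = y := by
    intro y hy
    obtain ⟨x, hx, hxy⟩ := hts hy
    exact ⟨x, by simpa using hx, hxy⟩
  choose! g hg1 hg2 using hex
  refine ⟨(fun y => A (g y)) '' t, htf.image _, ?_⟩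
  rintro _ ⟨x, hx, rfl⟩
  have hx1 : ‖x‖ ≤ 1 := by simpa using hx
  obtain ⟨y, hy, hxy⟩ := Set.mem_iUnion₂.1 (hcov ⟨x, hx, rfl⟩)
  refine Set.mem_iUnion₂.2 ⟨A (g y), ⟨y, hy, rfl⟩, ?_⟩
  rw [Metric.mem_ball, dist_eq_norm] at hxy ⊢
  have e1 : T (A (x - g y)) = T (A x) - y := by
    rw [map_sub, map_sub, hg2 y hy]
  have e2 : ‖T (A (x - g y))‖ < ε ^ 2 / 4 := by
    rw [e1]; exact hxy
  have e3 : ‖x - g y‖ ≤ 2 := by
    have := norm_sub_le x (g y)
    have := hg1 y hy
    linarith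
  have e4 : ‖A (x - g y)‖ ^ 2 ≤ ‖x - g y‖ * ‖T (A (x - g y))‖ := by
    have h5 : ‖A (x - g y)‖ ^ 2 = RCLike.re (inner ℂ (A (x - g y)) (A (x - g y))) :=
      (inner_self_eq_norm_sq (𝕜 := ℂ) (A (x - g y))).symm
    rw [h5, hA, ContinuousLinearMap.adjoint_inner_left, ← hA]
    exact (RCLike.re_le_norm _).trans (norm_inner_le_norm _ _)
  have e5 : ‖A (x - g y)‖ ^ 2 < ε ^ 2 := by
    have h6 : ‖x - g y‖ * ‖T (A (x - g y))‖ ≤ 2 * (ε ^ 2 / 4) :=
      mul_le_mul e3 e2.le (norm_nonneg _) (by norm_num)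
    have h7 : 0 < ε ^ 2 := by positivity
    linarith
  have e6 : ‖A (x - g y)‖ < ε := lt_of_pow_lt_pow_left₀ 2 hε.le e5
  have e7 : (A : E →ₗ[ℂ] E) x - A (g y) = A (x - g y) := (map_sub A x (g y)).symm
  rw [e7]
  exact e6

/-- The projections are self adjoint. -/
theorem adj_proj {ι : Type} (S : Set ι) : ContinuousLinearMap.adjoint (proj S) = proj S := by
  symm
  rw [ContinuousLinearMap.eq_adjoint_iff]
  intro x y
  rw [lp.inner_eq_tsum, lp.inner_eq_tsum]
  congr 1
  funext p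
  rw [proj_apply, proj_apply]
  split_ifs with h
  · rfl
  · rw [inner_zero_left, inner_zero_right]

/-- The blocks of a vector tend to zero. -/
theorem vec {ι : Type} (s : ℕ → Set ι) (hs : ∀ p, ∀ᶠ m in atTop, p ∉ s m) (y : L2 ι) :
    Tendsto (fun i => ‖proj (s i) y‖) atTop (𝓝 0) := by
  have h1 : Tendsto (fun i : ℕ => ∑' p : ι, if p ∈ s i then ‖y p‖ ^ 2 else 0) atTop
      (𝓝 (∑' _ : ι, (0 : ℝ))) := by
    refine tendsto_tsum_of_dominated_convergence (bound := fun p => ‖y p‖ ^ 2) (l2_summable y)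
      (fun p => ?_) (Eventually.of_forall fun i p => ?_)
    · refine tendsto_const_nhds.congr' ?_
      filter_upwards [hs p] with i hi
      rw [if_neg hi]
    · split_ifs
      · rw [Real.norm_of_nonneg (by positivity)]
      · rw [norm_zero]
        positivity
  rw [tsum_zero] at h1
  have h2 : ∀ i, ‖proj (s i) y‖ = Real.sqrt (∑' p : ι, if p ∈ s i then ‖y p‖ ^ 2 else 0) := by
    intro i
    rw [← proj_norm_sq, Real.sqrt_sq (norm_nonneg _)]
  have h4 : Tendsto (fun i : ℕ =>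
      Real.sqrt (∑' p : ι, if p ∈ s i then ‖y p‖ ^ 2 else 0)) atTop (𝓝 (Real.sqrt 0)) :=
    (Real.continuous_sqrt.tendsto 0).comp h1
  rw [Real.sqrt_zero] at h4
  exact h4.congr fun i => (h2 i).symm

/-- First part. -/
theorem left {ι : Type} (s : ℕ → Set ι) (hs : ∀ p, ∀ᶠ m in atTop, p ∉ s m)
    (T : L2 ι →L[ℂ] L2 ι) (hT : IsCompactOperator T) :
    Tendsto (fun m => ‖proj (s m) * T‖) atTop (𝓝 0) := by
  rw [Metric.tendsto_atTop]
  intro ε hε
  obtain ⟨K, hK, hTK⟩ := hT.image_closedBall_subset_compact 1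
  obtain ⟨t, -, htf, hcov⟩ := hK.finite_cover_balls (show 0 < ε / 4 by linarith)
  have h1 : ∀ᶠ i in atTop, ∀ y ∈ t, ‖proj (s i) y‖ < ε / 4 := by
    rw [eventually_all_finite htf]
    intro y _
    exact (vec s hs y).eventually_lt_const (by linarith)
  obtain ⟨n0, hn0⟩ := eventually_atTop.1 h1
  refine ⟨n0, fun i hi => ?_⟩
  have h2 : ‖proj (s i) * T‖ ≤ ε / 2 := by
    refine ContinuousLinearMap.opNorm_le_of_unit_norm (by linarith) fun x hx => ?_
    have h3 : T x ∈ K := hTK ⟨x, by simp [hx], rfl⟩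
    obtain ⟨y, hy, hyx⟩ := Set.mem_iUnion₂.1 (hcov h3)
    rw [Metric.mem_ball, dist_eq_norm] at hyx
    have h4 : (proj (s i) * T) x = proj (s i) (T x - y) + proj (s i) y := by
      rw [map_sub]
      simp
    rw [h4]
    have h5 : ‖proj (s i) (T x - y)‖ ≤ 1 * ‖T x - y‖ :=
      (proj (s i)).le_of_opNorm_le (proj_norm_le (s i)) _
    have h6 := hn0 i hi y hy
    have h7 := norm_add_le (proj (s i) (T x - y)) (proj (s i) y)
    linarith
  rw [Real.dist_eq, sub_zero, abs_of_nonneg (norm_nonneg _)]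
  linarith

end IGCQ

open IGCQ

/-- **GCQ.** -/
theorem pr_GCQ : St_GCQ := by
  intro ι s hs K hK
  refine ⟨left s hs K hK, ?_⟩
  refine (left s hs _ (adj_compact K hK)).congr fun m => ?_
  have h1 : ContinuousLinearMap.adjoint (K ∘L proj (s m)) =
      proj (s m) ∘L ContinuousLinearMap.adjoint K := by
    rw [ContinuousLinearMap.adjoint_comp, adj_proj]
  have h2 : ‖ContinuousLinearMap.adjoint (K ∘L proj (s m))‖ = ‖K ∘L proj (s m)‖ :=
    LinearIsometryEquiv.norm_map _ _
  calc ‖proj (s m) * ContinuousLinearMap.adjoint K‖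
      = ‖ContinuousLinearMap.adjoint (K ∘L proj (s m))‖ := by rw [h1]; rfl
    _ = ‖K ∘L proj (s m)‖ := h2

end

end Pool.Agent.Work.MP_1ddc88_an.GR
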