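import Pool.Agent.Work.MP_1ddc88_an.GR.Stmts

/-!
# MP_1ddc88_an, block GR, item GFP: sums and products of operators of finite propagation
-/

set_option autoImplicit false

open Filter Topology
open scoped ENNReal Classical

namespace Pool.Agent.Work.MP_1ddc88_an.GR

open TL

theorem pr_GFP : St_GFP := by
  intro Y d hd R R' S S' hS hT
  refine ⟨?_, ?_, ?_, ?_, ?_⟩
  · intro ξ p hp
    have h2 : (S * S') ξ p = S (S' ξ) p := rfl
    rw [h2] at hp
    obtain ⟨q, hq, hd1⟩ := hS _ p hp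
    obtain ⟨r, hr, hd2⟩ := hT _ q hq
    refine ⟨r, hr, ?_⟩
    exact (hd.1 p.1 q.1 r.1).2.2.2.trans (add_le_add hd1 hd2)
  · intro ξ p hp
    have h2 : (S + S') ξ p = S ξ p + S' ξ p := rfl
    rw [h2] at hp
    by_cases h3 : S ξ p = 0
    · rw [h3, zero_add] at hp
      obtain ⟨q, hq, hd⟩ := hT _ p hp
      exact ⟨q, hq, hd.trans (le_max_right _ _)⟩
    · obtain ⟨q, hq, hd⟩ := hS _ p h3
      exact ⟨q, hq, hd.trans (le_max_left _ _)⟩
  · intro ξ p hp
    have h2 : (S - S') ξ p = S ξ p - S' ξ p := rfl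
    rw [h2] at hp
    by_cases h3 : S ξ p = 0
    · rw [h3, zero_sub, neg_ne_zero] at hp
      obtain ⟨q, hq, hd⟩ := hT _ p hp
      exact ⟨q, hq, hd.trans (le_max_right _ _)⟩
    · obtain ⟨q, hq, hd⟩ := hS _ p h3
      exact ⟨q, hq, hd.trans (le_max_left _ _)⟩
  · intro c ξ p hp
    have h2 : (c • S) ξ p = c * S ξ p := rfl
    rw [h2] at hp
    exact hS ξ p (right_ne_zero_of_mul hp)
  · intro s ξ p hp
    rw [proj_apply] at hp
    refine ⟨p, ?_, (hd.1 p.1 p.1 p.1).1.le⟩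
    intro h0
    apply hp
    rw [h0]
    split_ifs <;> rfl

end Pool.Agent.Work.MP_1ddc88_an.GR

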