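import Pool.Agent.Work.MP_1ddc88_an.GR.Stmts

/-!
# MP_1ddc88_an, block GR, item GLC: products with operators of finite propagation
-/

set_option autoImplicit false

open Filter Topology
open scoped ENNReal Classical

namespace Pool.Agent.Work.MP_1ddc88_an.GR

open TL

noncomputable section

namespace IGLC

theorem proj_insert {Y : Type} (F : Finset Y) (w : Y) (hw : w ∉ F) :
    proj {p : Y × ℕ | p.1 ∈ insert w F} = proj (cellY w) + proj {p : Y × ℕ | p.1 ∈ F} := by
  have h : ({p : Y × ℕ | p.1 ∈ insert w F}) = cellY w ∪ {p : Y × ℕ | p.1 ∈ F} := by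
    ext p
    simp [cellY]
  have hd : Disjoint (cellY w) {p : Y × ℕ | p.1 ∈ F} := by
    rw [Set.disjoint_left]
    intro p hp hp'
    have h1 : p.1 = w := hp
    have h2 : p.1 ∈ F := hp'
    rw [h1] at h2
    exact hw h2
  rw [h, proj_union _ _ hd]

theorem proj_none {Y : Type} : proj {p : Y × ℕ | p.1 ∈ (∅ : Finset Y)} = 0 := by
  have h : ({p : Y × ℕ | p.1 ∈ (∅ : Finset Y)}) = ∅ := by
    ext p
    simp
  rw [h, proj_empty]

theorem fin_left {Y : Type} (B : OpY Y) (hB : LCo B) (F : Finset Y) :
    IsCompactOperator (proj {p : Y × ℕ | p.1 ∈ F} ∘L B) := by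
  induction F using Finset.induction_on with
  | empty =>
    rw [proj_none, ContinuousLinearMap.zero_comp]
    exact isCompactOperator_zero
  | insert w F hw ih =>
    rw [proj_insert F w hw, ContinuousLinearMap.add_comp]
    exact (hB w).2.add ih

theorem fin_right {Y : Type} (B : OpY Y) (hB : LCo B) (F : Finset Y) :
    IsCompactOperator (B ∘L proj {p : Y × ℕ | p.1 ∈ F}) := by
  induction F using Finset.induction_on with
  | empty =>
    rw [proj_none, ContinuousLinearMap.comp_zero]
    exact isCompactOperator_zero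
  | insert w F hw ih =>
    rw [proj_insert F w hw, ContinuousLinearMap.comp_add]
    exact (hB w).1.add ih

end IGLC

theorem pr_GLC : St_GLC := by
  intro Y d hbg R A B hA hB
  refine ⟨?_, fun F => IGLC.fin_right B hB F⟩
  intro z
  constructor
  · have h := (hB z).1.clm_comp A
    exact h
  · obtain ⟨N, hN⟩ := hbg.2 R
    have hfin : {w | d z w ≤ R}.Finite := (hN z).1
    have key : proj (cellY z) ∘L (A * B) =
        (proj (cellY z) ∘L A) ∘L (proj {p : Y × ℕ | p.1 ∈ hfin.toFinset} ∘L B) := by
      apply op_ext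
      intro ξ p
      show proj (cellY z) (A (B ξ)) p =
        proj (cellY z) (A (proj {p : Y × ℕ | p.1 ∈ hfin.toFinset} (B ξ))) p
      rw [proj_apply, proj_apply]
      by_cases hp : p ∈ cellY z
      · rw [if_pos hp, if_pos hp]
        have hp' : p.1 = z := hp
        by_contra hne
        have hsub : A (B ξ - proj {p : Y × ℕ | p.1 ∈ hfin.toFinset} (B ξ)) p ≠ 0 := by
          rw [map_sub]
          show (A (B ξ) p - A (proj {p : Y × ℕ | p.1 ∈ hfin.toFinset} (B ξ)) p) ≠ 0
          exact sub_ne_zero.mpr hne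
        obtain ⟨q, hq, hd⟩ := hA _ p hsub
        apply hq
        show (B ξ q - proj {p : Y × ℕ | p.1 ∈ hfin.toFinset} (B ξ) q) = 0
        rw [proj_apply, if_pos, sub_self]
        show q.1 ∈ hfin.toFinset
        rw [Set.Finite.mem_toFinset]
        show d z q.1 ≤ R
        rw [← hp']
        exact hd
      · rw [if_neg hp, if_neg hp]
    have h := (IGLC.fin_left B hB hfin.toFinset).clm_comp (proj (cellY z) ∘L A)
    show IsCompactOperator (proj (cellY z) ∘L (A * B))
    rw [key]
    exact h

end

end Pool.Agent.Work.MP_1ddc88_an.GR
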