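import Pool.Agent.Work.MP_1ddc88_an.GR.StmtsA

/-!
# MP_1ddc88_an, block GR, item KerF: a kernel vector, several root coordinates
-/

set_option autoImplicit false

open Filter Topology
open scoped ENNReal Classical

namespace Pool.Agent.Work.MP_1ddc88_an.GR

open TL

noncomputable section

namespace IKerF

variable {ι : Type}

/-- the value of the component `a` at `p` -/
def ev (n : ℕ) (a : Fin n) (p : ι) : (Fin n → L2 ι) →ₗ[ℂ] ℂ where
  toFun v := v a p
  map_add' _ _ := rfl
  map_smul' _ _ := rfl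

/-- the unit vector -/
def del (p : ι) : L2 ι := lp.single 2 p (1 : ℂ)

theorem del_self (p : ι) : del p p = 1 := lp.single_apply_self _ _ _

theorem del_ne {p q : ι} (h : q ≠ p) : del p q = 0 := lp.single_apply_ne _ _ _ h

theorem del_ite (p q : ι) : del p q = if p = q then 1 else 0 := by
  by_cases h : p = q
  · rw [if_pos h, ← h, del_self]
  · rw [if_neg h, del_ne (fun c => h c.symm)]

variable (F P : Set ι) (N : ℕ)

/-- the basis vectors of the space of the vectors `v` -/
def e : P ⊕ (Fin N × F) → Fin (N + 1) → L2 ι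
  | .inl p => Pi.single 0 (del (p : ι))
  | .inr (a, p) => Pi.single a.succ (del (p : ι))

theorem e_zero_inl (x : P) (q : ι) : e F P N (.inl x) 0 q = if (x : ι) = q then 1 else 0 := by
  show (Pi.single 0 (del (x : ι)) : Fin (N + 1) → L2 ι) 0 q = _
  rw [Pi.single_eq_same, del_ite]

theorem e_zero_inr (x : Fin N × F) (q : ι) : e F P N (.inr x) 0 q = 0 := by
  have h : (0 : Fin (N + 1)) ≠ x.1.succ := (Fin.succ_ne_zero x.1).symm
  show (Pi.single x.1.succ (del (x.2 : ι)) : Fin (N + 1) → L2 ι) 0 q = 0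
  rw [Pi.single_eq_of_ne h]
  rfl

theorem e_succ_inl (a : Fin N) (x : P) (q : ι) : e F P N (.inl x) a.succ q = 0 := by
  show (Pi.single 0 (del (x : ι)) : Fin (N + 1) → L2 ι) a.succ q = 0
  rw [Pi.single_eq_of_ne (Fin.succ_ne_zero a)]
  rfl

theorem e_succ_inr (a : Fin N) (x : Fin N × F) (q : ι) :
    e F P N (.inr x) a.succ q = if x.1 = a ∧ (x.2 : ι) = q then 1 else 0 := by
  show (Pi.single x.1.succ (del (x.2 : ι)) : Fin (N + 1) → L2 ι) a.succ q = _
  by_cases h : x.1 = a
  · rw [h, Pi.single_eq_same, del_ite]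
    by_cases h' : (x.2 : ι) = q
    · rw [if_pos h', if_pos ⟨rfl, h'⟩]
    · rw [if_neg h', if_neg (fun c => h' c.2)]
  · rw [if_neg (fun c => h c.1), Pi.single_eq_of_ne (fun c => h (Fin.succ_injective _ c).symm)]
    rfl

end IKerF

open IKerF in
theorem pr_KerF : St_KerF := by
  intro ι F P Q N L hF hP hQ hcard
  have : Fintype F := hF.fintype
  have : Fintype P := hP.fintype
  have : Fintype Q := hQ.fintype
  let vec : (P ⊕ (Fin N × F) → ℂ) →ₗ[ℂ] (Fin (N + 1) → L2 ι) :=
    Fintype.linearCombination ℂ (e F P N)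
  have hvec : ∀ (w : P ⊕ (Fin N × F) → ℂ) (a : Fin (N + 1)) (q : ι),
      vec w a q = (∑ x : P, w (.inl x) * e F P N (.inl x) a q) +
        ∑ x : Fin N × F, w (.inr x) * e F P N (.inr x) a q := by
    intro w a q
    have h1 : vec w a q = ev (N + 1) a q (∑ j, w j • e F P N j) := rfl
    rw [h1, map_sum, Fintype.sum_sum_type]
    rfl
  have hv0 : ∀ (w : P ⊕ (Fin N × F) → ℂ) (q : ι),
      vec w 0 q = ∑ x : P, w (.inl x) * if (x : ι) = q then 1 else 0 := by
    intro w q
    rw [hvec]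
    have h2 : (∑ x : Fin N × F, w (.inr x) * e F P N (.inr x) 0 q) = 0 :=
      Finset.sum_eq_zero fun x _ => by rw [e_zero_inr, mul_zero]
    rw [h2, add_zero]
    exact Finset.sum_congr rfl fun x _ => by rw [e_zero_inl]
  have hv0' : ∀ (w : P ⊕ (Fin N × F) → ℂ) (x : P), vec w 0 (x : ι) = w (.inl x) := by
    intro w x
    rw [hv0, Finset.sum_eq_single x]
    · rw [if_pos rfl, mul_one]
    · intro y _ hy
      rw [if_neg (fun h => hy (Subtype.ext h)), mul_zero]
    · intro h
      exact absurd (Finset.mem_univ x) h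
  have hvs : ∀ (w : P ⊕ (Fin N × F) → ℂ) (a : Fin N) (q : ι),
      vec w a.succ q = ∑ x : Fin N × F, w (.inr x) * if x.1 = a ∧ (x.2 : ι) = q then 1 else 0 := by
    intro w a q
    rw [hvec]
    have h2 : (∑ x : P, w (.inl x) * e F P N (.inl x) a.succ q) = 0 :=
      Finset.sum_eq_zero fun x _ => by rw [e_succ_inl, mul_zero]
    rw [h2, zero_add]
    exact Finset.sum_congr rfl fun x _ => by rw [e_succ_inr]
  have hvs' : ∀ (w : P ⊕ (Fin N × F) → ℂ) (x : Fin N × F),
      vec w x.1.succ (x.2 : ι) = w (.inr x) := by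
    intro w x
    rw [hvs, Finset.sum_eq_single x]
    · rw [if_pos ⟨rfl, rfl⟩, mul_one]
    · intro y _ hy
      rw [if_neg, mul_zero]
      rintro ⟨h1, h2⟩
      exact hy (Prod.ext h1 (Subtype.ext h2))
    · intro h
      exact absurd (Finset.mem_univ x) h
  let M : (P ⊕ (Fin N × F) → ℂ) →ₗ[ℂ] (Q ⊕ (Fin N × F) → ℂ) :=
    LinearMap.pi (Sum.elim (fun x : Q => (ev (N + 1) 0 (x : ι)) ∘ₗ (L ∘ₗ vec))
      (fun x : Fin N × F => (ev (N + 1) x.1.succ (x.2 : ι)) ∘ₗ (L ∘ₗ vec)))
  have hPc : Fintype.card P = P.ncard := by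
    rw [← Nat.card_eq_fintype_card]
    rfl
  have hQc : Fintype.card Q = Q.ncard := by
    rw [← Nat.card_eq_fintype_card]
    rfl
  have hlt : Module.finrank ℂ (Q ⊕ (Fin N × F) → ℂ) <
      Module.finrank ℂ (P ⊕ (Fin N × F) → ℂ) := by
    rw [Module.finrank_fintype_fun_eq_card, Module.finrank_fintype_fun_eq_card, Fintype.card_sum,
      Fintype.card_sum, hPc, hQc]
    omega
  obtain ⟨w, hw, hw0⟩ := (Submodule.ne_bot_iff _).mp (LinearMap.ker_ne_bot_of_finrank_lt (f := M) hlt)
  have hMw : M w = 0 := hw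
  refine ⟨vec w, ?_, ?_, ?_, ?_, ?_⟩
  · intro h0
    apply hw0
    funext j
    rcases j with u | x
    · have h1 := hv0' w u
      rw [h0] at h1
      exact h1.symm
    · have h1 := hvs' w x
      rw [h0] at h1
      exact h1.symm
  · intro p hp
    by_contra hne
    apply hp
    rw [hv0]
    refine Finset.sum_eq_zero fun x _ => ?_
    rw [if_neg, mul_zero]
    intro h
    exact hne (h ▸ x.2)
  · intro a ha p hp
    obtain ⟨b, rfl⟩ := Fin.exists_succ_eq.mpr ha
    by_contra hpF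
    apply hp
    rw [hvs]
    refine Finset.sum_eq_zero fun x _ => ?_
    rw [if_neg, mul_zero]
    rintro ⟨_, h2⟩
    exact hpF (h2 ▸ x.2.2)
  · intro p hp
    exact congrFun hMw (Sum.inl ⟨p, hp⟩)
  · intro a ha p hp
    obtain ⟨b, rfl⟩ := Fin.exists_succ_eq.mpr ha
    exact congrFun hMw (Sum.inr (b, ⟨p, hp⟩))

end

end Pool.Agent.Work.MP_1ddc88_an.GR
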