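import Pool.Agent.Work.MP_1ddc88_an.GR.StmtsA

/-!
# MP_1ddc88_an, block GR, item Slc
-/

set_option autoImplicit false

open Filter Topology
open scoped ENNReal Classical

namespace Pool.Agent.Work.MP_1ddc88_an.GR

open TL

noncomputable section

namespace ISlc

/-- The kernel of `slc`. -/
def ker (Y : Type) (k : ℕ) (p q : Y × ℕ) : ℂ :=
  if p.2 = 0 ∧ q.2 = k ∧ p.1 = q.1 then 1 else 0

theorem row (Y : Type) (k : ℕ) (p : Y × ℕ) :
    HasSum (fun q => ‖ker Y k p q‖) (if p.2 = 0 then 1 else 0) := by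
  have h := hasSum_single (f := fun q => ‖ker Y k p q‖) (p.1, k) (by
    intro q hq
    unfold ker
    rw [if_neg, norm_zero]
    rintro ⟨-, h2, h3⟩
    exact hq (Prod.ext h3.symm h2))
  have h0 : ‖ker Y k p (p.1, k)‖ = if p.2 = 0 then 1 else 0 := by
    unfold ker
    by_cases hp : p.2 = 0
    · simp [hp]
    · simp [hp]
  rw [h0] at h
  exact h

theorem col (Y : Type) (k : ℕ) (q : Y × ℕ) :
    HasSum (fun p => ‖ker Y k p q‖) (if q.2 = k then 1 else 0) := by
  have h := hasSum_single (f := fun p => ‖ker Y k p q‖) (q.1, 0) (by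
    intro p hp
    unfold ker
    rw [if_neg, norm_zero]
    rintro ⟨h1, -, h3⟩
    exact hp (Prod.ext h3 h1))
  have h0 : ‖ker Y k (q.1, 0) q‖ = if q.2 = k then 1 else 0 := by
    unfold ker
    by_cases hq : q.2 = k
    · simp [hq]
    · simp [hq]
  rw [h0] at h
  exact h

theorem markov (Y : Type) (k : ℕ) : IsMarkov (ker Y k) := by
  constructor
  · intro p
    refine ⟨(row Y k p).summable, ?_⟩
    rw [(row Y k p).tsum_eq]
    split_ifs <;> norm_num
  · intro q
    refine ⟨(col Y k q).summable, ?_⟩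
    rw [(col Y k q).tsum_eq]
    split_ifs <;> norm_num

end ISlc

theorem pr_Slc : St_Slc := by
  intro Y k ξ y j
  have h : slc Y k ξ (y, j) = ∑' q, ISlc.ker Y k (y, j) q * ξ q :=
    kerOp_apply (ISlc.markov Y k) ξ (y, j)
  rw [h, tsum_eq_single (y, k) ?_]
  · unfold ISlc.ker
    by_cases hj : j = 0
    · simp [hj]
    · simp [hj]
  · intro q hq
    unfold ISlc.ker
    rw [if_neg, zero_mul]
    rintro ⟨-, h2, h3⟩
    exact hq (Prod.ext h3.symm h2)

end

end Pool.Agent.Work.MP_1ddc88_an.GR
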