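import Pool.Agent.Work.MP_1ddc88_an.GR.Stmts

/-!
# MP_1ddc88_an, block GR, item YA: the averaging operator on the space of graphs
-/

set_option autoImplicit false

open Filter Topology
open scoped ENNReal Classical

namespace Pool.Agent.Work.MP_1ddc88_an.GR

open TL

noncomputable section

namespace IYA

/-- the points over `Y` -/
def sY (T : Tower) : Set (Ix T.X) := {q | q.1.1.1 ≤ q.1.2 + 1}

theorem VV {T : Tower} (E : Emb T) (ξ : Hs T.X) : E.V (E.V' ξ) = proj (sY T) ξ := by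
  ext q
  rw [proj_apply]
  by_cases h : q.1.1.1 ≤ q.1.2 + 1
  · rw [if_pos (show q ∈ sY T from h)]
    have h1 := E.V_in (E.V' ξ) ⟨q.1, h⟩ q.2
    have h2 := E.V'_apply ξ ⟨q.1, h⟩ q.2
    exact h1.trans h2
  · rw [if_neg (show ¬ q ∈ sY T from h)]
    exact E.V_out _ q h

theorem VpV {T : Tower} (E : Emb T) (ξ : HY (Yt T)) : E.V' (E.V ξ) = ξ := by
  ext ⟨y, k⟩
  rw [E.V'_apply, E.V_in]

theorem projV {T : Tower} (E : Emb T) (ξ : HY (Yt T)) : proj (sY T) (E.V ξ) = E.V ξ := by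
  rw [← VV, VpV]

theorem proj_sY {T : Tower} (ξ : Hs T.X) (i : ℕ) (w : Fin (T.X.N i)) (m k : ℕ) :
    proj (sY T) ξ ((⟨i, w⟩, m), k) = if i ≤ m + 1 then ξ ((⟨i, w⟩, m), k) else 0 := by
  rw [proj_apply]
  by_cases h : i ≤ m + 1
  · rw [if_pos h, if_pos (show (((⟨i, w⟩, m), k) : Ix T.X) ∈ sY T from h)]
  · rw [if_neg h, if_neg (show ¬ (((⟨i, w⟩, m), k) : Ix T.X) ∈ sY T from h)]

theorem commA (h3 : St_AF) (T : Tower) :
    kerOp (kA T.X) * proj (sY T) = proj (sY T) * kerOp (kA T.X) := by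
  apply op_ext
  rintro ξ ⟨⟨⟨i, v⟩, m⟩, k⟩
  show kerOp (kA T.X) (proj (sY T) ξ) ((⟨i, v⟩, m), k) =
    proj (sY T) (kerOp (kA T.X) ξ) ((⟨i, v⟩, m), k)
  rw [proj_sY, (h3 T.X).2, (h3 T.X).2]
  by_cases h : i ≤ m + 1
  · simp only [proj_sY, if_pos h]
  · simp only [proj_sY, if_neg h]
    simp

theorem commP (h1 : St_PavF) (T : Tower) :
    Pav T.X * proj (sY T) = proj (sY T) * Pav T.X := by
  apply op_ext
  rintro ξ ⟨⟨⟨i, v⟩, m⟩, k⟩
  show Pav T.X (proj (sY T) ξ) ((⟨i, v⟩, m), k) =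
    proj (sY T) (Pav T.X ξ) ((⟨i, v⟩, m), k)
  rw [proj_sY, (h1 T.X).2, (h1 T.X).2]
  by_cases h : i ≤ m + 1
  · simp only [proj_sY, if_pos h]
  · simp only [proj_sY, if_neg h]
    simp

theorem cmp_apply {T : Tower} (E : Emb T) (B : Op T.X) (ξ : HY (Yt T)) :
    cmp E B ξ = E.V' (B (E.V ξ)) := rfl

theorem cmp_mul {T : Tower} (E : Emb T) (B C : Op T.X)
    (hC : C * proj (sY T) = proj (sY T) * C) : cmp E B * cmp E C = cmp E (B * C) := by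
  apply op_ext
  intro ξ p
  have hC' : ∀ η, C (proj (sY T) η) = proj (sY T) (C η) := fun η =>
    congrArg (fun D : Op T.X => D η) hC
  have e : (cmp E B * cmp E C) ξ = cmp E (B * C) ξ := by
    show cmp E B (cmp E C ξ) = cmp E (B * C) ξ
    rw [cmp_apply, cmp_apply, cmp_apply, VV, ← hC', projV]
    rfl
  rw [e]

theorem cmp_norm {T : Tower} (E : Emb T) (B : Op T.X) : ‖cmp E B‖ ≤ ‖B‖ := by
  unfold cmp
  calc ‖(E.V' ∘L B) ∘L E.V‖ ≤ ‖E.V' ∘L B‖ * ‖E.V‖ := ContinuousLinearMap.opNorm_comp_le _ _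
    _ ≤ (‖E.V'‖ * ‖B‖) * ‖E.V‖ :=
        mul_le_mul_of_nonneg_right (ContinuousLinearMap.opNorm_comp_le _ _) (norm_nonneg _)
    _ ≤ (1 * ‖B‖) * 1 := by
        apply mul_le_mul _ E.V_norm (norm_nonneg _) (by positivity)
        exact mul_le_mul_of_nonneg_right E.V'_norm (norm_nonneg _)
    _ = ‖B‖ := by ring

theorem cmp_sub {T : Tower} (E : Emb T) (B C : Op T.X) : cmp E B - cmp E C = cmp E (B - C) := by
  apply op_ext
  intro ξ p
  have e : (cmp E B - cmp E C) ξ = cmp E (B - C) ξ := by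
    show cmp E B ξ - cmp E C ξ = cmp E (B - C) ξ
    rw [cmp_apply, cmp_apply, cmp_apply, ← map_sub]
    rfl
  rw [e]

/-- the projection onto one coordinate is compact -/
theorem proj_single_compact {ι : Type} (a : ι) : IsCompactOperator (proj ({a} : Set ι)) := by
  let T1 : L2 ι →L[ℂ] ℂ := lp.evalCLM ℂ (fun _ : ι => ℂ) 2 a
  let T2 : ℂ →L[ℂ] L2 ι := ContinuousLinearMap.toSpanSingleton ℂ (lp.single 2 a (1 : ℂ))
  have h : proj ({a} : Set ι) = T2 ∘L T1 := by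
    apply op_ext
    intro ξ p
    rw [proj_apply]
    have e : (T2 ∘L T1) ξ p = ξ a * (lp.single 2 a (1 : ℂ) : L2 ι) p := rfl
    rw [e]
    by_cases hp : p = a
    · subst hp
      rw [lp.single_apply_self, mul_one, if_pos (Set.mem_singleton p)]
    · rw [lp.single_apply_ne _ _ _ hp, mul_zero, if_neg (by simpa using hp)]
  have h1 : IsCompactOperator T1 := isCompactOperator_of_locallyCompactSpace_dom T1
  rw [h]
  exact h1.clm_comp T2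

theorem A_right (h3 : St_AF) {T : Tower} (E : Emb T) :
    AY E = AY E * proj {p : Yt T × ℕ | p.2 = 0} := by
  apply op_ext
  rintro ξ ⟨⟨⟨⟨i, v⟩, m⟩, h⟩, k⟩
  show cmp E (kerOp (kA T.X)) ξ _ =
    cmp E (kerOp (kA T.X)) (proj {p : Yt T × ℕ | p.2 = 0} ξ) _
  rw [cmp_apply, cmp_apply, E.V'_apply, E.V'_apply]
  show kerOp (kA T.X) (E.V ξ) ((⟨i, v⟩, m), k) =
    kerOp (kA T.X) (E.V (proj {p : Yt T × ℕ | p.2 = 0} ξ)) ((⟨i, v⟩, m), k)
  rw [(h3 T.X).2, (h3 T.X).2]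
  have e : ∀ w : Fin (T.X.N i), E.V (proj {p : Yt T × ℕ | p.2 = 0} ξ) ((⟨i, w⟩, m), 0) =
      E.V ξ ((⟨i, w⟩, m), 0) := by
    intro w
    have e1 := E.V_in (proj {p : Yt T × ℕ | p.2 = 0} ξ) ⟨(⟨i, w⟩, m), h⟩ 0
    have e2 := E.V_in ξ ⟨(⟨i, w⟩, m), h⟩ 0
    rw [proj_apply, if_pos (show ((⟨(⟨i, w⟩, m), h⟩ : Yt T), 0) ∈ {p : Yt T × ℕ | p.2 = 0} from rfl)]
      at e1
    exact e1.trans e2.symm
  simp only [e]

theorem A_left (h3 : St_AF) {T : Tower} (E : Emb T) :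
    AY E = proj {p : Yt T × ℕ | p.2 = 0} * AY E := by
  apply op_ext
  rintro ξ ⟨⟨⟨⟨i, v⟩, m⟩, h⟩, k⟩
  show AY E ξ _ = proj {p : Yt T × ℕ | p.2 = 0} (AY E ξ) _
  rw [proj_apply]
  by_cases hk : k = 0
  · rw [if_pos (show ((⟨(⟨i, v⟩, m), h⟩ : Yt T), k) ∈ {p : Yt T × ℕ | p.2 = 0} from hk)]
  · rw [if_neg (show ¬ ((⟨(⟨i, v⟩, m), h⟩ : Yt T), k) ∈ {p : Yt T × ℕ | p.2 = 0} from hk)]
    show cmp E (kerOp (kA T.X)) ξ _ = 0
    rw [cmp_apply, E.V'_apply]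
    show kerOp (kA T.X) (E.V ξ) ((⟨i, v⟩, m), k) = 0
    rw [(h3 T.X).2, if_neg hk]

theorem cell_inter {Y : Type} (z : Y) : cellY z ∩ {p : Y × ℕ | p.2 = 0} = {(z, 0)} := by
  ext p
  constructor
  · rintro ⟨h1, h2⟩
    exact Prod.ext h1 h2
  · intro h
    have h' : p = (z, 0) := h
    subst h'
    exact ⟨rfl, rfl⟩

end IYA

theorem pr_YA (h1 : St_PavF) (h2 : St_ShP) (h3 : St_AF) (h4 : St_AP) (h5 : St_AN) : St_YA := by
  intro T E
  obtain ⟨-, -, hAP, hPA⟩ := h4 T.X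
  refine ⟨fun z => ⟨?_, ?_⟩, ?_, ?_, ?_, ?_⟩
  · have e1 : AY E * proj (cellY z) = AY E * proj {((z, 0) : Yt T × ℕ)} := by
      conv_lhs => rw [IYA.A_right h3 E]
      rw [mul_assoc, proj_mul, Set.inter_comm, IYA.cell_inter]
    rw [e1]
    exact (IYA.proj_single_compact ((z, 0) : Yt T × ℕ)).clm_comp (AY E)
  · have e1 : proj (cellY z) * AY E = proj {((z, 0) : Yt T × ℕ)} * AY E := by
      conv_lhs => rw [IYA.A_left h3 E]
      rw [← mul_assoc, proj_mul, IYA.cell_inter]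
    rw [e1]
    exact (IYA.proj_single_compact ((z, 0) : Yt T × ℕ)).comp_clm (AY E)
  · show cmp E (kerOp (kA T.X)) * cmp E (Pav T.X) = cmp E (Pav T.X)
    rw [IYA.cmp_mul E _ _ (IYA.commP h1 T), hAP]
  · show cmp E (Pav T.X) * cmp E (kerOp (kA T.X)) = cmp E (Pav T.X)
    rw [IYA.cmp_mul E _ _ (IYA.commA h3 T), hPA]
  · show cmp E (Pav T.X) * cmp E (Pav T.X) = cmp E (Pav T.X)
    rw [IYA.cmp_mul E _ _ (IYA.commP h1 T), (h2 T.X).1]
  · obtain ⟨lam, l1, l2, l3⟩ := h5 T.X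
    refine ⟨lam, l1, l2, ?_⟩
    show ‖cmp E (kerOp (kA T.X)) - cmp E (Pav T.X)‖ ≤ lam
    rw [IYA.cmp_sub]
    exact (IYA.cmp_norm E _).trans l3

end

end Pool.Agent.Work.MP_1ddc88_an.GR
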