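import Pool.Agent.Work.MP_1ddc88_an.GR.Stmts

/-!
# MP_1ddc88_an, block GR, item YComm: operators over the space of graphs almost commute with the graphs
-/

set_option autoImplicit false

open Filter Topology
open scoped ENNReal Classical

namespace Pool.Agent.Work.MP_1ddc88_an.GR

open TL

namespace IYComm

theorem Qc_apply (T : Tower) (n : ℕ) (ξ : HY (Yt T)) (p : Yt T × ℕ) :
    Qc T n ξ p = if p.1.1.2 = n then ξ p else 0 := by
  unfold Qc
  rw [proj_apply]
  by_cases h : p.1.1.2 = n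
  · rw [if_pos (show p ∈ {p : Yt T × ℕ | p.1.1.2 = n} from h), if_pos h]
  · rw [if_neg (show ¬ p ∈ {p : Yt T × ℕ | p.1.1.2 = n} from h), if_neg h]

theorem Qc_idem (T : Tower) (n : ℕ) : Qc T n * Qc T n = Qc T n := proj_idem _

theorem norm_compl (T : Tower) (n : ℕ) : ‖1 - Qc T n‖ ≤ 1 := by
  unfold Qc
  rw [one_sub_proj]
  exact proj_norm_le _

theorem dY_gt (T : Tower) (z w : Yt T) (h : z.1.2 ≠ w.1.2) : w.1.2 < dY T z w := by
  unfold dY
  rw [if_neg h]
  omega

/-- an operator of finite propagation respects the far graphs -/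
theorem block (T : Tower) (R : ℕ) (S : OpY (Yt T)) (hS : FP (dY T) R S) (n : ℕ) (hn : R < n) :
    (1 - Qc T n) * S * Qc T n = 0 := by
  apply op_ext
  intro ξ p
  have h1 : ((1 - Qc T n) * S * Qc T n) ξ p = S (Qc T n ξ) p - Qc T n (S (Qc T n ξ)) p := by
    simp [sub_mul]
  rw [h1, Qc_apply]
  have h0 : (0 : OpY (Yt T)) ξ p = 0 := by simp
  rw [h0]
  by_cases hp : p.1.1.2 = n
  · rw [if_pos hp, sub_self]
  · rw [if_neg hp, sub_zero]
    by_contra hne
    obtain ⟨q, hq, hd⟩ := hS (Qc T n ξ) p hne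
    rw [Qc_apply] at hq
    have hqi : q.1.1.2 = n := by
      by_contra h
      rw [if_neg h] at hq
      exact hq rfl
    have h2 := dY_gt T p.1 q.1 (by rw [hqi]; exact hp)
    rw [hqi] at h2
    omega

theorem ring_aux {A : Type*} [Ring A] (a b t c s : A) (h1 : a * c * b = 0)
    (h2 : a * s * b = 0) : a * t * b = a * (t - c - s) * b := by
  rw [mul_sub a (t - c) s, mul_sub a t c, sub_mul, sub_mul, h1, h2, sub_zero, sub_zero]

theorem split (T : Tower) (n : ℕ) (c : ℂ) (B S : OpY (Yt T))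
    (h : (1 - Qc T n) * S * Qc T n = 0) :
    (1 - Qc T n) * B * Qc T n = (1 - Qc T n) * (B - c • (1 : OpY (Yt T)) - S) * Qc T n := by
  have h1 : (1 - Qc T n) * (c • (1 : OpY (Yt T))) * Qc T n = 0 := by
    rw [mul_smul_comm, smul_mul_assoc, mul_one, sub_mul, one_mul, Qc_idem, sub_self, smul_zero]
  exact ring_aux _ _ _ _ _ h1 h

end IYComm

open IYComm in
theorem pr_YComm : St_YComm := by
  intro T B hB
  obtain ⟨c, hc⟩ := hB
  rw [Metric.tendsto_atTop]
  intro ε hε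
  obtain ⟨S, ⟨⟨R, hR⟩, -⟩, hS⟩ := Metric.mem_closure_iff.1 hc ε hε
  refine ⟨R + 1, fun n hn => ?_⟩
  rw [Real.dist_eq, sub_zero, abs_of_nonneg (norm_nonneg _),
    split T n c B S (block T R S hR n (by omega))]
  rw [dist_eq_norm] at hS
  calc ‖(1 - Qc T n) * (B - c • (1 : OpY (Yt T)) - S) * Qc T n‖
      ≤ ‖(1 - Qc T n) * (B - c • (1 : OpY (Yt T)) - S)‖ * ‖Qc T n‖ := norm_mul_le _ _
    _ ≤ (‖1 - Qc T n‖ * ‖B - c • (1 : OpY (Yt T)) - S‖) * ‖Qc T n‖ :=
        mul_le_mul_of_nonneg_right (norm_mul_le _ _) (norm_nonneg _)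
    _ ≤ (1 * ‖B - c • (1 : OpY (Yt T)) - S‖) * 1 :=
        mul_le_mul (mul_le_mul_of_nonneg_right (norm_compl T n) (norm_nonneg _))
          (proj_norm_le _) (norm_nonneg _) (by positivity)
    _ < ε := by rw [one_mul, mul_one]; exact hS

end Pool.Agent.Work.MP_1ddc88_an.GR
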