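import Pool.Agent.Work.MP_1ddc88_an.GR.Stmts

/-!
# MP_1ddc88_an, block GR, item YCon: the graphs `T_n` are connected
-/

set_option autoImplicit false

open Filter Topology
open scoped ENNReal Classical

namespace Pool.Agent.Work.MP_1ddc88_an.GR

open TL

noncomputable section

namespace IYCon

theorem adj_level (T : Tower) (i : ℕ) {v w : Fin (T.X.N i)} (h : (T.X.G i).Adj v w) :
    (tele T).Adj ⟨i, v⟩ ⟨i, w⟩ := by
  unfold tele
  rw [SimpleGraph.fromRel_adj]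
  refine ⟨fun he => ?_, Or.inl (Or.inl ⟨i, v, w, h, rfl, rfl⟩)⟩
  have h1 : v = w := by
    have := Sigma.mk.inj_iff.1 he
    exact eq_of_heq this.2
  exact h.ne h1

theorem adj_down (T : Tower) (i : ℕ) (v : Fin (T.X.N (i + 1))) :
    (tele T).Adj ⟨i + 1, v⟩ ⟨i, T.π i v⟩ := by
  unfold tele
  rw [SimpleGraph.fromRel_adj]
  refine ⟨fun he => ?_, Or.inl (Or.inr ⟨i, v, rfl, rfl⟩)⟩
  have := (Sigma.mk.inj_iff.1 he).1
  omega

theorem reach (T : Tower) (n i : ℕ) : ∀ (v : Fin (T.X.N i)) (h : i ≤ n + 1),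
    (gY T).Reachable (root T n) ⟨((⟨i, v⟩ : Pt T.X), n), h⟩ := by
  induction i with
  | zero =>
      intro v h
      let φ : T.X.G 0 →g gY T :=
        ⟨fun v => (⟨((⟨0, v⟩ : Pt T.X), n), h⟩ : Yt T), fun h => ⟨rfl, adj_level T 0 h⟩⟩
      exact ((T.X.conn 0).preconnected (T.X.base 0) v).map φ
  | succ i ih =>
      intro v h
      have h' : i ≤ n + 1 := by omega
      have had : (gY T).Adj (⟨((⟨i + 1, v⟩ : Pt T.X), n), h⟩ : Yt T)
          ⟨((⟨i, T.π i v⟩ : Pt T.X), n), h'⟩ := ⟨rfl, adj_down T i v⟩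
      exact (ih (T.π i v) h').trans had.symm.reachable

end IYCon

open IYCon in
theorem pr_YCon : St_YCon := by
  intro T x y hxy
  obtain ⟨⟨⟨i, v⟩, n⟩, hx⟩ := x
  obtain ⟨⟨⟨j, w⟩, m⟩, hy⟩ := y
  have hnm : n = m := hxy
  subst hnm
  exact (reach T n i v hx).symm.trans (reach T n j w hy)

end

end Pool.Agent.Work.MP_1ddc88_an.GR
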