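import Pool.Agent.Work.MP_1ddc88_an.GR.Stmts
import Pool.Agent.Work.MP_1ddc88_an.I_Conv

/-! # MP_1ddc88_an, block GR, item YE (helper4) -/

set_option autoImplicit false

open Filter Topology
open scoped ENNReal Classical

namespace Pool.Agent.Work.MP_1ddc88_an.GR

open TL

noncomputable section

namespace IYE

theorem compact_of_finite {ι : Type} {s : Set ι} (hs : s.Finite) : IsCompactOperator (proj s) := by
  have := IConv.proj_compact hs.toFinset
  rwa [Set.Finite.coe_toFinset] at this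

theorem sub_eq {ι : Type} {s t : Set ι} (h : s ⊆ t) : proj s - proj t = (-1 : ℂ) • proj (t \ s) := by
  apply op_ext
  intro ξ p
  have e1 : (proj s - proj t) ξ p = proj s ξ p - proj t ξ p := by simp
  have e2 : ((-1 : ℂ) • proj (t \ s)) ξ p = -1 * proj (t \ s) ξ p := by simp
  rw [e1, e2, proj_apply, proj_apply, proj_apply]
  by_cases h1 : p ∈ s
  · have h2 : p ∈ t := h h1
    rw [if_pos h1, if_pos h2, if_neg (fun h3 => h3.2 h1)]
    ring
  · by_cases h2 : p ∈ t
    · rw [if_neg h1, if_pos h2, if_pos ⟨h2, h1⟩]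
      ring
    · rw [if_neg h1, if_neg h2, if_neg (fun h3 => h2 h3.1)]
      ring

theorem root_inj {T : Tower} {n m : ℕ} (h : root T n = root T m) : n = m := by
  have := congrArg (fun x : Yt T => x.1.2) h
  exact this

end IYE

theorem pr_YE (h1 : St_YMet) (_h2 : St_YGeo) (_h3 : St_GFP) : St_YE := by
  intro T A B
  refine ⟨subset_closure ⟨⟨0, ?_⟩, ?_⟩, ?_, ?_⟩
  · intro ξ p hp
    refine ⟨p, ?_, ?_⟩
    · intro h0
      apply hp
      unfold eY
      rw [proj_apply, h0]
      simp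
    · rw [(h1 T p.1 p.1 p.1).1]
  · intro z
    have hfin : ({p | ∃ n ∈ A, p = (root T n, 0)} ∩ cellY z : Set (Yt T × ℕ)).Finite := by
      refine (Set.finite_singleton ((z, 0) : Yt T × ℕ)).subset ?_
      rintro p ⟨⟨n, _, hn⟩, hz⟩
      have hz' : p.1 = z := hz
      rw [Set.mem_singleton_iff]
      rw [hn] at hz' ⊢
      rw [← hz']
    constructor
    · unfold eY
      rw [proj_mul]
      exact IYE.compact_of_finite hfin
    · unfold eY
      rw [proj_mul, Set.inter_comm]
      exact IYE.compact_of_finite hfin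
  · unfold eY
    rw [proj_mul]
    congr 1
    ext p
    constructor
    · rintro ⟨⟨n, hn, e1⟩, ⟨m, hm, e2⟩⟩
      have : n = m := IYE.root_inj (congrArg Prod.fst (e1.symm.trans e2))
      exact ⟨n, ⟨hn, by rw [this]; exact hm⟩, e1⟩
    · rintro ⟨n, hn, e⟩
      exact ⟨⟨n, hn.1, e⟩, ⟨n, hn.2, e⟩⟩
  · intro hf
    unfold eY
    rw [IYE.sub_eq]
    · refine IsCompactOperator.smul (IYE.compact_of_finite ?_) (-1 : ℂ)
      refine (hf.image fun n : ℕ => ((root T n, 0) : Yt T × ℕ)).subset ?_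
      rintro p ⟨⟨n, hn, e⟩, h2⟩
      refine ⟨n, ?_, e.symm⟩
      refine Or.inl ⟨hn, fun hB => h2 ⟨n, ⟨hn, hB⟩, e⟩⟩
    · rintro p ⟨n, hn, e⟩
      exact ⟨n, hn.1, e⟩

end

end Pool.Agent.Work.MP_1ddc88_an.GR
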