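import Pool.Agent.Work.MP_1ddc88_an.GR.StmtsA
import Pool.Agent.Work.MP_1ddc88_an.GR.I_YE

/-! # MP_1ddc88_an, block GR, part A, item YEF -/

set_option autoImplicit false

open Filter Topology
open scoped ENNReal Classical

namespace Pool.Agent.Work.MP_1ddc88_an.GR

open TL

noncomputable section

theorem pr_YEF (h1 : St_YMet) (_h2 : St_YGeo) (_h3 : St_GFP) : St_YEF := by
  intro T a b
  refine ⟨subset_closure ⟨⟨0, ?_⟩, ?_⟩, ?_, ?_⟩
  · intro ξ p hp
    refine ⟨p, ?_, ?_⟩
    · intro h0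
      apply hp
      unfold eF
      rw [proj_apply, h0]
      simp
    · rw [(h1 T p.1 p.1 p.1).1]
  · intro z
    have hfin : ({p | ∃ n j, j < a n ∧ p = (root T n, j)} ∩ cellY z : Set (Yt T × ℕ)).Finite := by
      refine ((Set.finite_lt_nat (a z.1.2)).image fun j : ℕ => ((z, j) : Yt T × ℕ)).subset ?_
      rintro p ⟨⟨n, j, hj, hn⟩, hz⟩
      have hz' : p.1 = z := hz
      rw [hn] at hz'
      have hz'' : root T n = z := hz'
      subst hz''
      exact ⟨j, hj, hn.symm⟩
    constructor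
    · unfold eF
      rw [proj_mul]
      exact IYE.compact_of_finite hfin
    · unfold eF
      rw [proj_mul, Set.inter_comm]
      exact IYE.compact_of_finite hfin
  · unfold eF
    rw [proj_mul]
    congr 1
    ext p
    constructor
    · rintro ⟨⟨n, j, hn, e1⟩, ⟨m, i, hm, e2⟩⟩
      have h3 : n = m := IYE.root_inj (congrArg Prod.fst (e1.symm.trans e2))
      have h4 : j = i := congrArg Prod.snd (e1.symm.trans e2)
      subst h3
      subst h4
      exact ⟨n, j, lt_min hn hm, e1⟩
    · rintro ⟨n, j, hn, e⟩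
      exact ⟨⟨n, j, lt_of_lt_of_le hn (min_le_left _ _), e⟩,
        ⟨n, j, lt_of_lt_of_le hn (min_le_right _ _), e⟩⟩
  · intro hf
    obtain ⟨n0, hn0⟩ := eventually_atTop.1 hf
    unfold eF
    rw [IYE.sub_eq]
    · refine IsCompactOperator.smul (IYE.compact_of_finite ?_) (-1 : ℂ)
      refine ((Set.finite_lt_nat n0).biUnion (fun n _ =>
        ((Set.finite_lt_nat (a n)).image fun j : ℕ => ((root T n, j) : Yt T × ℕ)))).subset ?_
      rintro p ⟨⟨n, j, hj, e⟩, h2⟩
      have hlt : n < n0 := by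
        by_contra hge
        have hab := hn0 n (not_lt.1 hge)
        exact h2 ⟨n, j, lt_min hj (hab ▸ hj), e⟩
      exact Set.mem_biUnion hlt ⟨j, hj, e.symm⟩
    · rintro p ⟨n, j, hn, e⟩
      exact ⟨n, j, lt_of_lt_of_le hn (min_le_left _ _), e⟩

end

end Pool.Agent.Work.MP_1ddc88_an.GR
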