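import Pool.Agent.Work.MP_1ddc88_an.GR.Stmts

/-!
# Block GR, item YEmb: extension by zero and restriction for the space of graphs
-/

set_option autoImplicit false

open Filter Topology
open scoped ENNReal Classical

namespace Pool.Agent.Work.MP_1ddc88_an.GR

open TL

noncomputable section

namespace IYEmb

/-- Restriction along an injection. -/
def resFun {α β : Type} (f : α → β) (hf : Function.Injective f) (ξ : L2 β) : L2 α :=
  ⟨fun a => ξ (f a), by
    refine memℓp_gen ?_
    have := (l2_summable ξ).comp_injective hf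
    simpa [Function.comp_def] using this⟩

theorem resFun_apply {α β : Type} (f : α → β) (hf : Function.Injective f) (ξ : L2 β) (a : α) :
    resFun f hf ξ a = ξ (f a) := rfl

theorem resFun_norm {α β : Type} (f : α → β) (hf : Function.Injective f) (ξ : L2 β) :
    ‖resFun f hf ξ‖ ≤ 1 * ‖ξ‖ := by
  have h3 : ‖resFun f hf ξ‖ ^ 2 ≤ ‖ξ‖ ^ 2 := by
    rw [l2_norm_sq, l2_norm_sq]
    exact Summable.tsum_le_tsum_of_inj f hf (fun _ _ => by positivity) (fun _ => le_rfl)
      ((l2_summable ξ).comp_injective hf) (l2_summable ξ)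
  have := abs_le_of_sq_le_sq' h3 (norm_nonneg _)
  simpa using this.2

def res {α β : Type} (f : α → β) (hf : Function.Injective f) : L2 β →L[ℂ] L2 α :=
  LinearMap.mkContinuous
    { toFun := resFun f hf
      map_add' := fun _ _ => rfl
      map_smul' := fun _ _ => rfl } 1 (resFun_norm f hf)

theorem res_apply {α β : Type} (f : α → β) (hf : Function.Injective f) (ξ : L2 β) (a : α) :
    res f hf ξ a = ξ (f a) := rfl

/-- Extension by zero. -/
def ext0 {α β : Type} (f : α → β) (ξ : α → ℂ) (b : β) : ℂ :=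
  if h : ∃ a, f a = b then ξ h.choose else 0

theorem ext0_in {α β : Type} (f : α → β) (hf : Function.Injective f) (ξ : α → ℂ) (a : α) :
    ext0 f ξ (f a) = ξ a := by
  have h : ∃ a', f a' = f a := ⟨a, rfl⟩
  unfold ext0
  rw [dif_pos h, hf h.choose_spec]

theorem ext0_out {α β : Type} (f : α → β) (ξ : α → ℂ) (b : β) (h : ¬ ∃ a, f a = b) :
    ext0 f ξ b = 0 := by
  unfold ext0
  rw [dif_neg h]

theorem ext0_hasSum {α β : Type} (f : α → β) (hf : Function.Injective f) (ξ : L2 α) :
    HasSum (fun b => ‖ext0 f ξ b‖ ^ 2) (∑' a, ‖ξ a‖ ^ 2) := by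
  have h1 : HasSum ((fun b => ‖ext0 f ξ b‖ ^ 2) ∘ f) (∑' a, ‖ξ a‖ ^ 2) := by
    have e : ((fun b => ‖ext0 f ξ b‖ ^ 2) ∘ f) = fun a => ‖ξ a‖ ^ 2 := by
      funext a
      simp only [Function.comp]
      rw [ext0_in f hf]
    rw [e]
    exact (l2_summable ξ).hasSum
  refine (hf.hasSum_iff ?_).mp h1
  intro b hb
  rw [ext0_out f ξ b (by simpa using hb)]
  simp

def extFun {α β : Type} (f : α → β) (hf : Function.Injective f) (ξ : L2 α) : L2 β :=
  ⟨ext0 f ξ, by
    refine memℓp_gen ?_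
    have := (ext0_hasSum f hf ξ).summable
    simpa using this⟩

theorem extFun_norm {α β : Type} (f : α → β) (hf : Function.Injective f) (ξ : L2 α) :
    ‖extFun f hf ξ‖ ≤ 1 * ‖ξ‖ := by
  have h3 : ‖extFun f hf ξ‖ ^ 2 ≤ ‖ξ‖ ^ 2 := by
    rw [l2_norm_sq, l2_norm_sq]
    exact (ext0_hasSum f hf ξ).tsum_eq.le
  have := abs_le_of_sq_le_sq' h3 (norm_nonneg _)
  simpa using this.2

theorem ext0_add {α β : Type} (f : α → β) (ξ η : L2 α) (b : β) :
    ext0 f (ξ + η : L2 α) b = ext0 f ξ b + ext0 f η b := by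
  unfold ext0
  split_ifs <;> simp

theorem ext0_smul {α β : Type} (f : α → β) (c : ℂ) (ξ : L2 α) (b : β) :
    ext0 f (c • ξ : L2 α) b = c * ext0 f ξ b := by
  unfold ext0
  split_ifs <;> simp

def ext {α β : Type} (f : α → β) (hf : Function.Injective f) : L2 α →L[ℂ] L2 β :=
  LinearMap.mkContinuous
    { toFun := extFun f hf
      map_add' := fun ξ η => by
        ext b
        exact ext0_add f ξ η b
      map_smul' := fun c ξ => by
        ext b
        exact ext0_smul f c ξ b } 1 (extFun_norm f hf)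

theorem ext_apply {α β : Type} (f : α → β) (hf : Function.Injective f) (ξ : L2 α) (b : β) :
    ext f hf ξ b = ext0 f ξ b := rfl

/-- The inclusion of the index sets. -/
def inc (T : Tower) (p : Yt T × ℕ) : Ix T.X := (p.1.1, p.2)

theorem inc_inj (T : Tower) : Function.Injective (inc T) := by
  rintro ⟨⟨y, hy⟩, k⟩ ⟨⟨y', hy'⟩, k'⟩ h
  simp only [inc, Prod.mk.injEq] at h
  obtain ⟨rfl, rfl⟩ := h
  rfl

end IYEmb

open IYEmb in
theorem pr_YEmb : St_YEmb := by
  intro T
  refine ⟨⟨ext (inc T) (inc_inj T), res (inc T) (inc_inj T), ?_, ?_, ?_, ?_, ?_⟩⟩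
  · intro ξ y k
    rw [ext_apply]
    exact ext0_in (inc T) (inc_inj T) ξ (y, k)
  · intro ξ q hq
    rw [ext_apply, ext0_out]
    rintro ⟨⟨y, k⟩, rfl⟩
    exact hq y.2
  · intro ξ y k
    rfl
  · exact LinearMap.mkContinuous_norm_le _ zero_le_one _
  · exact LinearMap.mkContinuous_norm_le _ zero_le_one _

end

end Pool.Agent.Work.MP_1ddc88_an.GR
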