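import Pool.Agent.Work.MP_1ddc88_an.GR.Stmts

/-!
# MP_1ddc88_an, block GR, item YF: formulas
-/

set_option autoImplicit false

open Filter Topology
open scoped ENNReal Classical

namespace Pool.Agent.Work.MP_1ddc88_an.GR

open TL

namespace IYF

theorem cmp_apply {T : Tower} (E : Emb T) (A : Op T.X) (ξ : HY (Yt T)) (y : Yt T) (k : ℕ) :
    cmp E A ξ (y, k) = A (E.V ξ) (y.1, k) := E.V'_apply _ y k

/-- the average of `V ξ` over a level in `Y` -/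
theorem avg_in (h1 : St_PavF) {T : Tower} (E : Emb T) (ξ : HY (Yt T)) (n i k : ℕ)
    (v : Fin (T.X.N i)) (h : i ≤ n + 1) :
    Pav T.X (E.V ξ) ((⟨i, v⟩, n), k) = (if k = 0 then
      (T.X.N i : ℂ)⁻¹ * ∑ u : Fin (T.X.N i), ξ (⟨(⟨i, u⟩, n), h⟩, 0) else 0) := by
  rw [(h1 T.X).2]
  have e : ∀ u : Fin (T.X.N i), E.V ξ ((⟨i, u⟩, n), 0) = ξ (⟨(⟨i, u⟩, n), h⟩, 0) :=
    fun u => E.V_in ξ ⟨(⟨i, u⟩, n), h⟩ 0
  by_cases hk : k = 0
  · rw [if_pos hk, if_pos hk]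
    simp only [e]
  · rw [if_neg hk, if_neg hk]

/-- the average of `V ξ` over a level outside `Y` -/
theorem avg_out (h1 : St_PavF) {T : Tower} (E : Emb T) (ξ : HY (Yt T)) (n i k : ℕ)
    (v : Fin (T.X.N i)) (h : ¬ i ≤ n + 1) :
    Pav T.X (E.V ξ) ((⟨i, v⟩, n), k) = 0 := by
  rw [(h1 T.X).2]
  have e : ∀ u : Fin (T.X.N i), E.V ξ ((⟨i, u⟩, n), 0) = 0 :=
    fun u => E.V_out ξ ((⟨i, u⟩, n), 0) h
  by_cases hk : k = 0
  · rw [if_pos hk]
    simp only [e, Finset.sum_const_zero, mul_zero]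
  · rw [if_neg hk]

theorem sq (d : ℕ) (c : ℂ) : ((Real.sqrt d : ℝ) : ℂ)⁻¹ * ((d : ℂ) * c) =
    ((Real.sqrt d : ℝ) : ℂ) * c := by
  have e : ((Real.sqrt d : ℝ) : ℂ) * ((Real.sqrt d : ℝ) : ℂ) = (d : ℂ) := by
    rw [← Complex.ofReal_mul, Real.mul_self_sqrt (Nat.cast_nonneg d), Complex.ofReal_natCast]
  by_cases h0 : ((Real.sqrt d : ℝ) : ℂ) = 0
  · rw [h0, inv_zero, zero_mul, zero_mul]
  · rw [← e, mul_assoc, inv_mul_cancel_left₀ h0]

theorem fib (T : Tower) (i : ℕ) (v : Fin (T.X.N i)) (c : ℂ) :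
    ∑ w' : Fin (T.X.N (i + 1)), (if T.π i w' = v then c else 0) = (T.d i : ℂ) * c := by
  rw [← Finset.sum_filter, Finset.sum_const, nsmul_eq_mul, ← T.fibre i v]
  congr 2
  rw [Set.ncard_eq_toFinset_card']
  congr 1
  ext w
  simp

end IYF

open IYF in
theorem pr_YF (h1 : St_PavF) (h2 : TL.St_TLF) : St_YF := by
  intro T E ξ n i k v h
  refine ⟨?_, ?_, ?_, ?_, ?_⟩
  · show cmp E (Pav T.X) ξ _ = _
    rw [cmp_apply]
    exact avg_in h1 E ξ n i k v h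
  · intro hi
    subst hi
    show cmp E (W T) ξ _ = _
    rw [cmp_apply]
    exact (h2 T (Pav T.X (E.V ξ))).2.2.1 v n k
  · intro j hj
    subst hj
    show cmp E (W T) ξ _ = _
    rw [cmp_apply]
    show Lp T (Pav T.X (E.V ξ)) ((⟨j + 1, v⟩, n), k) = _
    rw [(h2 T (Pav T.X (E.V ξ))).2.1 j v n k, avg_in h1 E ξ n j k _ (by omega)]
    by_cases hk : k = 0
    · rw [if_pos hk, if_pos hk]
    · rw [if_neg hk, if_neg hk, mul_zero]
  · intro hi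
    subst hi
    show cmp E (W' T) ξ _ = _
    rw [cmp_apply]
    show Lm T (Pav T.X (E.V ξ)) ((⟨n + 1, v⟩, n), k) = _
    rw [(h2 T (Pav T.X (E.V ξ))).2.2.2 (n + 1) v n k]
    have e : ∀ w' : Fin (T.X.N (n + 1 + 1)), (if T.π (n + 1) w' = v then
        Pav T.X (E.V ξ) ((⟨n + 1 + 1, w'⟩, n), k) else 0) = 0 := by
      intro w'
      rw [avg_out h1 E ξ n (n + 1 + 1) k w' (by omega)]
      split_ifs <;> rfl
    simp only [e, Finset.sum_const_zero, mul_zero]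
  · intro hi
    show cmp E (W' T) ξ _ = _
    rw [cmp_apply]
    show Lm T (Pav T.X (E.V ξ)) ((⟨i, v⟩, n), k) = _
    rw [(h2 T (Pav T.X (E.V ξ))).2.2.2 i v n k]
    simp only [avg_in h1 E ξ n (i + 1) k _ (show i + 1 ≤ n + 1 by omega)]
    rw [fib, sq]
    by_cases hk : k = 0
    · rw [if_pos hk, if_pos hk]
    · rw [if_neg hk, if_neg hk, mul_zero]

end Pool.Agent.Work.MP_1ddc88_an.GR
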