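import Pool.Agent.Work.MP_1ddc88_an.GR.Stmts
import Pool.Agent.Work.MP_1ddc88_an.TL.I_TFL

/-!
# MP_1ddc88_an, block GR, item YFP: propagation at most one of the compressed operators
-/

set_option autoImplicit false

open Filter Topology
open scoped ENNReal Classical

namespace Pool.Agent.Work.MP_1ddc88_an.GR

open TL

noncomputable section

/-- An operator whose values at a point depend on the point and on its neighbours in the telescope
with the same number has a compression of propagation at most one. -/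
theorem IYFP.gen (T : Tower) (E : Emb T) (A : Op T.X)
    (hA : ∀ (η : Hs T.X) (p : Ix T.X), A η p ≠ 0 → ∃ q : Ix T.X, η q ≠ 0 ∧
      (q.1 = p.1 ∨ (p.1.2 = q.1.2 ∧ (tele T).Adj p.1.1 q.1.1))) : FP (dY T) 1 (cmp E A) := by
  intro ξ p hp
  obtain ⟨y, k⟩ := p
  have h1 : cmp E A ξ (y, k) = A (E.V ξ) (y.1, k) := E.V'_apply (A (E.V ξ)) y k
  rw [h1] at hp
  obtain ⟨q, hq, hc⟩ := hA (E.V ξ) (y.1, k) hp
  have hqY : q.1.1.1 ≤ q.1.2 + 1 := by
    by_contra hcon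
    exact hq (E.V_out ξ q hcon)
  have h2 : E.V ξ q = ξ (⟨q.1, hqY⟩, q.2) := E.V_in ξ ⟨q.1, hqY⟩ q.2
  refine ⟨(⟨q.1, hqY⟩, q.2), by rw [← h2]; exact hq, ?_⟩
  show dY T y ⟨q.1, hqY⟩ ≤ 1
  rcases hc with hc | ⟨hn, hadj⟩
  · have h3 : (⟨q.1, hqY⟩ : Yt T) = y := Subtype.ext hc
    rw [h3, dY, if_pos rfl, SimpleGraph.dist_self]
    exact Nat.zero_le 1
  · have hn' : y.1.2 = q.1.2 := hn
    have hadj' : (gY T).Adj y ⟨q.1, hqY⟩ := ⟨hn', hadj⟩
    rw [dY, if_pos hn', SimpleGraph.dist_eq_one_iff_adj.2 hadj']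

theorem IYFP.adj (T : Tower) (i : ℕ) (v w : Fin (T.X.N i)) (h : (T.X.G i).Adj v w) :
    (tele T).Adj (⟨i, v⟩ : Pt T.X) ⟨i, w⟩ := by
  rw [tele, SimpleGraph.fromRel_adj]
  refine ⟨?_, Or.inl (Or.inl ⟨i, v, w, h, rfl, rfl⟩)⟩
  intro h1
  apply h.ne
  exact eq_of_heq (Sigma.mk.inj_iff.1 h1).2

theorem pr_YFP (h1 : St_AF) (h2 : TL.St_TLF) : St_YFP := by
  intro T E
  refine ⟨IYFP.gen T E _ ?_, IYFP.gen T E _ ?_, IYFP.gen T E _ ?_⟩
  · intro ξ p hp
    obtain ⟨⟨⟨i, v⟩, m⟩, k⟩ := p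
    rw [(h1 T.X).2 ξ i v m k] at hp
    by_cases hk : k = 0
    · subst hk
      rw [if_pos rfl] at hp
      by_cases hξ : ξ ((⟨i, v⟩, m), 0) = 0
      · have h2 : (∑ w, if (T.X.G i).Adj v w then
            ξ ((⟨i, v⟩, m), 0) - ξ ((⟨i, w⟩, m), 0) else 0) ≠ 0 := by
          intro h3
          apply hp
          rw [h3, hξ, mul_zero, sub_zero]
        obtain ⟨w, -, hw⟩ := Finset.exists_ne_zero_of_sum_ne_zero h2
        have h3 : (T.X.G i).Adj v w := by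
          by_contra h4
          exact hw (if_neg h4)
        rw [if_pos h3, hξ, zero_sub] at hw
        exact ⟨((⟨i, w⟩, m), 0), fun h4 => hw (by rw [h4, neg_zero]),
          Or.inr ⟨rfl, IYFP.adj T i v w h3⟩⟩
      · exact ⟨((⟨i, v⟩, m), 0), hξ, Or.inl rfl⟩
    · rw [if_neg hk] at hp
      exact absurd rfl hp
  · intro ξ p hp
    obtain ⟨⟨⟨j, v⟩, m⟩, k⟩ := p
    obtain ⟨-, hs, hz, -⟩ := h2 T ξ
    cases j with
    | zero => exact absurd (hz v m k) hp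
    | succ i =>
      rw [hs i v m k] at hp
      exact ⟨((⟨i, T.π i v⟩, m), k), right_ne_zero_of_mul hp, Or.inr ⟨rfl, ITFL.adj T i v⟩⟩
  · intro ξ p hp
    obtain ⟨⟨⟨i, w⟩, m⟩, k⟩ := p
    obtain ⟨-, -, -, hm⟩ := h2 T ξ
    rw [hm i w m k] at hp
    obtain ⟨w', -, hw⟩ := Finset.exists_ne_zero_of_sum_ne_zero (right_ne_zero_of_mul hp)
    have h3 : T.π i w' = w := by
      by_contra h4
      exact hw (if_neg h4)
    rw [if_pos h3] at hw
    refine ⟨((⟨i + 1, w'⟩, m), k), hw, Or.inr ⟨rfl, ?_⟩⟩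
    have h4 := (ITFL.adj T i w').symm
    rw [h3] at h4
    exact h4

end

end Pool.Agent.Work.MP_1ddc88_an.GR
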