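import Pool.Agent.Work.MP_1ddc88_an.GR.StmtsA

set_option autoImplicit false

/-! # Block GR, item YFinF: functions which agree eventually give the same class -/

open Filter Topology

namespace Pool.Agent.Work.MP_1ddc88_an.GR

open TL
open scoped Classical

namespace IYFinF

/-- a 1 × 1 product minus the stabilisation -/
theorem entry {Y : Type} (e p : OpY Y) (he : e * e = e) (a b : Fin (0 + 1)) :
    ((Matrix.of (fun _ _ => e) : MatY Y (0 + 1)) * (Matrix.of (fun _ _ => e) : MatY Y (0 + 1)) -
      stabY 0 p) a b = e - p := by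
  have ha : a = 0 := Fin.ext (by omega)
  have hb : b = 0 := Fin.ext (by omega)
  subst ha
  subst hb
  rw [Matrix.sub_apply, Matrix.mul_apply, stabY, Matrix.diagonal_apply_eq, if_pos rfl]
  have h1 : ∑ j : Fin (0 + 1), (Matrix.of (fun _ _ => e) : MatY Y (0 + 1)) 0 j *
      (Matrix.of (fun _ _ => e) : MatY Y (0 + 1)) j 0 = e * e := by
    exact Fin.sum_univ_one _
  rw [h1, he]

end IYFinF

/-- item YFinF -/
theorem pr_YFinF (h1 : St_YEF) : St_YFinF := by
  intro T a b hab
  have hm : eF T (fun n => min (a n) (b n)) * eF T (fun n => min (a n) (b n)) =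
      eF T (fun n => min (a n) (b n)) := by
    have h2 := (h1 T (fun n => min (a n) (b n)) (fun n => min (a n) (b n))).2.1
    simp only [min_self] at h2
    exact h2
  have hR : eF T (fun n => min (a n) (b n)) ∈ RoeP (dY T) := by
    refine ⟨0, ?_⟩
    rw [zero_smul, sub_zero]
    exact (h1 T (fun n => min (a n) (b n)) a).1
  have hc : (fun n => min (a n) (b n)) = fun n => min (b n) (a n) := by
    funext n
    exact min_comm _ _
  refine ⟨0, Matrix.of (fun _ _ => eF T (fun n => min (a n) (b n))),
    Matrix.of (fun _ _ => eF T (fun n => min (a n) (b n))),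
    fun a b => hR, fun a b => hR, fun i j => ?_, fun i j => ?_⟩
  · rw [IYFinF.entry _ _ hm]
    exact (h1 T a b).2.2 hab
  · rw [IYFinF.entry _ _ hm, hc]
    exact (h1 T b a).2.2 (hab.mono fun n hn => hn.symm)

end Pool.Agent.Work.MP_1ddc88_an.GR
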