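import Pool.Agent.Work.MP_1ddc88_an.GR.Stmts
import Pool.Agent.Work.MP_1ddc88_an.TL.I_TGeo

/-!
# MP_1ddc88_an, block GR, item YGeo: bounded geometry of the space of graphs
-/

set_option autoImplicit false

open Filter Topology
open scoped ENNReal Classical

namespace Pool.Agent.Work.MP_1ddc88_an.GR

open TL

noncomputable section

namespace IYGeo

/-- balls in a graph of bounded degree -/
theorem ball {V : Type*} (G : SimpleGraph V) (M : ℕ) (F : V → Finset V)
    (hF : ∀ v, (F v).card ≤ M) (hA : ∀ v w, G.Adj v w → w ∈ F v) (v : V) (r : ℕ) :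
    ∃ B : Finset V, B.card ≤ (M + 1) ^ r ∧ ∀ w, G.Reachable v w → G.dist v w ≤ r → w ∈ B := by
  induction r with
  | zero =>
    refine ⟨{v}, ?_, ?_⟩
    · rw [Finset.card_singleton, pow_zero]
    · intro w hr hw
      rw [Nat.le_zero, hr.dist_eq_zero_iff] at hw
      rw [Finset.mem_singleton, hw]
  | succ r ih =>
    obtain ⟨B, hB, hw⟩ := ih
    refine ⟨B.biUnion (fun u => insert u (F u)), ?_, ?_⟩
    · refine (Finset.card_biUnion_le_card_mul _ _ (M + 1) fun u _ => ?_).trans ?_
      · refine (Finset.card_insert_le _ _).trans ?_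
        have h1 := hF u
        omega
      · rw [pow_succ]
        exact Nat.mul_le_mul_right _ hB
    · intro w hreach hwr
      obtain ⟨p, hp⟩ := hreach.symm.exists_walk_length_eq_dist
      rw [Finset.mem_biUnion]
      cases p with
      | nil =>
        refine ⟨v, hw v (SimpleGraph.Reachable.refl _) ?_, Finset.mem_insert_self _ _⟩
        rw [SimpleGraph.dist_self]
        exact Nat.zero_le _
      | cons h p' =>
        rename_i u
        refine ⟨u, hw u p'.reachable.symm ?_, ?_⟩
        · rw [SimpleGraph.dist_comm]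
          have h1 := SimpleGraph.dist_le p'
          rw [SimpleGraph.Walk.length_cons, SimpleGraph.dist_comm] at hp
          omega
        · rw [Finset.mem_insert]
          exact Or.inr (hA u w h.symm)

/-- the neighbours of a vertex in the space of graphs -/
def nbY (T : Tower) (x : Yt T) : Finset (Yt T) :=
  Finset.subtype (fun z : Z T.X => z.1.1 ≤ z.2 + 1)
    ((ITGeo.nb T x.1.1).image (fun q => (q, x.1.2)))

theorem card_nbY (T : Tower) (x : Yt T) : (nbY T x).card ≤ T.X.D + T.K + 1 := by
  unfold nbY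
  rw [Finset.card_subtype]
  exact ((Finset.card_filter_le _ _).trans Finset.card_image_le).trans (ITGeo.card_nb T x.1.1)

theorem mem_nbY (T : Tower) (x y : Yt T) (h : (gY T).Adj x y) : y ∈ nbY T x := by
  unfold nbY
  rw [Finset.mem_subtype, Finset.mem_image]
  exact ⟨y.1.1, ITGeo.mem_nb T _ _ h.2, Prod.ext rfl h.1⟩

/-- the points of the first `R` graphs -/
def first (T : Tower) (R : ℕ) : Finset (Yt T) :=
  Finset.subtype (fun z : Z T.X => z.1.1 ≤ z.2 + 1)
    ((Finset.range R).biUnion fun m => (Finset.range (R + 1)).biUnion fun i =>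
      Finset.univ.image fun v : Fin (T.X.N i) => ((⟨i, v⟩ : Pt T.X), m))

theorem mem_first (T : Tower) (R : ℕ) (y : Yt T) (h : y.1.2 < R) : y ∈ first T R := by
  unfold first
  rw [Finset.mem_subtype, Finset.mem_biUnion]
  refine ⟨y.1.2, Finset.mem_range.2 h, ?_⟩
  rw [Finset.mem_biUnion]
  have h1 := y.2
  refine ⟨y.1.1.1, Finset.mem_range.2 (by omega), ?_⟩
  rw [Finset.mem_image]
  exact ⟨y.1.1.2, Finset.mem_univ _, rfl⟩

end IYGeo

/-- item YGeo -/
theorem pr_YGeo (h1 : St_YCon) : St_YGeo := by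
  intro T R
  refine ⟨(T.X.D + T.K + 1 + 1) ^ R + (IYGeo.first T R).card, ?_⟩
  intro z
  obtain ⟨F, hFc, hF⟩ := IYGeo.ball (gY T) (T.X.D + T.K + 1) (IYGeo.nbY T) (IYGeo.card_nbY T)
    (IYGeo.mem_nbY T) z R
  have hsub : {w : Yt T | dY T z w ≤ R} ⊆ ((F ∪ IYGeo.first T R : Finset (Yt T)) : Set (Yt T)) := by
    intro w hw
    have hw' : dY T z w ≤ R := hw
    unfold dY at hw'
    rw [Finset.mem_coe, Finset.mem_union]
    split_ifs at hw' with h
    · exact Or.inl (hF w (h1 T z w h) hw')
    · exact Or.inr (IYGeo.mem_first T R w (by omega))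
  refine ⟨(Finset.finite_toSet _).subset hsub, ?_⟩
  refine (Set.ncard_le_ncard hsub (Finset.finite_toSet _)).trans ?_
  rw [Set.ncard_coe_finset]
  exact (Finset.card_union_le _ _).trans (Nat.add_le_add_right hFc _)

end

end Pool.Agent.Work.MP_1ddc88_an.GR
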