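import Pool.Agent.Work.MP_1ddc88_an.GR.Stmts

/-! # MP_1ddc88_an, block GR, item YGh (helper51): the top projections are ghosts -/

set_option autoImplicit false

open Filter Topology
open scoped ENNReal Classical

namespace Pool.Agent.Work.MP_1ddc88_an.GR

open TL

noncomputable section

namespace IYGh

/-- a vector with at most one coordinate -/
theorem norm_single {ι : Type} (η : L2 ι) (p₀ : ι) (h : ∀ p, p ≠ p₀ → η p = 0) :
    ‖η‖ ≤ ‖η p₀‖ := by
  have h1 : ‖η‖ ^ 2 = ‖η p₀‖ ^ 2 := by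
    rw [l2_norm_sq, tsum_eq_single p₀]
    intro p hp
    rw [h p hp, norm_zero]
    norm_num
  exact le_of_eq ((pow_left_inj₀ (norm_nonneg _) (norm_nonneg _) two_ne_zero).1 h1)

theorem apply_le {ι : Type} (ξ : L2 ι) (p : ι) : ‖ξ p‖ ≤ ‖ξ‖ :=
  lp.norm_apply_le_norm (by norm_num) ξ p

/-- the average of a vector in one cell -/
theorem avg (h2 : St_YF) (T : Tower) (E : Emb T) (w : Yt T) (ξ : HY (Yt T)) (n i k : ℕ)
    (v : Fin (T.X.N i)) (h : i ≤ n + 1) :
    (PY E (proj (cellY w) ξ) (⟨(⟨i, v⟩, n), h⟩, k) ≠ 0 → k = 0 ∧ w.1.2 = n) ∧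
    ‖PY E (proj (cellY w) ξ) (⟨(⟨i, v⟩, n), h⟩, k)‖ ≤ ((T.X.N i : ℕ) : ℝ)⁻¹ * ‖ξ‖ := by
  have hN : 0 ≤ ((T.X.N i : ℕ) : ℝ)⁻¹ * ‖ξ‖ := by positivity
  rw [(h2 T E (proj (cellY w) ξ) n i k v h).1]
  by_cases hk : k = 0
  · rw [if_pos hk]
    by_cases hw : ∃ u : Fin (T.X.N i), (⟨(⟨i, u⟩, n), h⟩ : Yt T) = w
    · obtain ⟨u₀, hu₀⟩ := hw
      have hS : ∑ u : Fin (T.X.N i), proj (cellY w) ξ ((⟨(⟨i, u⟩, n), h⟩ : Yt T), 0) =
          ξ ((⟨(⟨i, u₀⟩, n), h⟩ : Yt T), 0) := by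
        rw [Finset.sum_eq_single u₀]
        · rw [proj_apply, if_pos (show ((⟨(⟨i, u₀⟩, n), h⟩ : Yt T), 0) ∈ cellY w from hu₀)]
        · intro u _ hu
          rw [proj_apply, if_neg]
          intro hc
          have hc' : (⟨(⟨i, u⟩, n), h⟩ : Yt T) = w := hc
          rw [← hu₀] at hc'
          have e1 := congrArg Prod.fst (congrArg Subtype.val hc')
          exact hu (eq_of_heq (Sigma.mk.inj e1).2)
        · intro h; exact absurd (Finset.mem_univ _) h
      refine ⟨fun _ => ⟨hk, ?_⟩, ?_⟩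
      · rw [← hu₀]
      · rw [hS, norm_mul, norm_inv, Complex.norm_natCast]
        gcongr
        exact apply_le ξ _
    · have hS : ∑ u : Fin (T.X.N i), proj (cellY w) ξ ((⟨(⟨i, u⟩, n), h⟩ : Yt T), 0) = 0 := by
        apply Finset.sum_eq_zero
        intro u _
        rw [proj_apply, if_neg]
        intro hc
        exact hw ⟨u, hc⟩
      rw [hS, mul_zero]
      refine ⟨fun h0 => absurd rfl h0, ?_⟩
      rw [norm_zero]
      exact hN
  · rw [if_neg hk]
    refine ⟨fun h0 => absurd rfl h0, ?_⟩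
    rw [norm_zero]
    exact hN

/-- the values of the operator -/
theorem vals (T : Tower) (E : Emb T) (A : Set ℕ) (η : HY (Yt T)) (p : Yt T × ℕ) :
    (colY T A * (topY T * PY E)) η p =
      if p.1.1.2 ∈ A then (if p.1.1.1.1 = p.1.1.2 + 1 then PY E η p else 0) else 0 := by
  have e : (colY T A * (topY T * PY E)) η p = colY T A (topY T (PY E η)) p := rfl
  rw [e]
  unfold colY topY
  rw [proj_apply, proj_apply]
  by_cases h1 : p.1.1.2 ∈ A <;> by_cases h2 : p.1.1.1.1 = p.1.1.2 + 1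
  · rw [if_pos (show p ∈ {p : Yt T × ℕ | p.1.1.2 ∈ A} from h1),
      if_pos (show p ∈ {p : Yt T × ℕ | p.1.1.1.1 = p.1.1.2 + 1} from h2), if_pos h1, if_pos h2]
  · rw [if_pos (show p ∈ {p : Yt T × ℕ | p.1.1.2 ∈ A} from h1),
      if_neg (show ¬ p ∈ {p : Yt T × ℕ | p.1.1.1.1 = p.1.1.2 + 1} from h2), if_pos h1, if_neg h2]
  · rw [if_neg (show ¬ p ∈ {p : Yt T × ℕ | p.1.1.2 ∈ A} from h1), if_neg h1]
  · rw [if_neg (show ¬ p ∈ {p : Yt T × ℕ | p.1.1.2 ∈ A} from h1), if_neg h1]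

/-- finitely many points in the first graphs -/
theorem fin (T : Tower) (n₀ : ℕ) : {y : Yt T | y.1.2 < n₀}.Finite := by
  have hF : (((((Finset.range (n₀ + 1)).sigma fun i => (Finset.univ : Finset (Fin (T.X.N i)))) ×ˢ
      Finset.range n₀ : Finset (Z T.X)) : Set (Z T.X))).Finite := Finset.finite_toSet _
  refine (hF.preimage (f := fun y : Yt T => y.1) Subtype.val_injective.injOn).subset ?_
  intro y hy
  have hy' : y.1.2 < n₀ := hy
  have h1 : y.1.1.1 ≤ y.1.2 + 1 := y.2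
  rw [Set.mem_preimage, Finset.mem_coe, Finset.mem_product, Finset.mem_sigma]
  exact ⟨⟨Finset.mem_range.2 (by omega), Finset.mem_univ _⟩, Finset.mem_range.2 hy'⟩

end IYGh

open IYGh in
theorem pr_YGh (h1 : St_PavF) (h2 : St_YF) (h3 : St_YW) : St_YGh := by
  have _ := h1
  intro T E A
  refine ⟨?_, ?_⟩
  · have e : colY T A * (topY T * PY E) =
        proj ({p : Yt T × ℕ | p.1.1.2 ∈ A} ∩ {p : Yt T × ℕ | p.1.1.1.1 = p.1.1.2 + 1}) * PY E := by
      rw [← mul_assoc]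
      unfold colY topY
      rw [proj_mul]
    rw [e]
    exact (h3 T E _).1
  · intro ε hε
    have hN : ∀ᶠ i in atTop, ((T.X.N i : ℕ) : ℝ)⁻¹ ≤ ε := by
      have ht : Tendsto (fun i => ((T.X.N i : ℕ) : ℝ)⁻¹) atTop (𝓝 0) :=
        tendsto_inv_atTop_zero.comp (tendsto_natCast_atTop_atTop.comp T.X.big)
      exact (ht.eventually (gt_mem_nhds hε)).mono fun i hi => le_of_lt hi
    obtain ⟨i₀, hi₀⟩ := eventually_atTop.1 hN
    refine ⟨(fin T i₀).toFinset, ?_⟩
    intro z w hzw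
    apply ContinuousLinearMap.opNorm_le_bound _ hε.le
    intro ξ
    set W := (colY T A * (topY T * PY E)) (proj (cellY w) ξ) with hW
    show ‖proj (cellY z) W‖ ≤ ε * ‖ξ‖
    have hval : ∀ p : Yt T × ℕ, W p =
        if p.1.1.2 ∈ A then (if p.1.1.1.1 = p.1.1.2 + 1 then PY E (proj (cellY w) ξ) p else 0)
        else 0 := fun p => vals T E A _ p
    have hproj : ∀ p, proj (cellY z) W p = if p.1 = z then W p else 0 := by
      intro p
      rw [proj_apply]
      by_cases hc : p.1 = z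
      · rw [if_pos hc, if_pos (show p ∈ cellY z from hc)]
      · rw [if_neg hc, if_neg (show ¬ p ∈ cellY z from hc)]
    have hne0 : ∀ p : Yt T × ℕ, W p ≠ 0 → p.2 = 0 ∧ w.1.2 = p.1.1.2 ∧ p.1.1.1.1 = p.1.1.2 + 1 := by
      rintro ⟨⟨⟨⟨i, v⟩, n⟩, h⟩, k⟩ hne
      rw [hval] at hne
      split_ifs at hne with g1 g2
      · obtain ⟨e1, e2⟩ := (avg h2 T E w ξ n i k v h).1 hne
        exact ⟨e1, e2, g2⟩
      · exact absurd rfl hne
      · exact absurd rfl hne
    have hle : ∀ p : Yt T × ℕ, ‖W p‖ ≤ ((T.X.N p.1.1.1.1 : ℕ) : ℝ)⁻¹ * ‖ξ‖ := by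
      rintro ⟨⟨⟨⟨i, v⟩, n⟩, h⟩, k⟩
      have h0 : 0 ≤ ((T.X.N i : ℕ) : ℝ)⁻¹ * ‖ξ‖ := by positivity
      rw [hval]
      split_ifs with g1 g2
      · exact (avg h2 T E w ξ n i k v h).2
      · rw [norm_zero]; exact h0
      · rw [norm_zero]; exact h0
    have hn := norm_single (proj (cellY z) W) (z, 0) (by
      rintro ⟨y, k⟩ hp
      rw [hproj]
      split_ifs with hc
      · by_contra hne
        have hk := (hne0 (y, k) hne).1
        apply hp
        have hc' : y = z := hc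
        have hk' : k = 0 := hk
        rw [hk', hc']
      · rfl)
    refine hn.trans ?_
    rw [hproj, if_pos rfl]
    by_cases hz : W (z, 0) = 0
    · rw [hz, norm_zero]; positivity
    · obtain ⟨-, hwz, hlev⟩ := hne0 (z, 0) hz
      have hwz' : w.1.2 = z.1.2 := hwz
      have hlev' : z.1.1.1 = z.1.2 + 1 := hlev
      have hge : i₀ ≤ z.1.2 := by
        by_contra hlt
        have hlt' : z.1.2 < i₀ := not_le.1 hlt
        rcases hzw with hz' | hw'
        · exact hz' ((fin T i₀).mem_toFinset.2 hlt')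
        · apply hw'
          rw [(fin T i₀).mem_toFinset]
          show w.1.2 < i₀
          rw [hwz']
          exact hlt'
      refine (hle (z, 0)).trans ?_
      have hfin := hi₀ z.1.1.1 (by omega)
      exact mul_le_mul_of_nonneg_right hfin (norm_nonneg _)

end

end Pool.Agent.Work.MP_1ddc88_an.GR
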