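import Pool.Agent.Work.MP_1ddc88_an.GR.StmtsA

/-!
# MP_1ddc88_an, block GR, item YInfF

Equality of the classes of `e_a` and `e_b` modulo the compact operators forces `a n = b n` for large
`n` (the proof of item YInf, by helper78, with multiplicities).
-/

set_option autoImplicit false

open Filter Topology
open scoped ENNReal Classical

namespace Pool.Agent.Work.MP_1ddc88_an.GR

open TL

noncomputable section

namespace IYInfF

theorem half (h1 : St_Act) (h2 : St_Est) (h3 : St_YVecF) (T : Tower) (a b : ℕ → ℕ) (N : ℕ)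
    (x y : MatY (Yt T) (N + 1)) (hx : ∀ i j, x i j ∈ RoeP (dY T)) (hy : ∀ i j, y i j ∈ RoeP (dY T))
    (hxy : ∀ i j, IsCompactOperator ((x * y - stabY N (eF T a)) i j))
    (hyx : ∀ i j, IsCompactOperator ((y * x - stabY N (eF T b)) i j)) :
    ∀ᶠ n in atTop, ¬ b n < a n := by
  obtain ⟨⟨Lx, hLx⟩, -, ⟨Cx, hCx0, hCx⟩, -⟩ := h1 (Yt T) (N + 1) x y
  obtain ⟨⟨Ly, hLy⟩, -, ⟨Cy, hCy0, hCy⟩, -⟩ := h1 (Yt T) (N + 1) y x
  set C : ℝ := max Cx Cy with hC
  have hC0 : 0 ≤ C := le_max_of_le_left hCx0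
  set K : ℝ := C * (1 + C + C ^ 2) + 1 with hK
  have hK1 : 0 < K := by positivity
  have hδ : 0 < 1 / (2 * K) := by positivity
  have hKδ : K * (1 / (2 * K)) < 1 := by
    have : K * (1 / (2 * K)) = 1 / 2 := by
      field_simp
    rw [this]
    norm_num
  have hev := h3 T a b N x y hx hy hxy hyx (1 / (2 * K)) hδ
  filter_upwards [hev] with n hn hlt
  obtain ⟨v, u, hv, e1, e2, e3⟩ := hn hlt
  refine hv (h2 (Fin (N + 1) → HY (Yt T)) Lx Ly C (1 / (2 * K)) v u hC0 hδ.le ?_ ?_ ?_ ?_ ?_ hKδ)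
  · intro z
    rw [hLx]
    exact (hCx z).trans (mul_le_mul_of_nonneg_right (le_max_left _ _) (norm_nonneg _))
  · intro z
    rw [hLy]
    exact (hCy z).trans (mul_le_mul_of_nonneg_right (le_max_right _ _) (norm_nonneg _))
  · rw [hLy, hLx]
    exact e1
  · rw [hLy]
    exact e2
  · rw [hLx, hLy]
    exact e3

end IYInfF

/-- item YInfF -/
theorem pr_YInfF (h1 : St_Act) (h2 : St_Est) (h3 : St_YVecF) : St_YInfF := by
  rintro T a b ⟨N, x, y, hx, hy, hxy, hyx⟩
  filter_upwards [IYInfF.half h1 h2 h3 T a b N x y hx hy hxy hyx,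
    IYInfF.half h1 h2 h3 T b a N y x hy hx hyx hxy] with n hn1 hn2
  omega

end

end Pool.Agent.Work.MP_1ddc88_an.GR
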