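import Pool.Agent.Work.MP_1ddc88_an.GR.Stmts

/-!
# MP_1ddc88_an, block GR, item YKill
-/

set_option autoImplicit false

open Filter Topology
open scoped ENNReal Classical

namespace Pool.Agent.Work.MP_1ddc88_an.GR

open TL

noncomputable section

namespace IYKill

/-- The relations of the elements `c X`, where `c` is a central idempotent. -/
theorem alg {R : Type} [Ring R] (c L S P W W' : R) (hcc : c * c = c) (hLL : L * L = L)
    (hSS : S * S = S) (hLS : L * S = 0) (hSL : S * L = 0) (hcL : c * L = L * c)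
    (hcS : c * S = S * c) (r1 : W' * W = P - S * P) (r2 : W * W' = P - L * P) (r3 : P * W = W)
    (r4 : W * P = W) (r5 : P * W' = W') (r6 : W' * P = W') (r7 : P * P = P) (r8 : L * W = 0)
    (r9 : W * S = 0) (r10 : W' * L = 0) (r11 : S * W' = 0) (r12 : L * P = P * L)
    (r13 : S * P = P * S) (r14 : c * P = P * c) (r15 : c * W = W * c) (r16 : c * W' = W' * c)
    (q e g f w w' : R) (hq : q = c * P) (he : e = c * (L * P)) (hg : g = c * (S * P))
    (hf : f = q - e - g) (hw : w = c * W) (hw' : w' = c * W') :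
    e * e = e ∧ f * f = f ∧ g * g = g ∧ e * f = 0 ∧ f * e = 0 ∧ e * g = 0 ∧ g * e = 0 ∧
    f * g = 0 ∧ g * f = 0 ∧ w' * w = e + f ∧ w * w' = f + g ∧ w * (e + f) = w ∧
    (f + g) * w = w ∧ w' * (f + g) = w' ∧ (e + f) * w' = w' := by
  have cm : ∀ X Y : R, c * X = X * c → (c * X) * (c * Y) = c * (X * Y) := by
    intro X Y hX
    calc (c * X) * (c * Y) = c * (X * c) * Y := by simp only [mul_assoc]
      _ = c * (c * X) * Y := by rw [hX]
      _ = (c * c) * (X * Y) := by simp only [mul_assoc]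
      _ = c * (X * Y) := by rw [hcc]
  have cLP : c * (L * P) = (L * P) * c := by
    rw [← mul_assoc, hcL, mul_assoc, r14, mul_assoc]
  have cSP : c * (S * P) = (S * P) * c := by
    rw [← mul_assoc, hcS, mul_assoc, r14, mul_assoc]
  have a1 : (L * P) * (L * P) = L * P := by
    calc (L * P) * (L * P) = L * (P * L) * P := by simp only [mul_assoc]
      _ = L * (L * P) * P := by rw [r12]
      _ = (L * L) * (P * P) := by simp only [mul_assoc]
      _ = L * P := by rw [hLL, r7]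
  have a2 : (S * P) * (S * P) = S * P := by
    calc (S * P) * (S * P) = S * (P * S) * P := by simp only [mul_assoc]
      _ = S * (S * P) * P := by rw [r13]
      _ = (S * S) * (P * P) := by simp only [mul_assoc]
      _ = S * P := by rw [hSS, r7]
  have a3 : (L * P) * (S * P) = 0 := by
    calc (L * P) * (S * P) = L * (P * S) * P := by simp only [mul_assoc]
      _ = L * (S * P) * P := by rw [r13]
      _ = (L * S) * (P * P) := by simp only [mul_assoc]
      _ = 0 := by rw [hLS, zero_mul]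
  have a4 : (S * P) * (L * P) = 0 := by
    calc (S * P) * (L * P) = S * (P * L) * P := by simp only [mul_assoc]
      _ = S * (L * P) * P := by rw [r12]
      _ = (S * L) * (P * P) := by simp only [mul_assoc]
      _ = 0 := by rw [hSL, zero_mul]
  have a5 : (L * P) * P = L * P := by rw [mul_assoc, r7]
  have a6 : (S * P) * P = S * P := by rw [mul_assoc, r7]
  have a7 : P * (L * P) = L * P := by rw [← mul_assoc, ← r12, mul_assoc, r7]
  have a8 : P * (S * P) = S * P := by rw [← mul_assoc, ← r13, mul_assoc, r7]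
  have qq : q * q = q := by rw [hq, cm P P r14, r7]
  have ee : e * e = e := by rw [he, cm _ _ cLP, a1]
  have gg : g * g = g := by rw [hg, cm _ _ cSP, a2]
  have eg : e * g = 0 := by rw [he, hg, cm _ _ cLP, a3, mul_zero]
  have ge : g * e = 0 := by rw [he, hg, cm _ _ cSP, a4, mul_zero]
  have eq : e * q = e := by rw [he, hq, cm _ _ cLP, a5]
  have gq : g * q = g := by rw [hg, hq, cm _ _ cSP, a6]
  have qe : q * e = e := by rw [he, hq, cm _ _ r14, a7]
  have qg : q * g = g := by rw [hg, hq, cm _ _ r14, a8]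
  have ef : e + f = q - g := by rw [hf]; abel
  have fg : f + g = q - e := by rw [hf]; abel
  refine ⟨ee, ?_, gg, ?_, ?_, eg, ge, ?_, ?_, ?_, ?_, ?_, ?_, ?_, ?_⟩
  · rw [hf]
    simp only [sub_mul, mul_sub, qq, qe, qg, eq, gq, ee, gg, eg, ge]
    abel
  · rw [hf]
    simp only [mul_sub, eq, ee, eg]
    abel
  · rw [hf]
    simp only [sub_mul, qe, ee, ge]
    abel
  · rw [hf]
    simp only [sub_mul, qg, gg, eg]
    abel
  · rw [hf]
    simp only [mul_sub, gq, gg, ge]
    abel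
  · rw [ef, hw', hw, cm _ _ r16, r1, mul_sub, hq, hg]
  · rw [fg, hw', hw, cm _ _ r15, r2, mul_sub, hq, he]
  · rw [ef, mul_sub, hw, hq, hg, cm _ _ r15, cm _ _ r15, r4, ← mul_assoc W, r9]
    simp
  · rw [fg, sub_mul, hw, hq, he, cm _ _ r14, cm _ _ cLP, r3, mul_assoc L, r3, r8]
    simp
  · rw [fg, mul_sub, hw', hq, he, cm _ _ r16, cm _ _ r16, r6, ← mul_assoc W', r10]
    simp
  · rw [ef, sub_mul, hw', hq, hg, cm _ _ r14, cm _ _ cSP, r5, mul_assoc S, r5, r11]
    simp

end IYKill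

/-- item YKill -/
theorem pr_YKill (h1 : St_GAG) (h2 : St_YMet) (h3 : St_YGeo) (h4 : St_YW) (h5 : St_YRel)
    (h6 : St_YGh) (h7 : St_RAlg) : St_YKill := by
  intro T E A
  have hB : S.BddGeo (dY T) := ⟨h2 T, h3 T⟩
  obtain ⟨r1, r2, r3, r4, r5, r6, r7, r8, r9, r10, r11, r12, r13, r14⟩ := h5 T E
  obtain ⟨r14, r15, r16, r17⟩ := r14 A
  have hcc : colY T A * colY T A = colY T A := proj_idem _
  have hLL : lowY T * lowY T = lowY T := proj_idem _
  have hSS : topY T * topY T = topY T := proj_idem _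
  have hLS : lowY T * topY T = 0 := by
    unfold lowY topY
    rw [proj_mul, ← proj_empty]
    congr 1
    ext p
    simp only [Set.mem_inter_iff, Set.mem_setOf_eq, Set.mem_empty_iff_false, iff_false, not_and]
    intro a b
    omega
  have hSL : topY T * lowY T = 0 := by
    unfold lowY topY
    rw [proj_mul, ← proj_empty]
    congr 1
    ext p
    simp only [Set.mem_inter_iff, Set.mem_setOf_eq, Set.mem_empty_iff_false, iff_false, not_and]
    intro a b
    omega
  have hcL : colY T A * lowY T = lowY T * colY T A := by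
    unfold lowY colY
    rw [proj_mul, proj_mul, Set.inter_comm]
  have hcS : colY T A * topY T = topY T * colY T A := by
    unfold topY colY
    rw [proj_mul, proj_mul, Set.inter_comm]
  obtain ⟨q, hq⟩ : ∃ q, q = colY T A * PY E := ⟨_, rfl⟩
  obtain ⟨e, he⟩ : ∃ e, e = colY T A * (lowY T * PY E) := ⟨_, rfl⟩
  obtain ⟨g, hg⟩ : ∃ g, g = colY T A * (topY T * PY E) := ⟨_, rfl⟩
  obtain ⟨f, hf⟩ : ∃ f, f = q - e - g := ⟨_, rfl⟩
  obtain ⟨w, hw⟩ : ∃ w, w = colY T A * wY E := ⟨_, rfl⟩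
  obtain ⟨w', hw'⟩ : ∃ w', w' = colY T A * wY' E := ⟨_, rfl⟩
  obtain ⟨s1, s2, s3, s4, s5, s6, s7, s8, s9, s10, s11, s12, s13, s14, s15⟩ :=
    IYKill.alg (colY T A) (lowY T) (topY T) (PY E) (wY E) (wY' E) hcc hLL hSS hLS hSL hcL hcS
      r1 r2 r3 r4 r5 r6 r7 r8 r9 r10 r11 r12 r13 r14 r15 r16 q e g f w w' hq he hg hf hw hw'
  obtain ⟨m1, m2⟩ := h7 (OpY (Yt T)) e f g w w' s1 s2 s3 s4 s5 s6 s7 s8 s9 s10 s11 s12 s13
    s14 s15
  -- membership
  have hgG : g ∈ GhY (dY T) := by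
    rw [hg]
    exact h6 T E A
  have hP : ∀ X ∈ RoeY (dY T), X ∈ RoeP (dY T) := by
    intro X hX
    refine ⟨0, ?_⟩
    rw [zero_smul, sub_zero]
    exact hX
  have hq' : q ∈ RoeP (dY T) := hP _ (hq ▸ (h4 T E _).1)
  have he' : e ∈ RoeP (dY T) := by
    refine hP _ ?_
    rw [he, ← mul_assoc]
    unfold colY lowY
    rw [proj_mul]
    exact (h4 T E _).1
  have hg' : g ∈ RoeP (dY T) := hP _ hgG.1
  have hwP : w ∈ RoeP (dY T) := hP _ (hw ▸ (h4 T E _).2.1)
  have hwP' : w' ∈ RoeP (dY T) := hP _ (hw' ▸ (h4 T E _).2.2)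
  have hadd : ∀ X Y, X ∈ RoeP (dY T) → Y ∈ RoeP (dY T) → X + Y ∈ RoeP (dY T) := fun X Y hX hY =>
    (h1 _ (dY T) hB X Y g g hX hY hgG hgG).1.1
  have hmul : ∀ X Y, X ∈ RoeP (dY T) → Y ∈ RoeP (dY T) → X * Y ∈ RoeP (dY T) := fun X Y hX hY =>
    (h1 _ (dY T) hB X Y g g hX hY hgG hgG).1.2.1
  have hsm : ∀ (c : ℂ) X, X ∈ RoeP (dY T) → c • X ∈ RoeP (dY T) := fun c X hX =>
    (h1 _ (dY T) hB X X g g hX hX hgG hgG).1.2.2.1 c
  have hone : (1 : OpY (Yt T)) ∈ RoeP (dY T) := (h1 _ (dY T) hB e e g g he' he' hgG hgG).1.2.2.2.1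
  have hzero : (0 : OpY (Yt T)) ∈ RoeP (dY T) :=
    (h1 _ (dY T) hB e e g g he' he' hgG hgG).1.2.2.2.2.1
  have hzG : (0 : OpY (Yt T)) ∈ GhY (dY T) :=
    (h1 _ (dY T) hB e e g g he' he' hgG hgG).2.2.2.2.2
  have hngG : -g ∈ GhY (dY T) := by
    have h8 := (h1 _ (dY T) hB e e g g he' he' hgG hgG).2.2.1 (-1)
    rwa [neg_one_smul] at h8
  have hsub : ∀ X Y, X ∈ RoeP (dY T) → Y ∈ RoeP (dY T) → X - Y ∈ RoeP (dY T) := by
    intro X Y hX hY
    have h8 := hadd X ((-1 : ℂ) • Y) hX (hsm _ _ hY)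
    rwa [neg_one_smul, ← sub_eq_add_neg] at h8
  have hf' : f ∈ RoeP (dY T) := hf ▸ hsub _ _ (hsub _ _ hq' he') hg'
  refine ⟨1, !![0, e * w'; 0, f * w' + 1 - f - g], !![0, 0; w * e, w * f + 1 - f - g],
    ?_, ?_, ?_, ?_⟩
  · intro a b
    fin_cases a <;> fin_cases b
    · exact hzero
    · exact hmul _ _ he' hwP'
    · exact hzero
    · exact hsub _ _ (hsub _ _ (hadd _ _ (hmul _ _ hf' hwP') hone) hf') hg'
  · intro a b
    fin_cases a <;> fin_cases b
    · exact hzero
    · exact hzero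
    · exact hmul _ _ hwP he'
    · exact hsub _ _ (hsub _ _ (hadd _ _ (hmul _ _ hwP hf') hone) hf') hg'
  · intro a b
    rw [m1, ← r17, ← he]
    fin_cases a <;> fin_cases b
    · show e - e ∈ GhY (dY T)
      rw [sub_self]
      exact hzG
    · show (0 : OpY (Yt T)) - 0 ∈ GhY (dY T)
      rw [sub_self]
      exact hzG
    · show (0 : OpY (Yt T)) - 0 ∈ GhY (dY T)
      rw [sub_self]
      exact hzG
    · show (1 : OpY (Yt T)) - g - 1 ∈ GhY (dY T)
      have h9 : (1 : OpY (Yt T)) - g - 1 = -g := by abel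
      rw [h9]
      exact hngG
  · intro a b
    rw [m2]
    fin_cases a <;> fin_cases b
    · show (0 : OpY (Yt T)) - 0 ∈ GhY (dY T)
      rw [sub_self]
      exact hzG
    · show (0 : OpY (Yt T)) - 0 ∈ GhY (dY T)
      rw [sub_self]
      exact hzG
    · show (0 : OpY (Yt T)) - 0 ∈ GhY (dY T)
      rw [sub_self]
      exact hzG
    · show (1 : OpY (Yt T)) - 1 ∈ GhY (dY T)
      rw [sub_self]
      exact hzG

end

end Pool.Agent.Work.MP_1ddc88_an.GR
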