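import Pool.Agent.Work.MP_1ddc88_an.GR.StmtsA
import Pool.Agent.Work.MP_1ddc88_an.GR.I_YKill

/-!
# MP_1ddc88_an, block GR, item YKillF
-/

set_option autoImplicit false

open Filter Topology
open scoped ENNReal Classical

namespace Pool.Agent.Work.MP_1ddc88_an.GR

open TL

noncomputable section

namespace IYKillF

variable {Y : Type}

theorem slc_proj (h9 : St_Slc) (U : Set Y) (k : ℕ) (ξ : HY Y) :
    slc Y k (proj {p : Y × ℕ | p.1 ∈ U} ξ) = proj {p : Y × ℕ | p.1 ∈ U} (slc Y k ξ) := by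
  ext p
  obtain ⟨y, j⟩ := p
  rw [h9, proj_apply, proj_apply, h9]
  simp only [Set.mem_setOf_eq]
  split_ifs <;> rfl

theorem ampR (h9 : St_Slc) (h10 : St_AmX) (B : OpY Y) (U : Set Y) :
    amp (B * proj {p : Y × ℕ | p.1 ∈ U}) = amp B * proj {p : Y × ℕ | p.1 ∈ U} := by
  apply op_ext
  intro ξ p
  obtain ⟨y, k⟩ := p
  rw [(h10 Y (B * proj {p : Y × ℕ | p.1 ∈ U})).1 ξ y k]
  show B (proj {p : Y × ℕ | p.1 ∈ U} (slc Y k ξ)) (y, 0) =
    amp B (proj {p : Y × ℕ | p.1 ∈ U} ξ) (y, k)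
  rw [(h10 Y B).1 _ y k, slc_proj h9]

theorem ampL (h10 : St_AmX) (B : OpY Y) (U : Set Y) :
    amp (proj {p : Y × ℕ | p.1 ∈ U} * B) = proj {p : Y × ℕ | p.1 ∈ U} * amp B := by
  apply op_ext
  intro ξ p
  obtain ⟨y, k⟩ := p
  rw [(h10 Y (proj {p : Y × ℕ | p.1 ∈ U} * B)).1 ξ y k]
  show proj {p : Y × ℕ | p.1 ∈ U} (B (slc Y k ξ)) (y, 0) =
    proj {p : Y × ℕ | p.1 ∈ U} (amp B ξ) (y, k)
  rw [proj_apply, proj_apply, (h10 Y B).1 ξ y k]
  rfl

end IYKillF

open IYKillF in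
/-- item YKillF -/
theorem pr_YKillF (h1 : St_GAG) (h2 : St_YMet) (h3 : St_YGeo) (h4 : St_YF) (h5 : St_YW)
    (h6 : St_YRel) (h7 : St_YGh) (h8 : St_RAlg) (h9 : St_Slc) (h10 : St_AmX) (h11 : St_AmA)
    (h12 : St_AmP) (h13 : St_AmJ) (h14 : St_AmR) (h15 : St_AmG) : St_YKillF := by
  intro T E a
  have hB : S.BddGeo (dY T) := ⟨h2 T, h3 T⟩
  obtain ⟨r1, r2, r3, r4, r5, r6, r7, r8, r9, r10, r11, r12, r13, r14⟩ := h6 T E
  have hL : lowY T = proj {p : Yt T × ℕ | p.1 ∈ {y : Yt T | y.1.1.1 = 0}} := rfl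
  have hS : topY T = proj {p : Yt T × ℕ | p.1 ∈ {y : Yt T | y.1.1.1 = y.1.2 + 1}} := rfl
  have hLL : lowY T * lowY T = lowY T := proj_idem _
  have hSS : topY T * topY T = topY T := proj_idem _
  have hLS : lowY T * topY T = 0 := by
    unfold lowY topY
    rw [proj_mul, ← proj_empty]
    congr 1
    ext p
    simp only [Set.mem_inter_iff, Set.mem_setOf_eq, Set.mem_empty_iff_false, iff_false, not_and]
    intro a b
    omega
  have hSL : topY T * lowY T = 0 := by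
    unfold lowY topY
    rw [proj_mul, ← proj_empty]
    congr 1
    ext p
    simp only [Set.mem_inter_iff, Set.mem_setOf_eq, Set.mem_empty_iff_false, iff_false, not_and]
    intro a b
    omega
  obtain ⟨c, hc⟩ : ∃ c : OpY (Yt T), c = JY (fun y : Yt T => a y.1.2) := ⟨_, rfl⟩
  have hcc : c * c = c := by
    rw [hc]
    exact proj_idem _
  have hcL : c * lowY T = lowY T * c := by
    rw [hc]
    unfold lowY JY
    rw [proj_mul, proj_mul, Set.inter_comm]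
  have hcS : c * topY T = topY T * c := by
    rw [hc]
    unfold topY JY
    rw [proj_mul, proj_mul, Set.inter_comm]
  -- slice 0
  have p0 : q0 (Yt T) * PY E = PY E := by
    apply op_ext
    intro ξ p
    show proj {p : Yt T × ℕ | p.2 = 0} (PY E ξ) p = PY E ξ p
    rw [proj_apply]
    obtain ⟨⟨⟨⟨i, v⟩, n⟩, h⟩, k⟩ := p
    rw [(h4 T E ξ n i k v h).1]
    by_cases hk : k = 0
    · rw [if_pos (show ((⟨((⟨i, v⟩, n) : Z T.X), h⟩, k) : Yt T × ℕ) ∈
        {p : Yt T × ℕ | p.2 = 0} from hk)]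
    · rw [if_neg (show ¬ ((⟨((⟨i, v⟩, n) : Z T.X), h⟩, k) : Yt T × ℕ) ∈
        {p : Yt T × ℕ | p.2 = 0} from hk), if_neg hk]
  have w0 : q0 (Yt T) * wY E = wY E := by
    rw [← r3, ← mul_assoc, p0]
  have w0' : q0 (Yt T) * wY' E = wY' E := by
    rw [← r5, ← mul_assoc, p0]
  have am : ∀ B B' : OpY (Yt T), q0 (Yt T) * B' = B' → amp (B * B') = amp B * amp B' :=
    fun B B' h => (h11 _ B B').2.2.2 h
  have az : amp (0 : OpY (Yt T)) = 0 := (h11 _ 0 0).2.2.1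
  have as : ∀ B B' : OpY (Yt T), amp (B - B') = amp B - amp B' := fun B B' => (h11 _ B B').2.1
  have lL : ∀ B : OpY (Yt T), lowY T * amp B = amp (lowY T * B) := fun B => by
    rw [hL, ampL h10]
  have lS : ∀ B : OpY (Yt T), topY T * amp B = amp (topY T * B) := fun B => by
    rw [hS, ampL h10]
  have rL : ∀ B : OpY (Yt T), amp B * lowY T = amp (B * lowY T) := fun B => by
    rw [hL, ampR h9 h10]
  have rS : ∀ B : OpY (Yt T), amp B * topY T = amp (B * topY T) := fun B => by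
    rw [hS, ampR h9 h10]
  have t1 : amp (wY' E) * amp (wY E) = amp (PY E) - topY T * amp (PY E) := by
    rw [← am _ _ w0, r1, as, lS]
  have t2 : amp (wY E) * amp (wY' E) = amp (PY E) - lowY T * amp (PY E) := by
    rw [← am _ _ w0', r2, as, lL]
  have t3 : amp (PY E) * amp (wY E) = amp (wY E) := by rw [← am _ _ w0, r3]
  have t4 : amp (wY E) * amp (PY E) = amp (wY E) := by rw [← am _ _ p0, r4]
  have t5 : amp (PY E) * amp (wY' E) = amp (wY' E) := by rw [← am _ _ w0', r5]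
  have t6 : amp (wY' E) * amp (PY E) = amp (wY' E) := by rw [← am _ _ p0, r6]
  have t7 : amp (PY E) * amp (PY E) = amp (PY E) := by rw [← am _ _ p0, r7]
  have t8 : lowY T * amp (wY E) = 0 := by rw [lL, r8, az]
  have t9 : amp (wY E) * topY T = 0 := by rw [rS, r9, az]
  have t10 : amp (wY' E) * lowY T = 0 := by rw [rL, r10, az]
  have t11 : topY T * amp (wY' E) = 0 := by rw [lS, r11, az]
  have t12 : lowY T * amp (PY E) = amp (PY E) * lowY T := by rw [lL, r12, rL]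
  have t13 : topY T * amp (PY E) = amp (PY E) * topY T := by rw [lS, r13, rS]
  have t14 : c * amp (PY E) = amp (PY E) * c := by
    rw [hc]
    exact h13 T a (PY E) fun C => (r14 C).1
  have t15 : c * amp (wY E) = amp (wY E) * c := by
    rw [hc]
    exact h13 T a (wY E) fun C => (r14 C).2.1
  have t16 : c * amp (wY' E) = amp (wY' E) * c := by
    rw [hc]
    exact h13 T a (wY' E) fun C => (r14 C).2.2.1
  obtain ⟨q, hq⟩ : ∃ q, q = c * amp (PY E) := ⟨_, rfl⟩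
  obtain ⟨e, he⟩ : ∃ e, e = c * (lowY T * amp (PY E)) := ⟨_, rfl⟩
  obtain ⟨g, hg⟩ : ∃ g, g = c * (topY T * amp (PY E)) := ⟨_, rfl⟩
  obtain ⟨f, hf⟩ : ∃ f, f = q - e - g := ⟨_, rfl⟩
  obtain ⟨w, hw⟩ : ∃ w, w = c * amp (wY E) := ⟨_, rfl⟩
  obtain ⟨w', hw'⟩ : ∃ w', w' = c * amp (wY' E) := ⟨_, rfl⟩
  obtain ⟨s1, s2, s3, s4, s5, s6, s7, s8, s9, s10, s11, s12, s13, s14, s15⟩ :=
    IYKill.alg c (lowY T) (topY T) (amp (PY E)) (amp (wY E)) (amp (wY' E)) hcc hLL hSS hLS hSL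
      hcL hcS t1 t2 t3 t4 t5 t6 t7 t8 t9 t10 t11 t12 t13 t14 t15 t16 q e g f w w' hq he hg hf hw hw'
  obtain ⟨m1, m2⟩ := h8 (OpY (Yt T)) e f g w w' s1 s2 s3 s4 s5 s6 s7 s8 s9 s10 s11 s12 s13
    s14 s15
  -- the projection `e`
  have hu : colY T Set.univ = 1 := by
    unfold colY
    rw [← proj_univ]
    congr 1
  have heF : e = eF T a := by
    have k1 := (r14 Set.univ).2.2.2
    rw [hu, one_mul] at k1
    rw [he, lL, k1, hc]
    unfold eY JY eF
    rw [h12, proj_mul]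
    congr 1
    ext p
    obtain ⟨y, j⟩ := p
    simp only [Set.mem_inter_iff, Set.mem_setOf_eq, Set.mem_univ, true_and, Prod.mk.injEq,
      and_true]
    constructor
    · rintro ⟨hj, n, rfl⟩
      exact ⟨n, j, hj, rfl, rfl⟩
    · rintro ⟨n, j', hj, rfl, rfl⟩
      exact ⟨hj, n, rfl⟩
  -- membership
  have hgG : g ∈ GhY (dY T) := by
    have k1 := h7 T E Set.univ
    rw [hu, one_mul] at k1
    rw [hg, lS, hc]
    exact h15 _ (dY T) hB _ k1 _
  have hP : ∀ X ∈ RoeY (dY T), X ∈ RoeP (dY T) := by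
    intro X hX
    refine ⟨0, ?_⟩
    rw [zero_smul, sub_zero]
    exact hX
  have hq' : q ∈ RoeP (dY T) := by
    refine hP _ ?_
    have k1 := (h5 T E Set.univ).1
    rw [proj_univ, one_mul] at k1
    rw [hq, hc]
    exact h14 _ (dY T) hB _ k1 _
  have he' : e ∈ RoeP (dY T) := by
    refine hP _ ?_
    rw [he, lL, hc]
    refine h14 _ (dY T) hB _ ?_ _
    exact (h5 T E _).1
  have hg' : g ∈ RoeP (dY T) := hP _ hgG.1
  have hwP : w ∈ RoeP (dY T) := by
    refine hP _ ?_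
    have k1 := (h5 T E Set.univ).2.1
    rw [proj_univ, one_mul] at k1
    rw [hw, hc]
    exact h14 _ (dY T) hB _ k1 _
  have hwP' : w' ∈ RoeP (dY T) := by
    refine hP _ ?_
    have k1 := (h5 T E Set.univ).2.2
    rw [proj_univ, one_mul] at k1
    rw [hw', hc]
    exact h14 _ (dY T) hB _ k1 _
  have hadd : ∀ X Y, X ∈ RoeP (dY T) → Y ∈ RoeP (dY T) → X + Y ∈ RoeP (dY T) := fun X Y hX hY =>
    (h1 _ (dY T) hB X Y g g hX hY hgG hgG).1.1
  have hmul : ∀ X Y, X ∈ RoeP (dY T) → Y ∈ RoeP (dY T) → X * Y ∈ RoeP (dY T) := fun X Y hX hY =>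
    (h1 _ (dY T) hB X Y g g hX hY hgG hgG).1.2.1
  have hsm : ∀ (c : ℂ) X, X ∈ RoeP (dY T) → c • X ∈ RoeP (dY T) := fun c X hX =>
    (h1 _ (dY T) hB X X g g hX hX hgG hgG).1.2.2.1 c
  have hone : (1 : OpY (Yt T)) ∈ RoeP (dY T) := (h1 _ (dY T) hB e e g g he' he' hgG hgG).1.2.2.2.1
  have hzero : (0 : OpY (Yt T)) ∈ RoeP (dY T) :=
    (h1 _ (dY T) hB e e g g he' he' hgG hgG).1.2.2.2.2.1
  have hzG : (0 : OpY (Yt T)) ∈ GhY (dY T) :=
    (h1 _ (dY T) hB e e g g he' he' hgG hgG).2.2.2.2.2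
  have hngG : -g ∈ GhY (dY T) := by
    have h8 := (h1 _ (dY T) hB e e g g he' he' hgG hgG).2.2.1 (-1)
    rwa [neg_one_smul] at h8
  have hsub : ∀ X Y, X ∈ RoeP (dY T) → Y ∈ RoeP (dY T) → X - Y ∈ RoeP (dY T) := by
    intro X Y hX hY
    have h8 := hadd X ((-1 : ℂ) • Y) hX (hsm _ _ hY)
    rwa [neg_one_smul, ← sub_eq_add_neg] at h8
  have hf' : f ∈ RoeP (dY T) := hf ▸ hsub _ _ (hsub _ _ hq' he') hg'
  refine ⟨1, !![0, e * w'; 0, f * w' + 1 - f - g], !![0, 0; w * e, w * f + 1 - f - g],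
    ?_, ?_, ?_, ?_⟩
  · intro a b
    fin_cases a <;> fin_cases b
    · exact hzero
    · exact hmul _ _ he' hwP'
    · exact hzero
    · exact hsub _ _ (hsub _ _ (hadd _ _ (hmul _ _ hf' hwP') hone) hf') hg'
  · intro a b
    fin_cases a <;> fin_cases b
    · exact hzero
    · exact hzero
    · exact hmul _ _ hwP he'
    · exact hsub _ _ (hsub _ _ (hadd _ _ (hmul _ _ hwP hf') hone) hf') hg'
  · intro a b
    rw [m1, ← heF]
    fin_cases a <;> fin_cases b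
    · show e - e ∈ GhY (dY T)
      rw [sub_self]
      exact hzG
    · show (0 : OpY (Yt T)) - 0 ∈ GhY (dY T)
      rw [sub_self]
      exact hzG
    · show (0 : OpY (Yt T)) - 0 ∈ GhY (dY T)
      rw [sub_self]
      exact hzG
    · show (1 : OpY (Yt T)) - g - 1 ∈ GhY (dY T)
      have h9 : (1 : OpY (Yt T)) - g - 1 = -g := by abel
      rw [h9]
      exact hngG
  · intro a b
    rw [m2]
    fin_cases a <;> fin_cases b
    · show (0 : OpY (Yt T)) - 0 ∈ GhY (dY T)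
      rw [sub_self]
      exact hzG
    · show (0 : OpY (Yt T)) - 0 ∈ GhY (dY T)
      rw [sub_self]
      exact hzG
    · show (0 : OpY (Yt T)) - 0 ∈ GhY (dY T)
      rw [sub_self]
      exact hzG
    · show (1 : OpY (Yt T)) - 1 ∈ GhY (dY T)
      rw [sub_self]
      exact hzG

end

end Pool.Agent.Work.MP_1ddc88_an.GR
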