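import Pool.Agent.Work.MP_1ddc88_an.GR.Stmts

/-!
# MP_1ddc88_an, block GR, item YPR: products with the averaging projection are in the Roe algebra
-/

set_option autoImplicit false

open Filter Topology
open scoped ENNReal Classical

namespace Pool.Agent.Work.MP_1ddc88_an.GR

open TL

namespace IYPR

theorem pow_mul_P {R : Type*} [Ring R] (A P : R) (h1 : A * P = P) (k : ℕ) : A ^ k * P = P := by
  induction k with
  | zero => rw [pow_zero, one_mul]
  | succ k ih => rw [pow_succ, mul_assoc, h1, ih]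

theorem sub_pow' {R : Type*} [Ring R] (A P : R) (h1 : A * P = P) (h2 : P * A = P)
    (h3 : P * P = P) (k : ℕ) : (A - P) ^ (k + 1) = A ^ (k + 1) - P := by
  induction k with
  | zero => rw [zero_add, pow_one, pow_one]
  | succ k ih =>
    rw [pow_succ, ih, sub_mul, mul_sub, mul_sub, pow_mul_P A P h1, h2, h3, sub_self, sub_zero,
      ← pow_succ]

theorem finProp (h : St_GFP) {Y : Type} (d : Y → Y → ℕ) (hd : S.BddGeo d) (R : ℕ) (B A : OpY Y)
    (hB : FP d R B) (hA : FP d 1 A) (k : ℕ) : FP d (R + k) (B * A ^ k) := by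
  induction k with
  | zero =>
    rw [pow_zero, mul_one, add_zero]
    exact hB
  | succ k ih =>
    rw [pow_succ, ← mul_assoc, ← add_assoc]
    exact (h Y d hd (R + k) 1 _ _ ih hA).1

end IYPR

open IYPR in
/-- Item YPR. -/
theorem pr_YPR (h1 : St_GFP) (h2 : St_GLC) (h3 : St_YMet) (h4 : St_YGeo) (h5 : St_YFP)
    (h6 : St_YA) : St_YPR := by
  intro T E R B hB
  have hd : S.BddGeo (dY T) := ⟨fun x y z => h3 T x y z, fun R => h4 T R⟩
  obtain ⟨hA2, hAP, hPA, hPP, lam, hl0, hl1, hl⟩ := h6 T E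
  have hA1 : FP (dY T) 1 (AY E) := (h5 T E).1
  unfold RoeY
  have hlim : Tendsto (fun k : ℕ => B * AY E ^ (k + 1)) atTop (𝓝 (B * PY E)) := by
    rw [tendsto_iff_norm_sub_tendsto_zero]
    have hle : ∀ k : ℕ, ‖B * AY E ^ (k + 1) - B * PY E‖ ≤ ‖B‖ * lam ^ (k + 1) := by
      intro k
      rw [← mul_sub, ← sub_pow' _ _ hAP hPA hPP k]
      refine (norm_mul_le _ _).trans (mul_le_mul_of_nonneg_left ?_ (norm_nonneg _))
      exact (norm_pow_le' _ (Nat.succ_pos k)).trans (pow_le_pow_left₀ (norm_nonneg _) hl _)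
    have h0 : Tendsto (fun k : ℕ => ‖B‖ * lam ^ (k + 1)) atTop (𝓝 0) := by
      have := ((tendsto_pow_atTop_nhds_zero_of_lt_one hl0 hl1).comp
        (tendsto_add_atTop_nat 1)).const_mul ‖B‖
      simpa using this
    exact squeeze_zero (fun _ => norm_nonneg _) hle h0
  refine mem_closure_of_tendsto hlim (Eventually.of_forall fun k => ?_)
  refine ⟨⟨R + (k + 1), finProp h1 (dY T) hd R B _ hB hA1 (k + 1)⟩, ?_⟩
  rw [pow_succ, ← mul_assoc]
  exact (h2 (Yt T) (dY T) hd (R + k) _ _ (finProp h1 (dY T) hd R B _ hB hA1 k) hA2).1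

end Pool.Agent.Work.MP_1ddc88_an.GR
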