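import Pool.Agent.Work.MP_1ddc88_an.GR.Stmts

/-!
# MP_1ddc88_an, block GR, item YRel: relations between the operators on the space of graphs
-/

set_option autoImplicit false

open Filter Topology
open scoped ENNReal Classical

namespace Pool.Agent.Work.MP_1ddc88_an.GR

open TL

noncomputable section

namespace IYRel

variable {T : Tower}

theorem N_ne (T : Tower) (i : ℕ) : (T.X.N i : ℂ) ≠ 0 := by
  have : 0 < T.X.N i := Fin.pos (T.X.base i)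
  exact_mod_cast this.ne'

/-- The average over the level `i` of `T_n`. -/
def av (ξ : HY (Yt T)) (n i : ℕ) : ℂ :=
  if h : i ≤ n + 1 then
    (T.X.N i : ℂ)⁻¹ * ∑ u : Fin (T.X.N i), ξ (⟨(⟨i, u⟩, n), h⟩, 0) else 0

theorem av_eq (ξ : HY (Yt T)) (n i : ℕ) (h : i ≤ n + 1) :
    av ξ n i = (T.X.N i : ℂ)⁻¹ * ∑ u : Fin (T.X.N i), ξ (⟨(⟨i, u⟩, n), h⟩, 0) := dif_pos h

/-- The square root of `d j`. -/
def sd (T : Tower) (j : ℕ) : ℂ := ((Real.sqrt (T.d j) : ℝ) : ℂ)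

theorem sd_ne (hd : ∀ i, 1 ≤ T.d i) (j : ℕ) : sd T j ≠ 0 := by
  unfold sd
  rw [Complex.ofReal_ne_zero]
  have h : (0 : ℝ) < T.d j := by exact_mod_cast hd j
  exact (Real.sqrt_pos.2 h).ne'

theorem av_const (η : HY (Yt T)) (n i : ℕ) (h : i ≤ n + 1) (c : ℂ)
    (hc : ∀ u : Fin (T.X.N i), η (⟨(⟨i, u⟩, n), h⟩, 0) = c) : av η n i = c := by
  rw [av_eq _ _ _ h, Finset.sum_congr rfl (fun u _ => hc u), Finset.sum_const, Finset.card_univ,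
    Fintype.card_fin, nsmul_eq_mul, inv_mul_cancel_left₀ (N_ne T i)]

/-! ### Formulas for the operators -/

theorem fP (h2 : St_YF) (E : Emb T) (ξ : HY (Yt T)) (n i k : ℕ) (v : Fin (T.X.N i))
    (h : i ≤ n + 1) : PY E ξ (⟨(⟨i, v⟩, n), h⟩, k) = if k = 0 then av ξ n i else 0 := by
  rw [(h2 T E ξ n i k v h).1, av_eq _ _ _ h]

theorem fw0 (h2 : St_YF) (E : Emb T) (ξ : HY (Yt T)) (n k : ℕ) (v : Fin (T.X.N 0))
    (h : 0 ≤ n + 1) : wY E ξ (⟨(⟨0, v⟩, n), h⟩, k) = 0 := (h2 T E ξ n 0 k v h).2.1 rfl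

theorem fw (h2 : St_YF) (E : Emb T) (ξ : HY (Yt T)) (n j k : ℕ) (v : Fin (T.X.N (j + 1)))
    (h : j + 1 ≤ n + 1) : wY E ξ (⟨(⟨j + 1, v⟩, n), h⟩, k) =
      if k = 0 then (sd T j)⁻¹ * av ξ n j else 0 := by
  rw [(h2 T E ξ n (j + 1) k v h).2.2.1 j rfl, av_eq _ _ _ (by omega)]
  rfl

theorem fwt (h2 : St_YF) (E : Emb T) (ξ : HY (Yt T)) (n k : ℕ) (v : Fin (T.X.N (n + 1)))
    (h : n + 1 ≤ n + 1) : wY' E ξ (⟨(⟨n + 1, v⟩, n), h⟩, k) = 0 :=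
  (h2 T E ξ n (n + 1) k v h).2.2.2.1 rfl

theorem fw' (h2 : St_YF) (E : Emb T) (ξ : HY (Yt T)) (n i k : ℕ) (v : Fin (T.X.N i))
    (h : i ≤ n + 1) (hi : i ≤ n) : wY' E ξ (⟨(⟨i, v⟩, n), h⟩, k) =
      if k = 0 then sd T i * av ξ n (i + 1) else 0 := by
  rw [(h2 T E ξ n i k v h).2.2.2.2 hi, av_eq _ _ _ (by omega)]
  rfl

theorem flow (ξ : HY (Yt T)) (n i k : ℕ) (v : Fin (T.X.N i)) (h : i ≤ n + 1) :
    lowY T ξ (⟨(⟨i, v⟩, n), h⟩, k) = if i = 0 then ξ (⟨(⟨i, v⟩, n), h⟩, k) else 0 := by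
  unfold lowY
  rw [proj_apply]
  by_cases hh : i = 0
  · rw [if_pos hh, if_pos (by exact hh)]
  · rw [if_neg hh, if_neg (by exact hh)]

theorem ftop (ξ : HY (Yt T)) (n i k : ℕ) (v : Fin (T.X.N i)) (h : i ≤ n + 1) :
    topY T ξ (⟨(⟨i, v⟩, n), h⟩, k) = if i = n + 1 then ξ (⟨(⟨i, v⟩, n), h⟩, k) else 0 := by
  unfold topY
  rw [proj_apply]
  by_cases hh : i = n + 1
  · rw [if_pos hh, if_pos (by exact hh)]
  · rw [if_neg hh, if_neg (by exact hh)]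

theorem fcol (A : Set ℕ) (ξ : HY (Yt T)) (n i k : ℕ) (v : Fin (T.X.N i)) (h : i ≤ n + 1) :
    colY T A ξ (⟨(⟨i, v⟩, n), h⟩, k) = if n ∈ A then ξ (⟨(⟨i, v⟩, n), h⟩, k) else 0 := by
  unfold colY
  rw [proj_apply]
  by_cases hh : n ∈ A
  · rw [if_pos hh, if_pos (by exact hh)]
  · rw [if_neg hh, if_neg (by exact hh)]

/-! ### Formulas for the averages -/

theorem aP (h2 : St_YF) (E : Emb T) (ξ : HY (Yt T)) (n i : ℕ) (h : i ≤ n + 1) :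
    av (PY E ξ) n i = av ξ n i :=
  av_const _ n i h _ fun u => by rw [fP h2, if_pos rfl]

theorem aw0 (h2 : St_YF) (E : Emb T) (ξ : HY (Yt T)) (n : ℕ) : av (wY E ξ) n 0 = 0 :=
  av_const _ n 0 (Nat.zero_le _) _ fun u => fw0 h2 E ξ n 0 u _

theorem aw (h2 : St_YF) (E : Emb T) (ξ : HY (Yt T)) (n j : ℕ) (h : j ≤ n) :
    av (wY E ξ) n (j + 1) = (sd T j)⁻¹ * av ξ n j :=
  av_const _ n (j + 1) (by omega) _ fun u => by rw [fw h2, if_pos rfl]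

theorem awt (h2 : St_YF) (E : Emb T) (ξ : HY (Yt T)) (n : ℕ) : av (wY' E ξ) n (n + 1) = 0 :=
  av_const _ n (n + 1) le_rfl _ fun u => fwt h2 E ξ n 0 u _

theorem aw' (h2 : St_YF) (E : Emb T) (ξ : HY (Yt T)) (n i : ℕ) (h : i ≤ n) :
    av (wY' E ξ) n i = sd T i * av ξ n (i + 1) :=
  av_const _ n i (by omega) _ fun u => by rw [fw' h2 E ξ n i 0 u _ h, if_pos rfl]

theorem alow (ξ : HY (Yt T)) (n i : ℕ) (h : i ≤ n + 1) :
    av (lowY T ξ) n i = if i = 0 then av ξ n i else 0 := by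
  rw [av_eq _ _ _ h, av_eq _ _ _ h]
  by_cases hh : i = 0
  · rw [if_pos hh]
    congr 1
    exact Finset.sum_congr rfl fun u _ => by rw [flow, if_pos hh]
  · rw [if_neg hh, Finset.sum_eq_zero, mul_zero]
    intro u _
    rw [flow, if_neg hh]

theorem atop (ξ : HY (Yt T)) (n i : ℕ) (h : i ≤ n + 1) :
    av (topY T ξ) n i = if i = n + 1 then av ξ n i else 0 := by
  rw [av_eq _ _ _ h, av_eq _ _ _ h]
  by_cases hh : i = n + 1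
  · rw [if_pos hh]
    congr 1
    exact Finset.sum_congr rfl fun u _ => by rw [ftop, if_pos hh]
  · rw [if_neg hh, Finset.sum_eq_zero, mul_zero]
    intro u _
    rw [ftop, if_neg hh]

theorem acol (A : Set ℕ) (ξ : HY (Yt T)) (n i : ℕ) (h : i ≤ n + 1) :
    av (colY T A ξ) n i = if n ∈ A then av ξ n i else 0 := by
  rw [av_eq _ _ _ h, av_eq _ _ _ h]
  by_cases hh : n ∈ A
  · rw [if_pos hh]
    congr 1
    exact Finset.sum_congr rfl fun u _ => by rw [fcol, if_pos hh]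
  · rw [if_neg hh, Finset.sum_eq_zero, mul_zero]
    intro u _
    rw [fcol, if_neg hh]

/-! ### The relations -/

theorem r1 (hd : ∀ i, 1 ≤ T.d i) (h2 : St_YF) (E : Emb T) :
    wY' E * wY E = PY E - topY T * PY E := by
  apply op_ext
  rintro ξ ⟨⟨⟨⟨i, v⟩, n⟩, h⟩, k⟩
  show wY' E (wY E ξ) (⟨(⟨i, v⟩, n), h⟩, k) =
    PY E ξ (⟨(⟨i, v⟩, n), h⟩, k) - topY T (PY E ξ) (⟨(⟨i, v⟩, n), h⟩, k)
  have h' : i ≤ n + 1 := h
  rw [ftop, fP h2]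
  rcases Nat.lt_or_ge n i with hi | hi
  · have e : i = n + 1 := by omega
    subst e
    rw [fwt h2, if_pos rfl, sub_self]
  · rw [fw' h2 E _ n i k v h hi, aw h2 E ξ n i hi, if_neg (show ¬ i = n + 1 by omega), sub_zero,
      mul_inv_cancel_left₀ (sd_ne hd i)]

theorem r2 (hd : ∀ i, 1 ≤ T.d i) (h2 : St_YF) (E : Emb T) :
    wY E * wY' E = PY E - lowY T * PY E := by
  apply op_ext
  rintro ξ ⟨⟨⟨⟨i, v⟩, n⟩, h⟩, k⟩
  show wY E (wY' E ξ) (⟨(⟨i, v⟩, n), h⟩, k) =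
    PY E ξ (⟨(⟨i, v⟩, n), h⟩, k) - lowY T (PY E ξ) (⟨(⟨i, v⟩, n), h⟩, k)
  have h' : i ≤ n + 1 := h
  rw [flow, fP h2]
  rcases i with _ | j
  · rw [fw0 h2, if_pos rfl, sub_self]
  · rw [fw h2, aw' h2 E ξ n j (by omega), if_neg (show ¬ j + 1 = 0 by omega), sub_zero,
      inv_mul_cancel_left₀ (sd_ne hd j)]

theorem r3 (h2 : St_YF) (E : Emb T) : PY E * wY E = wY E := by
  apply op_ext
  rintro ξ ⟨⟨⟨⟨i, v⟩, n⟩, h⟩, k⟩
  show PY E (wY E ξ) (⟨(⟨i, v⟩, n), h⟩, k) = wY E ξ (⟨(⟨i, v⟩, n), h⟩, k)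
  have h' : i ≤ n + 1 := h
  rw [fP h2]
  rcases i with _ | j
  · rw [fw0 h2, aw0 h2, ite_self]
  · rw [fw h2, aw h2 E ξ n j (by omega)]

theorem r4 (h2 : St_YF) (E : Emb T) : wY E * PY E = wY E := by
  apply op_ext
  rintro ξ ⟨⟨⟨⟨i, v⟩, n⟩, h⟩, k⟩
  show wY E (PY E ξ) (⟨(⟨i, v⟩, n), h⟩, k) = wY E ξ (⟨(⟨i, v⟩, n), h⟩, k)
  have h' : i ≤ n + 1 := h
  rcases i with _ | j
  · rw [fw0 h2, fw0 h2]
  · rw [fw h2, fw h2, aP h2 E ξ n j (by omega)]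

theorem r5 (h2 : St_YF) (E : Emb T) : PY E * wY' E = wY' E := by
  apply op_ext
  rintro ξ ⟨⟨⟨⟨i, v⟩, n⟩, h⟩, k⟩
  show PY E (wY' E ξ) (⟨(⟨i, v⟩, n), h⟩, k) = wY' E ξ (⟨(⟨i, v⟩, n), h⟩, k)
  have h' : i ≤ n + 1 := h
  rw [fP h2]
  rcases Nat.lt_or_ge n i with hi | hi
  · have e : i = n + 1 := by omega
    subst e
    rw [fwt h2, awt h2, ite_self]
  · rw [fw' h2 E ξ n i k v h hi, aw' h2 E ξ n i hi]

theorem r6 (h2 : St_YF) (E : Emb T) : wY' E * PY E = wY' E := by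
  apply op_ext
  rintro ξ ⟨⟨⟨⟨i, v⟩, n⟩, h⟩, k⟩
  show wY' E (PY E ξ) (⟨(⟨i, v⟩, n), h⟩, k) = wY' E ξ (⟨(⟨i, v⟩, n), h⟩, k)
  have h' : i ≤ n + 1 := h
  rcases Nat.lt_or_ge n i with hi | hi
  · have e : i = n + 1 := by omega
    subst e
    rw [fwt h2, fwt h2]
  · rw [fw' h2 E ξ n i k v h hi, fw' h2 E _ n i k v h hi, aP h2 E ξ n (i + 1) (by omega)]

theorem r7 (h2 : St_YF) (E : Emb T) : PY E * PY E = PY E := by
  apply op_ext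
  rintro ξ ⟨⟨⟨⟨i, v⟩, n⟩, h⟩, k⟩
  show PY E (PY E ξ) (⟨(⟨i, v⟩, n), h⟩, k) = PY E ξ (⟨(⟨i, v⟩, n), h⟩, k)
  rw [fP h2, fP h2, aP h2 E ξ n i h]

theorem r8 (h2 : St_YF) (E : Emb T) : lowY T * wY E = 0 := by
  apply op_ext
  rintro ξ ⟨⟨⟨⟨i, v⟩, n⟩, h⟩, k⟩
  show lowY T (wY E ξ) (⟨(⟨i, v⟩, n), h⟩, k) = 0
  rw [flow]
  rcases i with _ | j
  · rw [fw0 h2, ite_self]
  · rw [if_neg (by omega)]

theorem r9 (h2 : St_YF) (E : Emb T) : wY E * topY T = 0 := by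
  apply op_ext
  rintro ξ ⟨⟨⟨⟨i, v⟩, n⟩, h⟩, k⟩
  show wY E (topY T ξ) (⟨(⟨i, v⟩, n), h⟩, k) = 0
  have h' : i ≤ n + 1 := h
  rcases i with _ | j
  · rw [fw0 h2]
  · rw [fw h2, atop ξ n j (by omega), if_neg (show ¬ j = n + 1 by omega), mul_zero, ite_self]

theorem r10 (h2 : St_YF) (E : Emb T) : wY' E * lowY T = 0 := by
  apply op_ext
  rintro ξ ⟨⟨⟨⟨i, v⟩, n⟩, h⟩, k⟩
  show wY' E (lowY T ξ) (⟨(⟨i, v⟩, n), h⟩, k) = 0
  have h' : i ≤ n + 1 := h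
  rcases Nat.lt_or_ge n i with hi | hi
  · have e : i = n + 1 := by omega
    subst e
    rw [fwt h2]
  · rw [fw' h2 E _ n i k v h hi, alow ξ n (i + 1) (by omega), if_neg (show ¬ i + 1 = 0 by omega),
      mul_zero, ite_self]

theorem r11 (h2 : St_YF) (E : Emb T) : topY T * wY' E = 0 := by
  apply op_ext
  rintro ξ ⟨⟨⟨⟨i, v⟩, n⟩, h⟩, k⟩
  show topY T (wY' E ξ) (⟨(⟨i, v⟩, n), h⟩, k) = 0
  rw [ftop]
  by_cases e : i = n + 1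
  · subst e
    rw [fwt h2, ite_self]
  · rw [if_neg e]

theorem r12 (h2 : St_YF) (E : Emb T) : lowY T * PY E = PY E * lowY T := by
  apply op_ext
  rintro ξ ⟨⟨⟨⟨i, v⟩, n⟩, h⟩, k⟩
  show lowY T (PY E ξ) (⟨(⟨i, v⟩, n), h⟩, k) = PY E (lowY T ξ) (⟨(⟨i, v⟩, n), h⟩, k)
  rw [flow, fP h2, fP h2, alow ξ n i h]
  split_ifs <;> rfl

theorem r13 (h2 : St_YF) (E : Emb T) : topY T * PY E = PY E * topY T := by
  apply op_ext
  rintro ξ ⟨⟨⟨⟨i, v⟩, n⟩, h⟩, k⟩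
  show topY T (PY E ξ) (⟨(⟨i, v⟩, n), h⟩, k) = PY E (topY T ξ) (⟨(⟨i, v⟩, n), h⟩, k)
  rw [ftop, fP h2, fP h2, atop ξ n i h]
  split_ifs <;> rfl

theorem c1 (h2 : St_YF) (E : Emb T) (A : Set ℕ) : colY T A * PY E = PY E * colY T A := by
  apply op_ext
  rintro ξ ⟨⟨⟨⟨i, v⟩, n⟩, h⟩, k⟩
  show colY T A (PY E ξ) (⟨(⟨i, v⟩, n), h⟩, k) = PY E (colY T A ξ) (⟨(⟨i, v⟩, n), h⟩, k)
  rw [fcol, fP h2, fP h2, acol A ξ n i h]
  split_ifs <;> rfl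

theorem c2 (h2 : St_YF) (E : Emb T) (A : Set ℕ) : colY T A * wY E = wY E * colY T A := by
  apply op_ext
  rintro ξ ⟨⟨⟨⟨i, v⟩, n⟩, h⟩, k⟩
  show colY T A (wY E ξ) (⟨(⟨i, v⟩, n), h⟩, k) = wY E (colY T A ξ) (⟨(⟨i, v⟩, n), h⟩, k)
  have h' : i ≤ n + 1 := h
  rw [fcol]
  rcases i with _ | j
  · rw [fw0 h2, fw0 h2, ite_self]
  · rw [fw h2, fw h2, acol A ξ n j (by omega)]
    split_ifs <;> simp

theorem c3 (h2 : St_YF) (E : Emb T) (A : Set ℕ) : colY T A * wY' E = wY' E * colY T A := by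
  apply op_ext
  rintro ξ ⟨⟨⟨⟨i, v⟩, n⟩, h⟩, k⟩
  show colY T A (wY' E ξ) (⟨(⟨i, v⟩, n), h⟩, k) = wY' E (colY T A ξ) (⟨(⟨i, v⟩, n), h⟩, k)
  have h' : i ≤ n + 1 := h
  rw [fcol]
  rcases Nat.lt_or_ge n i with hi | hi
  · have e : i = n + 1 := by omega
    subst e
    rw [fwt h2, fwt h2, ite_self]
  · rw [fw' h2 E _ n i k v h hi, fw' h2 E _ n i k v h hi, acol A ξ n (i + 1) (by omega)]
    split_ifs <;> simp

/-- The average over the level 0 is the value at the root. -/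
theorem av0 (ξ : HY (Yt T)) (n : ℕ) (v : Fin (T.X.N 0)) (h : 0 ≤ n + 1) :
    av ξ n 0 = ξ (⟨(⟨0, v⟩, n), h⟩, 0) := by
  apply av_const ξ n 0 h
  intro u
  have e : u = v := by
    have hs : Subsingleton (Fin (T.X.N 0)) := by
      rw [T.N_zero]
      infer_instance
    exact Subsingleton.elim _ _
  rw [e]

theorem c4 (h2 : St_YF) (E : Emb T) (A : Set ℕ) : colY T A * (lowY T * PY E) = eY T A := by
  apply op_ext
  rintro ξ ⟨⟨⟨⟨i, v⟩, n⟩, h⟩, k⟩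
  show colY T A (lowY T (PY E ξ)) (⟨(⟨i, v⟩, n), h⟩, k) = eY T A ξ (⟨(⟨i, v⟩, n), h⟩, k)
  rw [fcol, flow, fP h2]
  unfold eY
  rw [proj_apply]
  by_cases hA : n ∈ A ∧ i = 0 ∧ k = 0
  · obtain ⟨hn, hi, hk⟩ := hA
    subst hi
    subst hk
    rw [if_pos hn, if_pos rfl, if_pos rfl, if_pos, av0 ξ n v h]
    refine ⟨n, hn, ?_⟩
    have e : v = T.X.base 0 := by
      have hs : Subsingleton (Fin (T.X.N 0)) := by
        rw [T.N_zero]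
        infer_instance
      exact Subsingleton.elim _ _
    rw [e]
    rfl
  · have hneg : ¬ ((⟨(⟨i, v⟩, n), h⟩, k) : Yt T × ℕ) ∈
        {p : Yt T × ℕ | ∃ n ∈ A, p = (root T n, 0)} := by
      rintro ⟨m, hm, he⟩
      apply hA
      have e2 := congrArg (fun p : Yt T × ℕ => p.2) he
      have e3 := congrArg (fun p : Yt T × ℕ => p.1.1.2) he
      have e4 := congrArg (fun p : Yt T × ℕ => p.1.1.1.1) he
      have e3' : n = m := e3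
      exact ⟨by rw [e3']; exact hm, e4, e2⟩
    rw [if_neg hneg]
    by_cases hn : n ∈ A
    · by_cases hi : i = 0
      · have hk : ¬ k = 0 := fun hk => hA ⟨hn, hi, hk⟩
        rw [if_pos hn, if_pos hi, if_neg hk]
      · rw [if_pos hn, if_neg hi]
    · rw [if_neg hn]

end IYRel

theorem pr_YRel (h1 : TL.St_TLF) (h2 : St_YF) : St_YRel := by
  intro T E
  have hd := (h1 T 0).1
  exact ⟨IYRel.r1 hd h2 E, IYRel.r2 hd h2 E, IYRel.r3 h2 E, IYRel.r4 h2 E, IYRel.r5 h2 E,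
    IYRel.r6 h2 E, IYRel.r7 h2 E, IYRel.r8 h2 E, IYRel.r9 h2 E, IYRel.r10 h2 E, IYRel.r11 h2 E,
    IYRel.r12 h2 E, IYRel.r13 h2 E, fun A => ⟨IYRel.c1 h2 E A, IYRel.c2 h2 E A, IYRel.c3 h2 E A,
    IYRel.c4 h2 E A⟩⟩

end

end Pool.Agent.Work.MP_1ddc88_an.GR
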