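import Pool.Agent.Work.MP_1ddc88_an.GR.Stmts

/-!
# MP_1ddc88_an, block GR, item YW
-/

set_option autoImplicit false

open Filter Topology
open scoped ENNReal Classical

namespace Pool.Agent.Work.MP_1ddc88_an.GR

open TL

namespace IYW

theorem VVP (h1 : St_PavF) (T : Tower) (E : Emb T) (ξ : HY (Yt T)) :
    E.V (E.V' (Pav T.X (E.V ξ))) = Pav T.X (E.V ξ) := by
  ext q
  by_cases hq : q.1.1.1 ≤ q.1.2 + 1
  · have e1 := E.V_in (E.V' (Pav T.X (E.V ξ))) ⟨q.1, hq⟩ q.2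
    have e2 := E.V'_apply (Pav T.X (E.V ξ)) ⟨q.1, hq⟩ q.2
    exact e1.trans e2
  · rw [E.V_out _ q hq, (h1 T.X).2 (E.V ξ) q]
    split_ifs with h0
    · rw [Finset.sum_eq_zero, mul_zero]
      intro v _
      exact E.V_out ξ _ hq
    · rfl

theorem cmp_mul (h1 : St_PavF) (T : Tower) (E : Emb T) (A : Op T.X) :
    cmp E (A * Pav T.X) = cmp E A * PY E := by
  refine ContinuousLinearMap.ext fun ξ => ?_
  show E.V' (A (Pav T.X (E.V ξ))) = E.V' (A (E.V (E.V' (Pav T.X (E.V ξ)))))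
  rw [VVP h1]

end IYW

open IYW in
theorem pr_YW (h1 : St_PavF) (h2 : St_GFP) (h3 : St_YMet) (h4 : St_YGeo) (h5 : St_YFP)
    (h6 : St_YPR) : St_YW := by
  intro T E s
  have hbg : S.BddGeo (dY T) := ⟨fun x y z => h3 T x y z, fun R => h4 T R⟩
  obtain ⟨f1, f2, f3⟩ := h5 T E
  have hs : FP (dY T) 0 (proj s) := (h2 (Yt T) (dY T) hbg 1 1 _ _ f1 f1).2.2.2.2 s
  refine ⟨h6 T E 0 _ hs, ?_, ?_⟩
  · have e : proj s * wY E = (proj s * cmp E (Lp T)) * PY E := by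
      rw [mul_assoc, ← cmp_mul h1]
      rfl
    rw [e]
    exact h6 T E _ _ (h2 (Yt T) (dY T) hbg 0 1 _ _ hs f2).1
  · have e : proj s * wY' E = (proj s * cmp E (Lm T)) * PY E := by
      rw [mul_assoc, ← cmp_mul h1]
      rfl
    rw [e]
    exact h6 T E _ _ (h2 (Yt T) (dY T) hbg 0 1 _ _ hs f3).1

end Pool.Agent.Work.MP_1ddc88_an.GR
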