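import Pool.Agent.Work.MP_1ddc88_an.TL.AllB
import Pool.Agent.Work.MP_1ddc88_an.GR.I_GFP
import Pool.Agent.Work.MP_1ddc88_an.GR.I_GLC
import Pool.Agent.Work.MP_1ddc88_an.GR.I_GAR
import Pool.Agent.Work.MP_1ddc88_an.GR.I_GAG
import Pool.Agent.Work.MP_1ddc88_an.GR.I_GAK
import Pool.Agent.Work.MP_1ddc88_an.GR.I_GCC
import Pool.Agent.Work.MP_1ddc88_an.GR.I_GCQ
import Pool.Agent.Work.MP_1ddc88_an.GR.I_YCon
import Pool.Agent.Work.MP_1ddc88_an.GR.I_YMet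
import Pool.Agent.Work.MP_1ddc88_an.GR.I_YGeo
import Pool.Agent.Work.MP_1ddc88_an.GR.I_YEmb
import Pool.Agent.Work.MP_1ddc88_an.GR.I_YF
import Pool.Agent.Work.MP_1ddc88_an.GR.I_YFP
import Pool.Agent.Work.MP_1ddc88_an.GR.I_YA
import Pool.Agent.Work.MP_1ddc88_an.GR.I_YPR
import Pool.Agent.Work.MP_1ddc88_an.GR.I_YW
import Pool.Agent.Work.MP_1ddc88_an.GR.I_YRel
import Pool.Agent.Work.MP_1ddc88_an.GR.I_YGh
import Pool.Agent.Work.MP_1ddc88_an.GR.I_RAlg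
import Pool.Agent.Work.MP_1ddc88_an.GR.I_YComm
import Pool.Agent.Work.MP_1ddc88_an.GR.I_Act
import Pool.Agent.Work.MP_1ddc88_an.GR.I_Est
import Pool.Agent.Work.MP_1ddc88_an.GR.I_Slc
import Pool.Agent.Work.MP_1ddc88_an.GR.I_AmX
import Pool.Agent.Work.MP_1ddc88_an.GR.I_AmA
import Pool.Agent.Work.MP_1ddc88_an.GR.I_AmP
import Pool.Agent.Work.MP_1ddc88_an.GR.I_AmJ
import Pool.Agent.Work.MP_1ddc88_an.GR.I_AmR
import Pool.Agent.Work.MP_1ddc88_an.GR.I_AmG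
import Pool.Agent.Work.MP_1ddc88_an.GR.I_YKillF
import Pool.Agent.Work.MP_1ddc88_an.GR.I_YEF
import Pool.Agent.Work.MP_1ddc88_an.GR.I_YFinF
import Pool.Agent.Work.MP_1ddc88_an.GR.I_KerF
import Pool.Agent.Work.MP_1ddc88_an.GR.I_YVecF
import Pool.Agent.Work.MP_1ddc88_an.GR.I_YInfF

/-!
# MP_1ddc88_an, block GR: all items without hypotheses
-/

set_option autoImplicit false

namespace Pool.Agent.Work.MP_1ddc88_an.GR

theorem all_GAR : St_GAR := pr_GAR pr_GFP pr_GLC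
theorem all_GAG : St_GAG := pr_GAG pr_GFP all_GAR
theorem all_GCC : St_GCC := pr_GCC pr_GLC
theorem all_YMet : St_YMet := pr_YMet pr_YCon
theorem all_YGeo : St_YGeo := pr_YGeo pr_YCon
theorem all_YF : St_YF := pr_YF pr_PavF TL.pr_TLF
theorem all_YFP : St_YFP := pr_YFP pr_AF TL.pr_TLF
theorem all_YA : St_YA := pr_YA pr_PavF all_ShP pr_AF all_AP all_AN
theorem all_YPR : St_YPR := pr_YPR pr_GFP pr_GLC all_YMet all_YGeo all_YFP all_YA
theorem all_YW : St_YW := pr_YW pr_PavF pr_GFP all_YMet all_YGeo all_YFP all_YPR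
theorem all_YRel : St_YRel := pr_YRel TL.pr_TLF all_YF
theorem all_YGh : St_YGh := pr_YGh pr_PavF all_YF all_YW
theorem all_AmX : St_AmX := pr_AmX pr_Slc
theorem all_AmA : St_AmA := pr_AmA pr_Slc all_AmX
theorem all_AmP : St_AmP := pr_AmP pr_Slc all_AmX
theorem all_AmJ : St_AmJ := pr_AmJ pr_Slc all_AmX
theorem all_AmR : St_AmR := pr_AmR pr_GFP pr_Slc all_AmX all_AmA
theorem all_AmG : St_AmG := pr_AmG pr_Slc all_AmX all_AmR
theorem all_YKillF : St_YKillF := pr_YKillF all_GAG all_YMet all_YGeo all_YF all_YW all_YRel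
  all_YGh pr_RAlg pr_Slc all_AmX all_AmA all_AmP all_AmJ all_AmR all_AmG
theorem all_YEF : St_YEF := pr_YEF all_YMet all_YGeo pr_GFP
theorem all_YFinF : St_YFinF := pr_YFinF all_YEF
theorem all_YVecF : St_YVecF :=
  pr_YVecF all_GCC pr_GCQ all_YMet all_YGeo pr_YComm pr_KerF pr_Act
theorem all_YInfF : St_YInfF := pr_YInfF pr_Act pr_Est all_YVecF

end Pool.Agent.Work.MP_1ddc88_an.GR
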