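import Pool.Agent.Work.MP_1ddc88_an.TL.Tow

/-!
# MP_1ddc88_an, block GR: the space of graphs `Y = T_0 ⊔ T_1 ⊔ ...`

`T_n` is the part of the levels `0, ..., n + 1` of the telescope of a tower.
-/

set_option autoImplicit false

open Filter Topology
open scoped Classical

namespace Pool.Agent.Work.MP_1ddc88_an.GR

open TL

noncomputable section

variable (T : Tower)

/-- The vertices of the graphs `T_0, T_1, ...`: the pairs `(p, n)` with `p` a point of one of the
levels `0, ..., n + 1` of the telescope. -/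
abbrev Yt := {z : Z T.X // z.1.1 ≤ z.2 + 1}

/-- The disjoint union of the graphs `T_n`: `(p, n)` and `(q, n)` are adjacent if `p` and `q` are
adjacent in the telescope. -/
def gY : SimpleGraph (Yt T) where
  Adj x y := x.1.2 = y.1.2 ∧ (tele T).Adj x.1.1 y.1.1
  symm := ⟨fun _ _ h => ⟨h.1.symm, h.2.symm⟩⟩
  loopless := ⟨fun _ h => h.2.ne rfl⟩

/-- The root of `T_n`: the point of level 0. -/
def root (n : ℕ) : Yt T := ⟨(⟨0, T.X.base 0⟩, n), Nat.zero_le _⟩

/-- The metric of the coarse disjoint union of the graphs `T_n`: the graph metric on each `T_n`, and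
`d(x, y) = n + m + 1 + |x| + |y|` for `x ∈ T_n`, `y ∈ T_m`, `n ≠ m`, where `|x|` is the distance to
the root. -/
def dY (x y : Yt T) : ℕ :=
  if x.1.2 = y.1.2 then (gY T).dist x y
  else x.1.2 + y.1.2 + 1 + (gY T).dist x (root T x.1.2) + (gY T).dist y (root T y.1.2)

end

end Pool.Agent.Work.MP_1ddc88_an.GR
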