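import Pool.Agent.Work.MP_1ddc88_an.TL.Stmts
import Pool.Agent.Work.MP_1ddc88_an.SDefs
import Pool.Agent.Work.MP_1ddc88_an.GR.Gr

/-!
# MP_1ddc88_an, block GR: definitions

Part 1: operators on `ℓ²(Y) ⊗ ℓ²(ℕ)` for a set `Y` with a distance function `d`.
Part 2: the operators on the space of graphs `Yt T`.
-/

set_option autoImplicit false

open Filter Topology
open scoped ENNReal Classical

namespace Pool.Agent.Work.MP_1ddc88_an.GR

open TL

noncomputable section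

/-! ## Part 1 -/

variable {Y : Type}

/-- The Hilbert space `ℓ²(Y) ⊗ ℓ²(ℕ) = ℓ²(Y × ℕ)`. -/
abbrev HY (Y : Type) := L2 (Y × ℕ)

/-- Bounded operators on `ℓ²(Y) ⊗ ℓ²(ℕ)`. -/
abbrev OpY (Y : Type) := HY Y →L[ℂ] HY Y

/-- `δ_z ⊗ ℓ²(ℕ)`. -/
def cellY (z : Y) : Set (Y × ℕ) := {p | p.1 = z}

/-- Propagation at most `R`. -/
def FP (d : Y → Y → ℕ) (R : ℕ) (A : OpY Y) : Prop :=
  ∀ (ξ : HY Y) (p : Y × ℕ), A ξ p ≠ 0 → ∃ q : Y × ℕ, ξ q ≠ 0 ∧ d p.1 q.1 ≤ R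

/-- Locally compact operators. -/
def LCo (A : OpY Y) : Prop :=
  ∀ z : Y, IsCompactOperator (A * proj (cellY z)) ∧ IsCompactOperator (proj (cellY z) * A)

/-- The Roe algebra. -/
def RoeY (d : Y → Y → ℕ) : Set (OpY Y) := closure {A | (∃ R, FP d R A) ∧ LCo A}

/-- `C*(Y) + ℂ`. -/
def RoeP (d : Y → Y → ℕ) : Set (OpY Y) := {A | ∃ c : ℂ, A - c • (1 : OpY Y) ∈ RoeY d}

/-- The ghost operators. -/
def GhY (d : Y → Y → ℕ) : Set (OpY Y) :=
  {A | A ∈ RoeY d ∧ ∀ ε > (0 : ℝ), ∃ F : Finset Y, ∀ z w, z ∉ F ∨ w ∉ F →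
    ‖proj (cellY z) * A * proj (cellY w)‖ ≤ ε}

/-- The compact operators. -/
def CpY (Y : Type) : Set (OpY Y) := {A | IsCompactOperator A}

/-- `n × n` matrices of operators. -/
abbrev MatY (Y : Type) (n : ℕ) := Matrix (Fin n) (Fin n) (OpY Y)

/-- The matrix `diag(A, 1, ..., 1)` of size `n + 1`. -/
def stabY (n : ℕ) (A : OpY Y) : MatY Y (n + 1) :=
  Matrix.diagonal (fun i => if i = 0 then A else 1)

/-- `[p] = [q]` in `K_0(C*(Y)/I)`: for some `n` there are matrices `x`, `y` over `C*(Y) + ℂ` with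
`x y = diag(p, 1, ..., 1)` and `y x = diag(q, 1, ..., 1)` modulo `I`. -/
def EqK (d : Y → Y → ℕ) (I : Set (OpY Y)) (p q : OpY Y) : Prop :=
  ∃ (n : ℕ) (x y : MatY Y (n + 1)), (∀ a b, x a b ∈ RoeP d) ∧ (∀ a b, y a b ∈ RoeP d) ∧
    (∀ a b, (x * y - stabY n p) a b ∈ I) ∧ (∀ a b, (y * x - stabY n q) a b ∈ I)

/-- The action of matrices on vectors. -/
def act {n : ℕ} (x : MatY Y n) (v : Fin n → HY Y) : Fin n → HY Y := fun a => ∑ b, x a b (v b)

/-! ## Part 2 -/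

variable {T : Tower}

/-- Extension by zero `V` from `ℓ²(Y × ℕ)`, `Y = Yt T ⊆ Z`, to `ℓ²(Z × ℕ)`, and restriction `V'`. -/
structure Emb (T : Tower) where
  V : HY (Yt T) →L[ℂ] Hs T.X
  V' : Hs T.X →L[ℂ] HY (Yt T)
  V_in : ∀ (ξ : HY (Yt T)) (y : Yt T) (k : ℕ), V ξ (y.1, k) = ξ (y, k)
  V_out : ∀ (ξ : HY (Yt T)) (q : Ix T.X), ¬ q.1.1.1 ≤ q.1.2 + 1 → V ξ q = 0
  V'_apply : ∀ (ξ : Hs T.X) (y : Yt T) (k : ℕ), V' ξ (y, k) = ξ (y.1, k)
  V_norm : ‖V‖ ≤ 1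
  V'_norm : ‖V'‖ ≤ 1

/-- Compression to `Y`. -/
def cmp (E : Emb T) (A : Op T.X) : OpY (Yt T) := (E.V' ∘L A) ∘L E.V

/-- The projection onto the functions constant on every level of every `T_n`, tensored with `q`. -/
def PY (E : Emb T) : OpY (Yt T) := cmp E (Pav T.X)

/-- The averaging operator. -/
def AY (E : Emb T) : OpY (Yt T) := cmp E (kerOp (kA T.X))

/-- `w`: from level `i` to level `i + 1`, `0` on the top level. -/
def wY (E : Emb T) : OpY (Yt T) := cmp E (W T)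

/-- The adjoint of `w`. -/
def wY' (E : Emb T) : OpY (Yt T) := cmp E (W' T)

/-- The projection onto the `T_n` with `n ∈ A`. -/
def colY (T : Tower) (A : Set ℕ) : OpY (Yt T) := proj {p | p.1.1.2 ∈ A}

/-- The projection onto the levels 0. -/
def lowY (T : Tower) : OpY (Yt T) := proj {p | p.1.1.1.1 = 0}

/-- The projection onto the top levels. -/
def topY (T : Tower) : OpY (Yt T) := proj {p | p.1.1.1.1 = p.1.1.2 + 1}

/-- `e_A`: the projection onto the span of the `δ_(root n) ⊗ δ_0`, `n ∈ A`. -/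
def eY (T : Tower) (A : Set ℕ) : OpY (Yt T) := proj {p | ∃ n ∈ A, p = (root T n, 0)}

/-- The projection onto `T_n`. -/
def Qc (T : Tower) (n : ℕ) : OpY (Yt T) := proj {p | p.1.1.2 = n}

end

end Pool.Agent.Work.MP_1ddc88_an.GR
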