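import Pool.Agent.Work.MP_1ddc88_an.GR.Stmts
import Pool.Agent.Work.MP_1ddc88_an.Tr

/-!
# MP_1ddc88_an, block GR: the definitions of `SDefs.lean` and those of `GR/Defs.lean` agree
-/

set_option autoImplicit false

open Filter Topology
open scoped ENNReal Classical

namespace Pool.Agent.Work.MP_1ddc88_an.GR

noncomputable section

variable {Y : Type}

theorem tr_pz (z : Y) : (S.pz z : OpY Y) = proj (cellY z) := sproj_eq _

theorem tr_LCo (A : OpY Y) : S.LocComp (Y := Y) A ↔ LCo A := by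
  constructor
  · intro h z
    have h' := h z
    have e := tr_pz z
    exact ⟨by rw [← e]; exact h'.1, by rw [← e]; exact h'.2⟩
  · intro h z
    have h' := h z
    rw [← tr_pz z] at h'
    exact h'

theorem tr_Roe (d : Y → Y → ℕ) : (S.Roe d : Set (OpY Y)) = RoeY d := by
  show closure {A : OpY Y | (∃ R, S.FinProp d R A) ∧ S.LocComp (Y := Y) A} = _
  unfold RoeY
  congr 1
  ext A
  exact and_congr Iff.rfl (tr_LCo A)

theorem tr_RoeP (d : Y → Y → ℕ) : (S.RoePlus d : Set (OpY Y)) = RoeP d := by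
  unfold RoeP
  rw [← tr_Roe d]
  rfl

theorem tr_Gh (d : Y → Y → ℕ) : (S.Ghost d : Set (OpY Y)) = GhY d := by
  have e : ∀ z : Y, proj (cellY z) = (S.pz z : OpY Y) := fun z => (tr_pz z).symm
  unfold GhY
  rw [← tr_Roe d]
  ext A
  simp only [e]
  rfl

theorem tr_Ideals (h1 : St_GAR) (h2 : St_GAG) (h3 : St_GAK) (d : Y → Y → ℕ)
    (hd : S.BddGeo d) : S.Ideals d := by
  refine ⟨?_, ?_, ?_⟩
  · show ∀ A B : OpY Y, A ∈ (S.Roe d : Set (OpY Y)) → B ∈ (S.Roe d : Set (OpY Y)) →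
      A + B ∈ (S.Roe d : Set (OpY Y)) ∧ A * B ∈ (S.Roe d : Set (OpY Y)) ∧
      ∀ c : ℂ, c • A ∈ (S.Roe d : Set (OpY Y))
    rw [tr_Roe]
    exact fun A B hA hB => h1 Y d hd A B hA hB
  · show ∀ A G G' : OpY Y, A ∈ (S.RoePlus d : Set (OpY Y)) →
      G ∈ (S.Ghost d : Set (OpY Y)) → G' ∈ (S.Ghost d : Set (OpY Y)) →
      G + G' ∈ (S.Ghost d : Set (OpY Y)) ∧ A * G ∈ (S.Ghost d : Set (OpY Y)) ∧
      G * A ∈ (S.Ghost d : Set (OpY Y))
    rw [tr_RoeP, tr_Gh]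
    intro A G G' hA hG hG'
    obtain ⟨h4, -, h5, h6, -⟩ := (h2 Y d hd A A G G' hA hA hG hG').2
    exact ⟨h4, h5, h6⟩
  · show (CpY Y : Set (OpY Y)) ⊆ (S.Ghost d : Set (OpY Y))
    rw [tr_Gh]
    exact h3 Y d hd

end

end Pool.Agent.Work.MP_1ddc88_an.GR
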