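import Pool.Agent.Work.MP_1ddc88_an.GR.AllG
import Pool.Agent.Work.MP_1ddc88_an.GR.Tr

/-!
# MP_1ddc88_an, block GR: the facts for the definitions of `SDefs.lean`
-/

set_option autoImplicit false

open Filter Topology
open scoped ENNReal Classical

namespace Pool.Agent.Work.MP_1ddc88_an.GR

open TL

noncomputable section

theorem sproj_apply {ι : Type} (s : Set ι) (ξ : S.L2 ι) (p : ι) :
    S.co (S.ap (S.proj s) ξ) p = if p ∈ s then S.co ξ p else 0 := by
  have h := isMat_matOp (proj_markov s) ξ p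
  refine Eq.trans h ?_
  rw [tsum_eq_single p]
  · by_cases hp : p ∈ s <;> simp [hp]
  · intro q hq
    rw [if_neg (fun h => hq h.1.symm)]
    simp

variable (T : Tower)

theorem fin_conn (x y : Yt T) : (gY T).Reachable x y ↔ x.1.2 = y.1.2 := by
  constructor
  · rintro ⟨p⟩
    induction p with
    | nil => rfl
    | cons h _ ih => exact h.1.trans ih
  · exact pr_YCon T x y

theorem fin_col (n : ℕ) : {x : Yt T | x.1.2 = n}.Finite := by
  have hlt : ∀ i : Fin (n + 2), (i : ℕ) ≤ n + 1 := fun i => Nat.lt_succ_iff.mp i.2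
  refine (Set.finite_range (fun s : (i : Fin (n + 2)) × Fin (T.X.N (i : ℕ)) =>
    (⟨((⟨(s.1 : ℕ), s.2⟩ : Pt T.X), n), hlt s.1⟩ : Yt T))).subset ?_
  rintro ⟨⟨⟨i, v⟩, m⟩, h⟩ hx
  obtain rfl : m = n := hx
  exact ⟨⟨⟨i, Nat.lt_succ_iff.mpr h⟩, v⟩, rfl⟩

theorem fin_geo : S.BddGeo (dY T) := ⟨all_YMet T, all_YGeo T⟩

theorem fin_ideals : S.Ideals (dY T) := tr_Ideals all_GAR all_GAG pr_GAK (dY T) (fin_geo T)

/-- The set of basis vectors of `e_a`. -/
def eSet (a : ℕ → ℕ) : Set (Yt T × ℕ) := {p | ∃ n j, j < a n ∧ p = (root T n, j)}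

theorem fin_e (a : ℕ → ℕ) : (S.proj (eSet T a) : OpY (Yt T)) = eF T a := sproj_eq _

theorem fin_e_Roe (a : ℕ → ℕ) : S.proj (eSet T a) ∈ S.Roe (dY T) := by
  have h1 : (S.Roe (dY T) : Set (OpY (Yt T))) = RoeY (dY T) := tr_Roe (dY T)
  have h2 : (S.proj (eSet T a) : OpY (Yt T)) = eF T a := fin_e T a
  have h3 : (S.proj (eSet T a) : OpY (Yt T)) ∈ (S.Roe (dY T) : Set (OpY (Yt T))) := by
    rw [h1, h2]
    exact (all_YEF T a a).1
  exact h3

theorem fin_e_idem (a : ℕ → ℕ) : S.proj (eSet T a) * S.proj (eSet T a) = S.proj (eSet T a) := by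
  have key : eF T a * eF T a = eF T a := by
    rw [(all_YEF T a a).2.1]
    simp
  have h : ∀ A B : OpY (Yt T), A = B → B * B = B → A * A = A := by
    rintro A B rfl h
    exact h
  exact h (S.proj (eSet T a)) (eF T a) (fin_e T a) key

end

end Pool.Agent.Work.MP_1ddc88_an.GR
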