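import Pool.Agent.Work.MP_1ddc88_an.GR.StmtsA

/-!
# MP_1ddc88_an, block GR, item AmG: amplifications of ghosts are ghosts
-/

set_option autoImplicit false

open Filter Topology
open scoped ENNReal Classical

namespace Pool.Agent.Work.MP_1ddc88_an.GR

open TL

namespace IAmG

theorem slc_proj (h1 : St_Slc) {Y : Type} (k : ℕ) (w : Y) (ξ : HY Y) :
    slc Y k (proj (cellY w) ξ) = proj (cellY w) (slc Y k ξ) := by
  ext p
  obtain ⟨y, j⟩ := p
  rw [h1 Y k (proj (cellY w) ξ) y j, proj_apply, proj_apply, h1 Y k ξ y j]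
  have e : ((y, k) ∈ cellY w) ↔ ((y, j) ∈ cellY w) := Iff.rfl
  by_cases hj : j = 0
  · rw [if_pos hj, if_pos hj]
    by_cases hw : (y, k) ∈ cellY w
    · rw [if_pos hw, if_pos (e.1 hw)]
    · rw [if_neg hw, if_neg (fun h => hw (e.2 h))]
  · rw [if_neg hj, if_neg hj]
    split_ifs <;> rfl

theorem key (h1 : St_Slc) (h2 : St_AmX) {Y : Type} (B : OpY Y) (s : Y → ℕ) (z w : Y) :
    proj (cellY z) * (JY s * amp B) * proj (cellY w) =
      JY s * amp (proj (cellY z) * B * proj (cellY w)) := by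
  apply op_ext
  intro ξ p
  obtain ⟨y, k⟩ := p
  show proj (cellY z) (JY s (amp B (proj (cellY w) ξ))) (y, k) =
    JY s (amp (proj (cellY z) * B * proj (cellY w)) ξ) (y, k)
  unfold JY
  rw [proj_apply, proj_apply, proj_apply, (h2 Y B).1 (proj (cellY w) ξ) y k,
    (h2 Y (proj (cellY z) * B * proj (cellY w))).1 ξ y k, slc_proj h1]
  have e2 : (proj (cellY z) * B * proj (cellY w)) (slc Y k ξ) =
    proj (cellY z) (B (proj (cellY w) (slc Y k ξ))) := rfl
  rw [e2]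
  rw [proj_apply]
  have e : ((y, k) ∈ cellY z) ↔ ((y, 0) ∈ cellY z) := Iff.rfl
  by_cases hz : (y, k) ∈ cellY z
  · rw [if_pos hz, if_pos (e.1 hz)]
  · rw [if_neg hz, if_neg (fun h => hz (e.2 h))]
    split_ifs <;> rfl

end IAmG

theorem pr_AmG (h1 : St_Slc) (h2 : St_AmX) (h3 : St_AmR) : St_AmG := by
  intro Y d hd B hB s
  refine ⟨h3 Y d hd B hB.1 s, ?_⟩
  intro ε hε
  obtain ⟨F, hF⟩ := hB.2 ε hε
  refine ⟨F, fun z w hzw => ?_⟩
  rw [IAmG.key h1 h2]
  calc ‖JY s * amp (proj (cellY z) * B * proj (cellY w))‖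
      ≤ ‖JY s‖ * ‖amp (proj (cellY z) * B * proj (cellY w))‖ := norm_mul_le _ _
    _ ≤ 1 * ‖amp (proj (cellY z) * B * proj (cellY w))‖ :=
        mul_le_mul_of_nonneg_right (proj_norm_le _) (norm_nonneg _)
    _ = ‖amp (proj (cellY z) * B * proj (cellY w))‖ := one_mul _
    _ ≤ ‖proj (cellY z) * B * proj (cellY w)‖ := (h2 Y _).2
    _ ≤ ε := hF z w hzw

end Pool.Agent.Work.MP_1ddc88_an.GR
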