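import Pool.Agent.Work.MP_1ddc88_an.GR.Stmts

/-!
# MP_1ddc88_an, block GR: item RAlg
-/

set_option autoImplicit false

namespace Pool.Agent.Work.MP_1ddc88_an.GR

noncomputable section

theorem pr_RAlg : St_RAlg := by
  intro R _ e f g w w' he hf hg hef hfe _heg _hge hfg hgf h1 h2 h3 h4 h5 h6
  obtain ⟨q, hq⟩ : ∃ q : R, q = 1 - f - g := ⟨_, rfl⟩
  have fq : f * q = 0 := by rw [hq, mul_sub, mul_sub, mul_one, hf, hfg, sub_self, sub_zero]
  have qf : q * f = 0 := by rw [hq, sub_mul, sub_mul, one_mul, hf, hgf, sub_self, sub_zero]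
  have qg : q * g = 0 := by rw [hq, sub_mul, sub_mul, one_mul, hg, hfg, sub_zero, sub_self]
  have qq : q * q = q := by
    have : q * q = q * (1 - f - g) := by rw [← hq]
    rw [this, mul_sub, mul_sub, mul_one, qf, qg, sub_zero, sub_zero]
  have wq : w' * q = 0 := by
    have : q = 1 - (f + g) := by rw [hq, sub_sub]
    rw [this, mul_sub, mul_one, h5, sub_self]
  have qw : q * w = 0 := by
    have : q = 1 - (f + g) := by rw [hq, sub_sub]
    rw [this, sub_mul, one_mul, h4, sub_self]
  have r1 : f * w' + 1 - f - g = f * w' + q := by rw [hq]; abel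
  have r2 : w * f + 1 - f - g = w * f + q := by rw [hq]; abel
  have a1 : e * w' * (w * e) = e := by
    calc e * w' * (w * e) = e * (w' * w) * e := by simp only [mul_assoc]
      _ = e * (e + f) * e := by rw [h1]
      _ = e := by rw [mul_add, he, hef, add_zero, he]
  have a2 : e * w' * (w * f + q) = 0 := by
    calc e * w' * (w * f + q) = e * (w' * w) * f + e * (w' * q) := by
          simp only [mul_assoc, mul_add]
      _ = 0 := by rw [h1, wq, mul_add, he, hef, add_zero, hef, mul_zero, add_zero]
  have a3 : (f * w' + q) * (w * e) = 0 := by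
    calc (f * w' + q) * (w * e) = f * (w' * w) * e + (q * w) * e := by
          simp only [mul_assoc, add_mul]
      _ = 0 := by rw [h1, qw, mul_add, hf, hfe, zero_add, hfe, zero_mul, add_zero]
  have a4 : (f * w' + q) * (w * f + q) = 1 - g := by
    calc (f * w' + q) * (w * f + q) =
          f * (w' * w) * f + f * (w' * q) + ((q * w) * f + q * q) := by
          simp only [mul_assoc, add_mul, mul_add]
          abel
      _ = f + q := by
          rw [h1, wq, qw, qq, mul_add, hf, hfe, zero_add, hf, mul_zero, zero_mul, add_zero,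
            zero_add]
      _ = 1 - g := by rw [hq]; abel
  have a5 : w * e * (e * w') + (w * f + q) * (f * w' + q) = 1 := by
    calc w * e * (e * w') + (w * f + q) * (f * w' + q) =
          w * ((e * e) * w') + (w * ((f * f) * w') + w * (f * q) + ((q * f) * w' + q * q)) := by
          simp only [mul_assoc, add_mul, mul_add]
          abel
      _ = w * (e + f) * w' + q := by
          rw [he, hf, fq, qf, qq, mul_zero, add_zero, zero_mul, zero_add, mul_add, add_mul,
            mul_assoc, mul_assoc, add_assoc]
      _ = 1 := by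
          rw [h3, h2, hq]
          abel
  rw [r1, r2]
  constructor
  · rw [Matrix.mul_fin_two, a1, a2, a3, a4]
    simp
  · rw [Matrix.mul_fin_two, a5]
    simp

end

end Pool.Agent.Work.MP_1ddc88_an.GR
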