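import Pool.Agent.Work.MP_1ddc88_an.GR.Stmts

set_option autoImplicit false

/-! # Block GR, item YFin: finite symmetric difference gives the same class -/

namespace Pool.Agent.Work.MP_1ddc88_an.GR

open TL
open scoped Classical

namespace IYFin

/-- a 1 × 1 product minus the stabilisation -/
theorem entry {Y : Type} (e p : OpY Y) (he : e * e = e) (a b : Fin (0 + 1)) :
    ((Matrix.of (fun _ _ => e) : MatY Y (0 + 1)) * (Matrix.of (fun _ _ => e) : MatY Y (0 + 1)) -
      stabY 0 p) a b = e - p := by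
  have ha : a = 0 := Fin.ext (by omega)
  have hb : b = 0 := Fin.ext (by omega)
  subst ha
  subst hb
  rw [Matrix.sub_apply, Matrix.mul_apply, stabY, Matrix.diagonal_apply_eq, if_pos rfl]
  have h1 : ∑ j : Fin (0 + 1), (Matrix.of (fun _ _ => e) : MatY Y (0 + 1)) 0 j *
      (Matrix.of (fun _ _ => e) : MatY Y (0 + 1)) j 0 = e * e := by
    exact Fin.sum_univ_one _
  rw [h1, he]

end IYFin

/-- item YFin -/
theorem pr_YFin (h1 : St_YE) : St_YFin := by
  intro T A B hfin
  have hm : eY T (A ∩ B) * eY T (A ∩ B) = eY T (A ∩ B) := by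
    have h2 := (h1 T (A ∩ B) (A ∩ B)).2.1
    rwa [Set.inter_self] at h2
  have hR : eY T (A ∩ B) ∈ RoeP (dY T) := by
    refine ⟨0, ?_⟩
    rw [zero_smul, sub_zero]
    exact (h1 T (A ∩ B) A).1
  refine ⟨0, Matrix.of (fun _ _ => eY T (A ∩ B)), Matrix.of (fun _ _ => eY T (A ∩ B)),
    fun a b => hR, fun a b => hR, fun a b => ?_, fun a b => ?_⟩
  · rw [IYFin.entry _ _ hm]
    exact (h1 T A B).2.2 hfin
  · rw [IYFin.entry _ _ hm, Set.inter_comm]
    refine (h1 T B A).2.2 ?_
    rwa [symmDiff_comm]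

end Pool.Agent.Work.MP_1ddc88_an.GR
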