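import Pool.Agent.Work.MP_1ddc88_an.GR.Stmts

/-! # MP_1ddc88_an, block GR, item YMet: `dY` is a metric -/

set_option autoImplicit false

open Filter Topology
open scoped ENNReal Classical

namespace Pool.Agent.Work.MP_1ddc88_an.GR

open TL

noncomputable section

namespace IYMet

/-- the triangle inequality for reachable points -/
theorem tri {V : Type} (G : SimpleGraph V) {u v w : V} (h1 : G.Reachable u v)
    (h2 : G.Reachable v w) : G.dist u w ≤ G.dist u v + G.dist v w := by
  obtain ⟨p, hp⟩ := h1.exists_walk_length_eq_dist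
  obtain ⟨q, hq⟩ := h2.exists_walk_length_eq_dist
  rw [← hp, ← hq, ← SimpleGraph.Walk.length_append]
  exact SimpleGraph.dist_le _

theorem same (T : Tower) {x y : Yt T} (h : x.1.2 = y.1.2) : dY T x y = (gY T).dist x y := if_pos h

theorem diff (T : Tower) {x y : Yt T} (h : x.1.2 ≠ y.1.2) :
    dY T x y = x.1.2 + y.1.2 + 1 + (gY T).dist x (root T x.1.2) + (gY T).dist y (root T y.1.2) :=
  if_neg h

theorem comm (T : Tower) (x y : Yt T) : dY T x y = dY T y x := by
  by_cases h : x.1.2 = y.1.2
  · rw [same T h, same T h.symm, SimpleGraph.dist_comm]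
  · rw [diff T h, diff T (Ne.symm h)]
    omega

end IYMet

theorem pr_YMet (h1 : St_YCon) : St_YMet := by
  intro T x y z
  refine ⟨?_, ?_, IYMet.comm T x y, ?_⟩
  · rw [IYMet.same T rfl, SimpleGraph.dist_self]
  · intro h
    by_cases hn : x.1.2 = y.1.2
    · rw [IYMet.same T hn] at h
      exact ((h1 T x y hn).dist_eq_zero_iff).1 h
    · rw [IYMet.diff T hn] at h
      omega
  · by_cases hxy : x.1.2 = y.1.2
    · by_cases hyz : y.1.2 = z.1.2
      · rw [IYMet.same T hxy, IYMet.same T hyz, IYMet.same T (hxy.trans hyz)]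
        exact IYMet.tri _ (h1 T x y hxy) (h1 T y z hyz)
      · have hxz : x.1.2 ≠ z.1.2 := by rwa [hxy]
        rw [IYMet.same T hxy, IYMet.diff T hyz, IYMet.diff T hxz, hxy]
        have := IYMet.tri (gY T) (h1 T x y hxy) (h1 T y (root T y.1.2) rfl)
        omega
    · by_cases hyz : y.1.2 = z.1.2
      · have hxz : x.1.2 ≠ z.1.2 := by rwa [← hyz]
        rw [IYMet.diff T hxy, IYMet.same T hyz, IYMet.diff T hxz]
        have := IYMet.tri (gY T) (h1 T z y hyz.symm) (h1 T y (root T y.1.2) rfl)
        rw [SimpleGraph.dist_comm (u := z) (v := y)] at this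
        rw [← hyz]
        omega
      · by_cases hxz : x.1.2 = z.1.2
        · rw [IYMet.diff T hxy, IYMet.diff T hyz, IYMet.same T hxz]
          have := IYMet.tri (gY T) (h1 T x (root T x.1.2) rfl) (h1 T (root T x.1.2) z hxz)
          rw [SimpleGraph.dist_comm (u := root T x.1.2) (v := z)] at this
          rw [← hxz]
          omega
        · rw [IYMet.diff T hxy, IYMet.diff T hyz, IYMet.diff T hxz]
          omega

end

end Pool.Agent.Work.MP_1ddc88_an.GR
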