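import Pool.Agent.Work.MP_1ddc88_an.GR.Stmts

/-!
# MP_1ddc88_an, block GR, item YVec: the vectors of the rank argument
-/

set_option autoImplicit false

open Filter Topology
open scoped ENNReal Classical

namespace Pool.Agent.Work.MP_1ddc88_an.GR

open TL

noncomputable section

namespace IYVec

/-- `T_n` is finite -/
theorem fin_level (T : Tower) (n : ℕ) : {x : Yt T | x.1.2 = n}.Finite := by
  have h1 : {q : Pt T.X | q.1 ≤ n + 1}.Finite := by
    have h2 : {q : Pt T.X | q.1 ≤ n + 1} ⊆ ⋃ i ∈ ((Finset.range (n + 2) : Finset ℕ) : Set ℕ),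
        Set.range (fun v : Fin (T.X.N i) => (⟨i, v⟩ : Pt T.X)) := by
      rintro ⟨i, v⟩ h
      have h' : i ≤ n + 1 := h
      rw [Set.mem_iUnion₂]
      exact ⟨i, Finset.mem_coe.2 (Finset.mem_range.2 (by omega)), v, rfl⟩
    exact (Set.Finite.biUnion (Finset.finite_toSet _) fun i _ => Set.finite_range _).subset h2
  refine Set.Finite.of_injOn (f := fun x : Yt T => x.1.1) (t := {q : Pt T.X | q.1 ≤ n + 1})
    ?_ ?_ h1
  · intro x hx
    have h2 := x.2
    have h3 : x.1.2 = n := hx
    rw [h3] at h2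
    exact h2
  · intro x hx y hy h
    have h3 : x.1.2 = n := hx
    have h4 : y.1.2 = n := hy
    exact Subtype.ext (Prod.ext h (h3.trans h4.symm))

variable {Y : Type}

theorem act_sub {n : ℕ} (x y : MatY Y n) (v : Fin n → HY Y) :
    act (x - y) v = act x v - act y v := by
  funext a
  unfold act
  rw [Pi.sub_apply, ← Finset.sum_sub_distrib]
  rfl

theorem act_stab (N : ℕ) (P : OpY Y) (v : Fin (N + 1) → HY Y) (a : Fin (N + 1)) :
    act (stabY N P) v a = if a = 0 then P (v a) else v a := by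
  unfold act stabY
  rw [Finset.sum_eq_single a]
  · rw [Matrix.diagonal_apply_eq]
    split_ifs with h
    · rfl
    · rfl
  · intro b _ hb
    rw [Matrix.diagonal_apply_ne _ hb.symm]
    rfl
  · intro h
    exact absurd (Finset.mem_univ a) h

end IYVec

open IYVec in
theorem pr_YVec (h1 : St_GCC) (h2 : St_GCQ) (h3 : St_YMet) (h4 : St_YGeo) (h5 : St_YComm)
    (h6 : St_KerL) (h7 : St_Act) : St_YVec := by
  intro T A B N x y hx hy hκ hκ' δ hδ
  have hBG : S.BddGeo (dY T) := ⟨fun a b c => h3 T a b c, fun R => h4 T R⟩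
  obtain ⟨⟨L, hL⟩, -, ⟨C, hC, hCy⟩, -⟩ := h7 (Yt T) (N + 1) y y
  obtain ⟨-, hmulxy, -, -⟩ := h7 (Yt T) (N + 1) x y
  obtain ⟨-, hmulyx, -, -⟩ := h7 (Yt T) (N + 1) y x
  obtain ⟨M, hM⟩ : ∃ M : ℝ, M = ((N + 1 : ℕ) : ℝ) := ⟨_, rfl⟩
  have hM0 : 0 < M := by
    rw [hM]
    positivity
  obtain ⟨ε, hε⟩ : ∃ ε : ℝ, ε = δ / (M * (2 + C)) := ⟨_, rfl⟩
  have hε0 : 0 < ε := by
    rw [hε]
    positivity
  have hMε : M * ε * (2 + C) = δ := by
    rw [hε]
    field_simp
  have hs : ∀ p : Yt T × ℕ, ∀ᶠ m in atTop, p ∉ (fun m => {p : Yt T × ℕ | p.1.1.2 = m}) m := by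
    intro p
    filter_upwards [eventually_gt_atTop p.1.1.2] with m hm h
    exact hm.ne h
  have ev1 : ∀ᶠ n in atTop, ∀ a b, ‖(x * y - stabY N (eY T A)) a b * Qc T n‖ ≤ ε := by
    rw [eventually_all]
    intro a
    rw [eventually_all]
    intro b
    exact (Tendsto.eventually_lt_const hε0 (h2 _ _ hs _ (hκ a b)).2).mono fun n hn => le_of_lt hn
  have ev2 : ∀ᶠ n in atTop, ∀ a b, ‖(y * x - stabY N (eY T B)) a b * Qc T n‖ ≤ ε := by
    rw [eventually_all]
    intro a
    rw [eventually_all]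
    intro b
    exact (Tendsto.eventually_lt_const hε0 (h2 _ _ hs _ (hκ' a b)).2).mono fun n hn => le_of_lt hn
  have ev3 : ∀ᶠ n in atTop, ∀ a b, ‖(1 - Qc T n) * y a b * Qc T n‖ ≤ ε := by
    rw [eventually_all]
    intro a
    rw [eventually_all]
    intro b
    exact (Tendsto.eventually_lt_const hε0 (h5 T (y a b) (hy a b))).mono fun n hn => le_of_lt hn
  filter_upwards [ev1, ev2, ev3] with n e1 e2 e3 hnA hnB
  have hy' : ∀ a b, ∃ c : ℂ, y a b - c • (1 : OpY (Yt T)) ∈ RoeY (dY T) := hy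
  choose c hc using hy'
  have hK : ∀ a b, IsCompactOperator ((y a b - c a b • (1 : OpY (Yt T))) * Qc T n) := by
    intro a b
    have h := h1 (Yt T) (dY T) hBG _ (hc a b) (fin_level T n).toFinset
    have e : {p : Yt T × ℕ | p.1 ∈ (fin_level T n).toFinset} = {p : Yt T × ℕ | p.1.1.2 = n} := by
      ext p
      rw [Set.mem_setOf_eq, Set.Finite.mem_toFinset]
      exact Iff.rfl
    rw [e] at h
    exact h
  have hs' : ∀ p : Yt T × ℕ, ∀ᶠ m in atTop,
      p ∉ (fun m => {p : Yt T × ℕ | p.1.1.2 = n ∧ m ≤ p.2}) m := by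
    intro p
    filter_upwards [eventually_gt_atTop p.2] with m hm h
    exact absurd h.2 (not_le.2 hm)
  have ev4 : ∀ᶠ m in atTop, ∀ a b, ‖proj {p : Yt T × ℕ | p.1.1.2 = n ∧ m ≤ p.2} *
      ((y a b - c a b • (1 : OpY (Yt T))) * Qc T n)‖ ≤ ε := by
    rw [eventually_all]
    intro a
    rw [eventually_all]
    intro b
    exact (Tendsto.eventually_lt_const hε0 (h2 _ _ hs' _ (hK a b)).1).mono
      fun n hn => le_of_lt hn
  obtain ⟨m, hm1, hm⟩ := ((eventually_ge_atTop 1).and ev4).exists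
  obtain ⟨F, hF⟩ : ∃ F : Set (Yt T × ℕ), F = {p | p.1.1.2 = n ∧ p.2 < m} := ⟨_, rfl⟩
  have hFm : ∀ p, p ∈ F ↔ p.1.1.2 = n ∧ p.2 < m := fun p => by rw [hF]; exact Iff.rfl
  have hFfin : F.Finite := by
    refine ((fin_level T n).prod (Set.finite_lt_nat m)).subset ?_
    intro p hp
    exact (hFm p).1 hp
  obtain ⟨v, hv0, hva, hvb, hvL⟩ := h6 (Yt T × ℕ) F (root T n, 0) N L hFfin
  have hp0 : ((root T n, 0) : Yt T × ℕ) ∈ F := (hFm _).2 ⟨rfl, by show 0 < m; omega⟩
  have hvF : ∀ a p, v a p ≠ 0 → p ∈ F := by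
    intro a p hp
    by_cases ha : a = 0
    · subst ha
      rw [hva p hp]
      exact hp0
    · exact hvb a ha p hp
  have hPv : ∀ a, proj F (v a) = v a := fun a => (proj_eq_self_iff F _).2 (hvF a)
  have hQv : ∀ a, Qc T n (v a) = v a := fun a =>
    (proj_eq_self_iff _ _).2 fun p hp => ((hFm p).1 (hvF a p hp)).1
  obtain ⟨u, hu⟩ : ∃ u : Fin (N + 1) → HY (Yt T), ∀ a, u a = proj F (act y v a) :=
    ⟨fun a => proj F (act y v a), fun _ => rfl⟩
  have huF : ∀ a p, u a p ≠ 0 → p ∈ F := by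
    intro a p hp
    by_contra h
    apply hp
    rw [hu, proj_apply, if_neg h]
  have hQu : ∀ a, Qc T n (u a) = u a := fun a =>
    (proj_eq_self_iff _ _).2 fun p hp => ((hFm p).1 (huF a p hp)).1
  have hu0 : ∀ a, a ≠ 0 → u a = 0 := by
    intro a ha
    ext p
    rw [hu, proj_apply]
    split_ifs with hp
    · have h := hvL a ha p hp
      rw [hL v] at h
      exact h
    · rfl
  have hBu : eY T B (u 0) = 0 := by
    ext p
    unfold eY
    rw [proj_apply]
    split_ifs with hp
    · obtain ⟨n', hn', hp'⟩ := hp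
      by_contra hne
      have hpF := (hFm p).1 (huF 0 p hne)
      rw [hp'] at hpF
      have h8 : n' = n := hpF.1
      rw [h8] at hn'
      exact hnB hn'
    · rfl
  have hPA : eY T A (v 0) = v 0 := (proj_eq_self_iff _ _).2 fun p hp => ⟨n, hnA, hva p hp⟩
  refine ⟨v, u, hv0, ?_, ?_, ?_⟩
  · -- (1)
    have k1 : act x (act y v) - v = act (x * y - stabY N (eY T A)) v := by
      rw [act_sub, hmulxy v]
      congr 1
      funext a
      rw [act_stab]
      split_ifs with ha
      · subst ha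
        exact hPA.symm
      · rfl
    have k2 := (h7 (Yt T) (N + 1) (x * y - stabY N (eY T A)) y).2.2.2 (Qc T n) ε v hε0.le e1 hQv
    rw [← hM] at k2
    rw [k1]
    refine k2.trans (mul_le_mul_of_nonneg_right ?_ (norm_nonneg _))
    have : 0 ≤ M * ε := by positivity
    nlinarith
  · -- (2)
    have hdec : (1 : OpY (Yt T)) - proj F = (1 - Qc T n) +
        proj {p : Yt T × ℕ | p.1.1.2 = n ∧ m ≤ p.2} := by
      have e : Qc T n = proj F + proj {p : Yt T × ℕ | p.1.1.2 = n ∧ m ≤ p.2} := by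
        unfold Qc
        rw [← proj_union]
        · congr 1
          ext p
          rw [Set.mem_union, hFm]
          constructor
          · intro h
            rcases Nat.lt_or_ge p.2 m with h9 | h9
            · exact Or.inl ⟨h, h9⟩
            · exact Or.inr ⟨h, h9⟩
          · rintro (h | h)
            · exact h.1
            · exact h.1
        · rw [Set.disjoint_left]
          intro p hp hp'
          exact absurd ((hFm p).1 hp).2 (not_lt.2 hp'.2)
      rw [e]
      abel
    have hFQ : proj F = Qc T n * proj F := by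
      unfold Qc
      rw [proj_mul]
      congr 1
      ext p
      constructor
      · intro h
        exact ⟨((hFm p).1 h).1, h⟩
      · intro h
        exact h.2
    have hPs : proj {p : Yt T × ℕ | p.1.1.2 = n ∧ m ≤ p.2} * proj F = 0 := by
      rw [proj_mul, ← proj_empty]
      congr 1
      ext p
      constructor
      · rintro ⟨h, h'⟩
        exact absurd ((hFm p).1 h').2 (not_lt.2 h.2)
      · intro h
        exact absurd h (Set.notMem_empty p)
    have hZ : ∀ a b, ‖((1 - proj F) * y a b) * proj F‖ ≤ 2 * ε := by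
      intro a b
      have e : ((1 - proj F) * y a b) * proj F =
          ((1 - Qc T n) * y a b * Qc T n) * proj F +
          (proj {p : Yt T × ℕ | p.1.1.2 = n ∧ m ≤ p.2} *
            ((y a b - c a b • (1 : OpY (Yt T))) * Qc T n)) * proj F := by
        have e5 : proj {p : Yt T × ℕ | p.1.1.2 = n ∧ m ≤ p.2} * y a b * proj F =
            (proj {p : Yt T × ℕ | p.1.1.2 = n ∧ m ≤ p.2} *
            ((y a b - c a b • (1 : OpY (Yt T))) * Qc T n)) * proj F := by
          rw [mul_assoc _ (_ * Qc T n), mul_assoc _ (Qc T n), ← hFQ, sub_mul, mul_sub,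
            smul_mul_assoc, one_mul, mul_smul_comm, hPs, smul_zero, sub_zero, mul_assoc]
        rw [← e5, hdec, add_mul, add_mul, mul_assoc _ (Qc T n), ← hFQ]
      rw [e]
      have hF1 : ‖(proj F : OpY (Yt T))‖ ≤ 1 := proj_norm_le _
      calc _ ≤ ‖((1 - Qc T n) * y a b * Qc T n) * proj F‖ +
            ‖(proj {p : Yt T × ℕ | p.1.1.2 = n ∧ m ≤ p.2} *
            ((y a b - c a b • (1 : OpY (Yt T))) * Qc T n)) * proj F‖ := norm_add_le _ _
        _ ≤ ε * 1 + ε * 1 := by
            refine add_le_add ((norm_mul_le _ _).trans ?_) ((norm_mul_le _ _).trans ?_)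
            · exact mul_le_mul (e3 a b) hF1 (norm_nonneg _) hε0.le
            · exact mul_le_mul (hm a b) hF1 (norm_nonneg _) hε0.le
        _ = 2 * ε := by ring
    have k1 : act y v - u = act (fun a b => (1 - proj F) * y a b : MatY (Yt T) (N + 1)) v := by
      funext a
      rw [Pi.sub_apply, hu]
      unfold act
      rw [map_sum, ← Finset.sum_sub_distrib]
      rfl
    have k2 := (h7 (Yt T) (N + 1) (fun a b => (1 - proj F) * y a b : MatY (Yt T) (N + 1))
      y).2.2.2 (proj F) (2 * ε) v (by positivity) hZ hPv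
    rw [← hM] at k2
    rw [k1]
    refine k2.trans (mul_le_mul_of_nonneg_right ?_ (norm_nonneg _))
    have : 0 ≤ M * ε * C := by positivity
    nlinarith
  · -- (3)
    have k1 : act y (act x u) = act (y * x - stabY N (eY T B)) u := by
      rw [act_sub, hmulyx u]
      have : act (stabY N (eY T B)) u = 0 := by
        funext a
        rw [act_stab]
        split_ifs with ha
        · subst ha
          exact hBu
        · exact hu0 a ha
      rw [this, sub_zero]
    have k2 := (h7 (Yt T) (N + 1) (y * x - stabY N (eY T B)) y).2.2.2 (Qc T n) ε u hε0.le e2 hQu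
    rw [← hM] at k2
    have k3 : ‖u‖ ≤ C * ‖v‖ := by
      refine le_trans ?_ (hCy v)
      rw [pi_norm_le_iff_of_nonneg (norm_nonneg _)]
      intro a
      rw [hu]
      calc ‖proj F (act y v a)‖ ≤ ‖(proj F : OpY (Yt T))‖ * ‖act y v a‖ :=
            ContinuousLinearMap.le_opNorm _ _
        _ ≤ 1 * ‖act y v a‖ := mul_le_mul_of_nonneg_right (proj_norm_le _) (norm_nonneg _)
        _ = ‖act y v a‖ := one_mul _
        _ ≤ ‖act y v‖ := norm_le_pi_norm _ a
    rw [k1]
    refine k2.trans ?_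
    calc M * ε * ‖u‖ ≤ M * ε * (C * ‖v‖) := mul_le_mul_of_nonneg_left k3 (by positivity)
      _ = M * ε * C * ‖v‖ := by ring
      _ ≤ δ * ‖v‖ := by
          refine mul_le_mul_of_nonneg_right ?_ (norm_nonneg _)
          have : 0 ≤ M * ε := by positivity
          nlinarith

end

end Pool.Agent.Work.MP_1ddc88_an.GR
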