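import Pool.Agent.Work.MP_1ddc88_an.GR.Defs

/-!
# MP_1ddc88_an, block GR: statements of the items

Every docstring is the complete proof.  Item `K`: statement `St_K`, file `GR/I_K.lean`, theorem
`pr_K`, with the statements named after USES as hypotheses in the given order; namespace
`Pool.Agent.Work.MP_1ddc88_an.GR`, auxiliary lemmas in the sub-namespace `IK`.  Statements of the blocks
BC and TL (`St_PavF`, `St_AF`, `St_AP`, `St_AN`, `TL.St_TLF`, `TL.St_TLA`, ...) are in `Stmts.lean` and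
`TL/Stmts.lean`; many similar items are proved there (`TL/I_TFPC`, `TL/I_TLC`, `TL/I_TAR`, `TL/I_TAG`,
`TL/I_TAK`, `TL/I_TPR`, `I_CpQ`, `I_Comm`: they can be adapted, the metric is a general one here).
`*` on `OpY Y` is composition.  A point of `Yt T × ℕ` is `p = (⟨((⟨i, v⟩ : Pt T.X), n), h⟩, k)`:
`p.1.1.1.1 = i` is the level, `p.1.1.2 = n` the number of the graph `T_n`, `h : i ≤ n + 1`, `p.2 = k`.
-/

set_option autoImplicit false

open Filter Topology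
open scoped ENNReal Classical

namespace Pool.Agent.Work.MP_1ddc88_an.GR

open TL

noncomputable section

/-! ## Operators over a set `Y` with a metric `d` of bounded geometry -/

/-- GFP (EASY).  As TFPC of block TL: for the product, `A (B ξ) p ≠ 0` gives `q` with `B ξ q ≠ 0`, then
`r` with `ξ r ≠ 0`; triangle inequality.  `proj s` is diagonal and `d x x = 0`. -/
def St_GFP : Prop := ∀ (Y : Type) (d : Y → Y → ℕ), S.BddGeo d → ∀ (R R' : ℕ) (A B : OpY Y),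
  FP d R A → FP d R' B → FP d (R + R') (A * B) ∧ FP d (max R R') (A + B) ∧
  FP d (max R R') (A - B) ∧ (∀ c : ℂ, FP d R (c • A)) ∧ ∀ s : Set (Y × ℕ), FP d 0 (proj s)

/-- GLC (MEDIUM).  As TLC of block TL.  `A B proj(cell z)`: `IsCompactOperator.clm_comp`.
`proj(cell z) A = proj(cell z) A proj(B_R)`, `B_R = {p | d z p.1 ≤ R}` is the union of finitely many
cells, so `proj (B_R) * B` is a finite sum of compact operators.  For the last part (`F` finite):
`proj {p | p.1 ∈ F}` is the sum of the `proj (cell z)`, `z ∈ F`. -/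
def St_GLC : Prop := ∀ (Y : Type) (d : Y → Y → ℕ), S.BddGeo d → ∀ (R : ℕ) (A B : OpY Y),
  FP d R A → LCo B → LCo (A * B) ∧ ∀ F : Finset Y,
    IsCompactOperator (B * proj {p : Y × ℕ | p.1 ∈ F})

/-- GAR (MEDIUM).  As TAR of block TL: the locally compact operators of finite propagation are closed
under sums, products and scalars; take closures.  USES GFP GLC. -/
def St_GAR : Prop := ∀ (Y : Type) (d : Y → Y → ℕ), S.BddGeo d → ∀ (A B : OpY Y), A ∈ RoeY d →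
  B ∈ RoeY d → A + B ∈ RoeY d ∧ A * B ∈ RoeY d ∧ ∀ c : ℂ, c • A ∈ RoeY d

/-- GAG (MEDIUM).  As TAG of block TL (377 lines there, only the metric changes).  USES GFP GAR. -/
def St_GAG : Prop := ∀ (Y : Type) (d : Y → Y → ℕ), S.BddGeo d → ∀ (A B G G' : OpY Y),
  A ∈ RoeP d → B ∈ RoeP d → G ∈ GhY d → G' ∈ GhY d →
  (A + B ∈ RoeP d ∧ A * B ∈ RoeP d ∧ (∀ c : ℂ, c • A ∈ RoeP d) ∧
    (1 : OpY Y) ∈ RoeP d ∧ (0 : OpY Y) ∈ RoeP d ∧ ∀ C ∈ RoeY d, C ∈ RoeP d) ∧
  (G + G' ∈ GhY d ∧ (∀ c : ℂ, c • G ∈ GhY d) ∧ A * G ∈ GhY d ∧ G * A ∈ GhY d ∧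
    (0 : OpY Y) ∈ GhY d)

/-- GAK (MEDIUM).  As TAK of block TL. -/
def St_GAK : Prop := ∀ (Y : Type) (d : Y → Y → ℕ), S.BddGeo d → CpY Y ⊆ GhY d

/-- GCC (EASY-MEDIUM).  `A * proj {p | p.1 ∈ F}` is compact: true for the locally compact operators
(last part of GLC, with `A = 1` or any `A` of finite propagation there), and norm limits of compact
operators are compact.  USES GLC. -/
def St_GCC : Prop := ∀ (Y : Type) (d : Y → Y → ℕ), S.BddGeo d → ∀ A ∈ RoeY d, ∀ F : Finset Y,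
  IsCompactOperator (A * proj {p : Y × ℕ | p.1 ∈ F})

/-- GCQ (MEDIUM).  First part as CpQ of block BC (`I_CpQ.lean`): the image of the unit ball is totally
bounded, finite `ε`-net `y_1, .., y_r`; `‖proj (s m) y_j‖ → 0`, as `y_j` is within `ε` of a finitely
supported vector, which `proj (s m)` kills for large `m`.  Second part: `‖K proj(s)‖ = ‖(K proj(s))*‖ =
‖proj(s) K*‖` (`proj s` is self adjoint) and `K*` is compact (the adjoint of a compact operator is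
compact, proved in `I_AlgR.lean`, block BC). -/
def St_GCQ : Prop := ∀ (ι : Type) (s : ℕ → Set ι), (∀ p, ∀ᶠ m in atTop, p ∉ s m) →
  ∀ K : L2 ι →L[ℂ] L2 ι, IsCompactOperator K →
  Tendsto (fun m => ‖proj (s m) * K‖) atTop (𝓝 0) ∧ Tendsto (fun m => ‖K * proj (s m)‖) atTop (𝓝 0)

/-! ## Geometry of the space of graphs -/

/-- YCon (EASY-MEDIUM).  `T_n` is connected: every level is (`T.X.conn`), and a point of level `i + 1` is
adjacent to one of level `i` (`tele`), so by induction over the level every point is joined to the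
root, inside `T_n` (level 0 has one point, `T.N_zero`). -/
def St_YCon : Prop := ∀ (T : Tower) (x y : Yt T), x.1.2 = y.1.2 → (gY T).Reachable x y

/-- YMet (MEDIUM).  On pairs with the same `n` the distance is that of a connected graph
(`SimpleGraph.Reachable`: `Reachable.dist_eq_zero_iff`, `dist_comm`; the triangle inequality for reachable
points by `Reachable.exists_walk_length_eq_dist` and `SimpleGraph.dist_le` of the appended walk).
For different `n`, `m` the value is `n + m + 1 + |x| + |y| > 0`.  Triangle inequality: cases as in item Met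
of block BC (`I_Met.lean`), then `omega`.  USES YCon. -/
def St_YMet : Prop := ∀ (T : Tower) (x y z : Yt T), dY T x x = 0 ∧ (dY T x y = 0 → x = y) ∧
  dY T x y = dY T y x ∧ dY T x z ≤ dY T x y + dY T y z

/-- YGeo (MEDIUM).  Every vertex of `T_n` has at most `D + K + 1` neighbours (as in TGeo of block TL,
`TL/I_TGeo.lean`: the neighbours in `gY` of `(p, n)` inject into the neighbours of `p` in `tele`), so the
balls of radius `R` of `T_n` have at most `(D + K + 2)^R` points.  The points of the ball in another `T_m`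
have `m < R`: at most `∑_(m < R) card T_m` points.  (`YCon` gives reachability, so `dist ≤ R` gives a walk of
length at most `R`.)  USES YCon. -/
def St_YGeo : Prop := ∀ (T : Tower) (R : ℕ), ∃ B : ℕ, ∀ z : Yt T,
  {w | dY T z w ≤ R}.Finite ∧ {w | dY T z w ≤ R}.ncard ≤ B

/-- YEmb (EASY-MEDIUM).  `V'` = restriction to the subset (`LinearMap.mkContinuous`, norm at most 1), `V` =
extension by zero (or `V` = adjoint of `V'`: `(V ξ) q = ⟪δ_q, V ξ⟫ = ⟪V' δ_q, ξ⟫`). -/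
def St_YEmb : Prop := ∀ (T : Tower), Nonempty (Emb T)

/-! ## Operators on the space of graphs -/

/-- YF (MEDIUM).  Formulas, from `PavF` and `TLF` (`W = Lp Pav`, `W' = Lm Pav`) and the fields of `Emb`:
the whole level `i` of `T_n` is in `Y`, so `Pav (V ξ)` on it is the average of `ξ`.  `w'` on the top level
`n + 1` is 0, since `V ξ` vanishes on the level `n + 2`.  `∑_v` of a constant is `N i` times it; in
`w'` the sum over the fibre `π w' = w` has `d i` equal terms `avg`, so the factor is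
`d i (d i)^(-1/2) = (d i)^(1/2)`.  USES PavF TLF. -/
def St_YF : Prop := ∀ (T : Tower) (E : Emb T) (ξ : HY (Yt T)) (n i k : ℕ)
  (v : Fin (T.X.N i)) (h : i ≤ n + 1),
  PY E ξ (⟨(⟨i, v⟩, n), h⟩, k) = (if k = 0 then
    (T.X.N i : ℂ)⁻¹ * ∑ u : Fin (T.X.N i), ξ (⟨(⟨i, u⟩, n), h⟩, 0) else 0) ∧
  (i = 0 → wY E ξ (⟨(⟨i, v⟩, n), h⟩, k) = 0) ∧
  (∀ (j : ℕ) (hj : j + 1 = i), wY E ξ (⟨(⟨i, v⟩, n), h⟩, k) = (if k = 0 then
    ((Real.sqrt (T.d j) : ℝ) : ℂ)⁻¹ * ((T.X.N j : ℂ)⁻¹ *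
      ∑ u : Fin (T.X.N j), ξ (⟨(⟨j, u⟩, n), by show j ≤ n + 1; omega⟩, 0)) else 0)) ∧
  (i = n + 1 → wY' E ξ (⟨(⟨i, v⟩, n), h⟩, k) = 0) ∧
  (∀ hi : i ≤ n, wY' E ξ (⟨(⟨i, v⟩, n), h⟩, k) = (if k = 0 then
    ((Real.sqrt (T.d i) : ℝ) : ℂ) * ((T.X.N (i + 1) : ℂ)⁻¹ *
      ∑ u : Fin (T.X.N (i + 1)), ξ (⟨(⟨i + 1, u⟩, n), by show i + 1 ≤ n + 1; omega⟩, 0)) else 0))

/-- YFP (EASY).  Formulas: `A ξ` at a point depends on `ξ` at the point and its neighbours in the level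
(AF), `Lp ξ`, `Lm ξ` at `(v, n)` on neighbours in the telescope (TLF, `TL/I_TFL.lean`); all of them must be
in `Y` (`V_out`), with the same `n`, so they are neighbours in `gY`, at distance at most 1
(`dY` with equal `n` is `(gY T).dist`).  USES AF TLF. -/
def St_YFP : Prop := ∀ (T : Tower) (E : Emb T), FP (dY T) 1 (AY E) ∧ FP (dY T) 1 (cmp E (Lp T)) ∧
  FP (dY T) 1 (cmp E (Lm T))

/-- YA (MEDIUM).  `A = kerOp (kA X)`.  `V V' = proj {q | q.1.1.1 ≤ q.1.2 + 1}` commutes with `A` and `Pav` (both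
act inside the levels of fixed `n`: formulas PavF, AF), `V' V = 1`.  So `AY * PY = V' A Pav V = PY` etc. by AP;
`PY * PY = PY` by ShP.  `‖AY - PY‖ = ‖V' (A - Pav) V‖ ≤ lam < 1` (AN).  Locally compact:
`AY = proj {p | p.2 = 0} AY = AY proj {p | p.2 = 0}` and `proj (cell z) * proj {p | p.2 = 0} = proj {(z, 0)}`
has rank one.  USES PavF ShP AF AP AN. -/
def St_YA : Prop := ∀ (T : Tower) (E : Emb T), LCo (AY E) ∧ AY E * PY E = PY E ∧
  PY E * AY E = PY E ∧ PY E * PY E = PY E ∧ ∃ lam : ℝ, 0 ≤ lam ∧ lam < 1 ∧ ‖AY E - PY E‖ ≤ lam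

/-- YPR (EASY-MEDIUM).  As TPR of block TL: `AY^(k+1) - PY = (AY - PY)^(k+1)`, so `B AY^(k+1) → B PY` in
norm; `B AY^(k+1)` has finite propagation and is locally compact.  (`S.BddGeo (dY T)` is `YMet` and `YGeo`.)
USES GFP GLC YMet YGeo YFP YA. -/
def St_YPR : Prop := ∀ (T : Tower) (E : Emb T) (R : ℕ) (B : OpY (Yt T)), FP (dY T) R B →
  B * PY E ∈ RoeY (dY T)

/-- YW (EASY).  `wY = V' Lp Pav V = V' Lp V V' Pav V = cmp Lp * PY`, because `V V' = proj {q | q.1.1.1 ≤ q.1.2 + 1}`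
commutes with `Pav` and `V' V = 1`; the same for `wY'`.  Then YPR with GFP, YFP.
USES PavF GFP YMet YGeo YFP YPR. -/
def St_YW : Prop := ∀ (T : Tower) (E : Emb T) (s : Set (Yt T × ℕ)), proj s * PY E ∈ RoeY (dY T) ∧
  proj s * wY E ∈ RoeY (dY T) ∧ proj s * wY' E ∈ RoeY (dY T)

/-- YRel (MEDIUM).  From the formulas YF, with `avg_i = (1/N i) ∑_u ξ(⟨i, u⟩, n, 0)`: at level `i + 1`
`w ξ = (d i)^(-1/2) avg_i`, at level `i ≤ n` `w' ξ = (d i)^(1/2) avg_(i+1)`.  `low PY = ` projection onto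
`(root n, 0)`, as `N 0 = 1`.  `0 ≠ n + 1`.  (`d i ≥ 1`: TLF.)  USES TLF YF. -/
def St_YRel : Prop := ∀ (T : Tower) (E : Emb T),
  wY' E * wY E = PY E - topY T * PY E ∧ wY E * wY' E = PY E - lowY T * PY E ∧
  PY E * wY E = wY E ∧ wY E * PY E = wY E ∧ PY E * wY' E = wY' E ∧ wY' E * PY E = wY' E ∧
  PY E * PY E = PY E ∧ lowY T * wY E = 0 ∧ wY E * topY T = 0 ∧ wY' E * lowY T = 0 ∧
  topY T * wY' E = 0 ∧ lowY T * PY E = PY E * lowY T ∧ topY T * PY E = PY E * topY T ∧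
  (∀ A, colY T A * PY E = PY E * colY T A ∧ colY T A * wY E = wY E * colY T A ∧
    colY T A * wY' E = wY' E * colY T A ∧ colY T A * (lowY T * PY E) = eY T A)

/-- YGh (MEDIUM).  In the Roe algebra by YW.  By YF the operator sends `ξ` to its average over the top level of
`T_n` (`n ∈ A`, `k = 0`), so the block at `z, w` is 0 unless `z, w` are in the top level of the same `T_n`, and
then it has norm at most `1 / N (n + 1)`.  Given `ε` let `1 / N (n + 1) ≤ ε` for `n ≥ n₀` (`T.X.big`), `F` = the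
finite set of all points of the `T_n`, `n < n₀`.  (Compare `TL/I_TUG.lean`, `I_UG.lean`.)
USES PavF YF YW. -/
def St_YGh : Prop := ∀ (T : Tower) (E : Emb T) (A : Set ℕ),
  colY T A * (topY T * PY E) ∈ GhY (dY T)

/-- RAlg (EASY).  Pure algebra in a ring, entry by entry: e.g. the entry (1,1) of the first product is
`f w' w f + f w' (1 - f - g) + (1 - f - g) w f + (1 - f - g)²`, with `w' w = e + f`, `w' = w' (f + g)`,
`w = (f + g) w`: it is `f + 0 + 0 + (1 - f - g) = 1 - g`; the entry (1,1) of the second is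
`w e w' + w f w' + (1 - f - g) = w (e + f) w' + 1 - f - g = w w' + 1 - f - g = 1`. -/
def St_RAlg : Prop := ∀ (R : Type) [Ring R] (e f g w w' : R), e * e = e → f * f = f → g * g = g →
  e * f = 0 → f * e = 0 → e * g = 0 → g * e = 0 → f * g = 0 → g * f = 0 → w' * w = e + f →
  w * w' = f + g → w * (e + f) = w → (f + g) * w = w → w' * (f + g) = w' → (e + f) * w' = w' →
  (!![0, e * w'; 0, f * w' + 1 - f - g] : Matrix (Fin 2) (Fin 2) R) *
    !![0, 0; w * e, w * f + 1 - f - g] = !![e, 0; 0, 1 - g] ∧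
  (!![0, 0; w * e, w * f + 1 - f - g] : Matrix (Fin 2) (Fin 2) R) *
    !![0, e * w'; 0, f * w' + 1 - f - g] = !![0, 0; 0, 1]

/-- YKill (MEDIUM).  RAlg with `c = colY A`, `e = c low PY = eY A`, `g = c top PY`, `f = c PY - e - g`,
`w = c wY`, `w' = c wY'` (`c * c = c`, `low * low = low`, `top * top = top`, `low * top = 0 = top * low` by
`proj_mul`; `wY (PY - top PY) = wY`, `(PY - low PY) wY = wY`, ... by YRel).  `n = 1`: `stabY 1 e = diag(e, 1)`,
`stabY 1 0 = diag(0, 1)`, the difference of `x y` and `diag(e, 1)` is `diag(0, -g)`, of ghosts (YGh, GAG).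
The entries of `x`, `y` are in `RoeP` by YW and GAG (`e`, `f`, `g` are `proj s * PY`).
USES GAG YMet YGeo YW YRel YGh RAlg. -/
def St_YKill : Prop := ∀ (T : Tower) (E : Emb T) (A : Set ℕ),
  EqK (dY T) (GhY (dY T)) (eY T A) 0

/-- YE (EASY).  `eY A` has propagation 0 and is locally compact (`proj (cell z) * eY A` has rank at most
one).  `eY A * eY B = eY (A ∩ B)`; `eY A - eY B` has finite rank if the symmetric difference is
finite.  USES YMet YGeo GFP. -/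
def St_YE : Prop := ∀ (T : Tower) (A B : Set ℕ), eY T A ∈ RoeY (dY T) ∧
  eY T A * eY T B = eY T (A ∩ B) ∧
  ((symmDiff A B).Finite → IsCompactOperator (eY T (A ∩ B) - eY T A : OpY (Yt T)))

/-- YFin (EASY).  `n = 0`, `x = y =` the 1 × 1 matrix `eY (A ∩ B)`: `x y - stabY 0 (eY A) = eY (A ∩ B) - eY A` is
compact, and the same for `B` (`symmDiff_comm`, `Set.inter_comm`).  The entries are in `RoeP`: GAG (`0` is a
ghost, take `A = B = 0`-like arguments, or directly `c = 0` in the definition).  USES YE. -/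
def St_YFin : Prop := ∀ (T : Tower) (A B : Set ℕ), (symmDiff A B).Finite →
  EqK (dY T) (CpY (Yt T)) (eY T A) (eY T B)

/-! ## The rank argument -/

/-- YComm (EASY-MEDIUM).  As Comm of block BC (`I_Comm.lean`): for propagation `R < n` `(1 - Q n) B Q n = 0`,
since `dY x y ≥ n + 1` if `x ∈ T_n`, `y ∉ T_n`; scalars commute with `Q n`; approximate. -/
def St_YComm : Prop := ∀ (T : Tower), ∀ B ∈ RoeP (dY T),
  Tendsto (fun n => ‖(1 - Qc T n) * B * Qc T n‖) atTop (𝓝 0)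

/-- KerL (EASY-MEDIUM).  The vectors `v` with `v 0 ∈ ℂ δ_p₀` and `v a` supported in `F` for `a ≠ 0` form a space of
dimension `1 + N card F`, parametrized by the functions on `Unit ⊕ (Fin N × F)`; the values `(L v) a p`, `a ≠ 0`,
`p ∈ F` are `N card F` linear functionals (a linear map to the functions on `Fin N × F`).  So there is
a kernel vector (`LinearMap.exists_ne_zero_of_...` / `LinearMap.ker_ne_bot_of_finrank_lt`). -/
def St_KerL : Prop := ∀ (ι : Type) (F : Set ι) (p₀ : ι) (N : ℕ)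
  (L : (Fin (N + 1) → L2 ι) →ₗ[ℂ] (Fin (N + 1) → L2 ι)), F.Finite →
  ∃ v : Fin (N + 1) → L2 ι, v ≠ 0 ∧ (∀ p, v 0 p ≠ 0 → p = p₀) ∧
    (∀ a, a ≠ 0 → ∀ p, v a p ≠ 0 → p ∈ F) ∧ ∀ a, a ≠ 0 → ∀ p ∈ F, L v a p = 0

/-- Act (EASY).  `act` is linear in `v`, multiplicative in the matrix, bounded for the sup norm:
`C = ∑_(a,b) ‖x a b‖`; and `‖act x v‖ ≤ n δ ‖v‖` if all `‖x a b * P‖ ≤ δ` and `P (v b) = v b`. -/
def St_Act : Prop := ∀ (Y : Type) (n : ℕ) (x y : MatY Y n), (∃ L : (Fin n → HY Y) →ₗ[ℂ]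
    (Fin n → HY Y), ∀ v, L v = act x v) ∧ (∀ v, act (x * y) v = act x (act y v)) ∧
  (∃ C : ℝ, 0 ≤ C ∧ ∀ v, ‖act x v‖ ≤ C * ‖v‖) ∧
  (∀ (P : OpY Y) (δ : ℝ) (v : Fin n → HY Y), 0 ≤ δ → (∀ a b, ‖x a b * P‖ ≤ δ) → (∀ b, P (v b) = v b) →
    ‖act x v‖ ≤ n * δ * ‖v‖)

/-- Est (EASY).  `‖Y v‖ ≤ ‖Y (X (Y v))‖ + ‖Y (X (Y v) - v)‖ ≤ ‖Y (X u)‖ + ‖Y (X (Y v - u))‖ + C δ ‖v‖ ≤
(1 + C² + C) δ ‖v‖`, so `‖v‖ ≤ ‖X (Y v)‖ + δ ‖v‖ ≤ (C (1 + C + C²) + 1) δ ‖v‖ < ‖v‖` unless `v = 0`. -/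
def St_Est : Prop := ∀ (B : Type) [NormedAddCommGroup B] [NormedSpace ℂ B] (X Y : B →ₗ[ℂ] B)
  (C δ : ℝ) (v u : B), 0 ≤ C → 0 ≤ δ → (∀ z, ‖X z‖ ≤ C * ‖z‖) → (∀ z, ‖Y z‖ ≤ C * ‖z‖) →
  ‖X (Y v) - v‖ ≤ δ * ‖v‖ → ‖Y v - u‖ ≤ δ * ‖v‖ → ‖Y (X u)‖ ≤ δ * ‖v‖ →
  (C * (1 + C + C ^ 2) + 1) * δ < 1 → v = 0

/-- YVec (MEDIUM-HARD).  `κ = x y - stab(e_A)`, `κ' = y x - stab(e_B)` have compact entries, `x, y` over
`RoeP`.  Given `δ > 0` let `ε` be small (`ε (N + 1) (2 + C) ≤ δ`, `C` a bound of `act y` from Act).  For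
large `n` all `‖κ_ab Q n‖`, `‖κ'_ab Q n‖` (GCQ, second part, `s n = {p | p.1.1.2 = n}`), `‖(1 - Q n) y_ab Q n‖`
(YComm) are at most `ε`.  Fix such an `n ∈ A`, `n ∉ B`, and write `y_ab = c_ab + y⁰_ab`, `y⁰_ab ∈ RoeY`.
`y⁰_ab Q n` is compact (GCC: `{x | x.1.2 = n}` is finite), so for large `m` (take `m ≥ 1`) all
`‖proj {p | p.1.1.2 = n ∧ m ≤ p.2} y⁰_ab Q n‖ ≤ ε` (GCQ, first part).  `F = {p | p.1.1.2 = n ∧ p.2 < m}` is finite;
KerL with `L = act y`, `p₀ = (root n, 0)` gives `v ≠ 0`, all `v a` supported in `F` (so `Q n (v a) = v a`), `e_A v_0 = v_0`.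
Let `u a = proj F (act y v a)`: `u a = 0` for `a ≠ 0`, and `e_B (u 0) = 0` as `n ∉ B`, so `stab(e_B) u = 0`.
(1) `act x (act y v) - v = act κ v`, norm `≤ (N + 1) ε ‖v‖` (`act (stab e_A) v = v`).
(2) `act y v a - u a = (1 - proj F) ∑_b (c_ab v_b + y⁰_ab v_b)`, `(1 - proj F) c_ab v_b = 0`,
`1 - proj F = (1 - Q n) + proj {p.1.1.2 = n, m ≤ p.2}`, `(1 - Q n) y⁰_ab Q n = (1 - Q n) y_ab Q n`: norm
`≤ 2 (N + 1) ε ‖v‖`.
(3) `act y (act x u) = stab(e_B) u + act κ' u = act κ' u`, `Q n (u a) = u a`: norm `≤ (N + 1) ε ‖u‖ ≤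
(N + 1) ε C ‖v‖` (`‖u‖ ≤ ‖act y v‖`).  USES GCC GCQ YMet YGeo YComm KerL Act. -/
def St_YVec : Prop := ∀ (T : Tower) (A B : Set ℕ) (N : ℕ) (x y : MatY (Yt T) (N + 1)),
  (∀ a b, x a b ∈ RoeP (dY T)) → (∀ a b, y a b ∈ RoeP (dY T)) →
  (∀ a b, IsCompactOperator ((x * y - stabY N (eY T A)) a b)) →
  (∀ a b, IsCompactOperator ((y * x - stabY N (eY T B)) a b)) → ∀ δ > (0 : ℝ),
  ∀ᶠ n in atTop, n ∈ A → n ∉ B → ∃ v u : Fin (N + 1) → HY (Yt T), v ≠ 0 ∧
    ‖act x (act y v) - v‖ ≤ δ * ‖v‖ ∧ ‖act y v - u‖ ≤ δ * ‖v‖ ∧ ‖act y (act x u)‖ ≤ δ * ‖v‖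

/-- YInf (EASY-MEDIUM).  Let `x, y` be as in `EqK`, `C` a common bound of `act x`, `act y` (Act),
`δ = 1 / (2 (C (1 + C + C²) + 1))`.  YVec and Est: for large `n` not (`n ∈ A`, `n ∉ B`), so `A \ B` is finite.
`EqK` is symmetric (exchange `x` and `y`), so `B \ A` is finite too.  USES Act Est YVec. -/
def St_YInf : Prop := ∀ (T : Tower) (A B : Set ℕ), EqK (dY T) (CpY (Yt T)) (eY T A) (eY T B) →
  (symmDiff A B).Finite

end

end Pool.Agent.Work.MP_1ddc88_an.GR
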