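import Pool.Agent.Work.MP_1ddc88_an.GR.Stmts

/-!
# MP_1ddc88_an, block GR, part A: multiplicities

The theorem for the projections `e_a`, `a : ℕ → ℕ` any function (`eF T a`: the span of the
`δ_(root n) ⊗ δ_j`, `j < a n`).  Conventions as in `Stmts.lean`: item `K`: file `GR/I_K.lean`, theorem
`pr_K`, namespace `Pool.Agent.Work.MP_1ddc88_an.GR`, the statements named after USES as hypotheses in the
given order.
-/

set_option autoImplicit false

open Filter Topology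
open scoped ENNReal Classical

namespace Pool.Agent.Work.MP_1ddc88_an.GR

open TL

noncomputable section

/-- `e_a`: the projection onto the span of the `δ_(root n) ⊗ δ_j`, `j < a n`. -/
def eF (T : Tower) (a : ℕ → ℕ) : OpY (Yt T) :=
  proj {p | ∃ n j, j < a n ∧ p = (root T n, j)}

/-- The projection onto the vectors supported in the `(y, j)`, `j < s y`. -/
def JY {Y : Type} (s : Y → ℕ) : OpY Y := proj {p | p.2 < s p.1}

/-- The projection onto the slice `j = 0`. -/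
def q0 (Y : Type) : OpY Y := proj {p | p.2 = 0}

/-- The `k`-th slice of a vector, moved to the slice 0. -/
def slc (Y : Type) (k : ℕ) : OpY Y :=
  kerOp (fun p q => if p.2 = 0 ∧ q.2 = k ∧ p.1 = q.1 then 1 else 0)

/-- `C` acts on every slice as `B` acts on the slice 0. -/
def IsAmp {Y : Type} (B C : OpY Y) : Prop :=
  ∀ (ξ : HY Y) (y : Y) (k : ℕ), C ξ (y, k) = B (slc Y k ξ) (y, 0)

/-- The operator which acts on every slice as `B` acts on the slice 0. -/
def amp {Y : Type} (B : OpY Y) : OpY Y :=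
  if h : ∃ C : OpY Y, IsAmp B C ∧ ‖C‖ ≤ ‖B‖ then h.choose else 0

/-- Slc (EASY).  The kernel is `IsMarkov` (every row and every column has at most one non zero entry,
equal to 1); `kerOp_apply`. -/
def St_Slc : Prop := ∀ (Y : Type) (k : ℕ) (ξ : HY Y) (y : Y) (j : ℕ),
  slc Y k ξ (y, j) = if j = 0 then ξ (y, k) else 0

/-- AmX (MEDIUM).  It suffices to construct one `C`: `(C ξ)(y, k) = (B (slc k ξ))(y, 0)` is linear in `ξ`, and
`∑_(y,k) |(B (slc k ξ))(y, 0)|² ≤ ∑_k ‖B (slc k ξ)‖² ≤ ‖B‖² ∑_k ‖slc k ξ‖² = ‖B‖² ∑_(k,y) |ξ(y, k)|² =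
‖B‖² ‖ξ‖²` (`l2_norm_sq`, `summable_prod_of_nonneg`, `Summable.tsum_prod`; or `ENNReal` sums);
`LinearMap.mkContinuous`, as in `kerOp` (`Ker.lean`).  USES Slc. -/
def St_AmX : Prop := ∀ (Y : Type) (B : OpY Y), IsAmp B (amp B) ∧ ‖amp B‖ ≤ ‖B‖

/-- AmA (EASY-MEDIUM).  From the formula `IsAmp`.  If `q0 B' = B'` then `slc k (amp B' ξ) = B' (slc k ξ)`: at
`(y, 0)` both are `B' (slc k ξ) (y, 0)`, at `(y, j)`, `j ≠ 0`, both are 0.  USES Slc AmX. -/
def St_AmA : Prop := ∀ (Y : Type) (B B' : OpY Y), amp (B + B') = amp B + amp B' ∧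
  amp (B - B') = amp B - amp B' ∧ amp (0 : OpY Y) = 0 ∧
  (q0 Y * B' = B' → amp (B * B') = amp B * amp B')

/-- AmP (EASY).  Formula, `proj_apply`.  USES Slc AmX. -/
def St_AmP : Prop := ∀ (Y : Type) (s : Set (Y × ℕ)),
  amp (proj s) = (proj {p : Y × ℕ | (p.1, 0) ∈ s} : OpY Y)

/-- AmJ (EASY).  At `(y, k)`, `n = y.1.2`: the left side is `B (slc k ξ) (y, 0)` if `k < a n` and 0 otherwise,
so it is `(colY C (B (slc k ξ))) (y, 0)`, `C = {m | k < a m}`, `= B (colY C (slc k ξ)) (y, 0)`, and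
`colY C (slc k ξ) = slc k (JY ξ)`.  USES Slc AmX. -/
def St_AmJ : Prop := ∀ (T : Tower) (a : ℕ → ℕ) (B : OpY (Yt T)),
  (∀ C : Set ℕ, colY T C * B = B * colY T C) →
  JY (fun y : Yt T => a y.1.2) * amp B = amp B * JY (fun y : Yt T => a y.1.2)

/-- AmR (MEDIUM).  Let `B_i → B` have finite propagation.  `‖amp B_i - amp B‖ = ‖amp (B_i - B)‖ ≤
‖B_i - B‖`, so `JY s * amp B_i → JY s * amp B`.  `JY s * amp B_i` has the propagation `R` of `B_i`:
`B_i (slc k ξ) (y, 0) ≠ 0` gives `q` with `slc k ξ q ≠ 0`, so `q.2 = 0`, `ξ (q.1, k) ≠ 0` and `d y q.1 ≤ R`.  It is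
locally compact: the range of `proj (cell z) * JY s * amp B_i` is supported in the finitely many `(z, j)`,
`j < s z`; and with `M` larger than all `s y`, `d z y ≤ R` (a finite ball):
`JY s * amp B_i * proj (cell z) = JY s * amp B_i * proj {p | p.1 = z ∧ p.2 < M}` (the vector `slc k ξ` is 0 for
`ξ` supported in the `(z, j)`, `j ≥ M`, `k < M`, and for `k ≥ M` the value is at a point `(y, k)`, `d z y ≤ R`, killed by `JY s`),
which has finite rank.  USES GFP Slc AmX AmA. -/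
def St_AmR : Prop := ∀ (Y : Type) (d : Y → Y → ℕ), S.BddGeo d → ∀ B ∈ RoeY d, ∀ s : Y → ℕ,
  JY s * amp B ∈ RoeY d

/-- AmG (EASY-MEDIUM).  `proj (cell z) * (JY s * amp B) * proj (cell w) = JY s * amp (proj (cell z) * B * proj (cell w))`
(formula: both are 0 at `(y, k)` for `y ≠ z` or `k ≥ s z`, and `B (proj (cell w) (slc k ξ)) (z, 0)` otherwise;
`slc k` commutes with `proj (cell w)`), of norm at most `‖proj (cell z) * B * proj (cell w)‖`.
USES Slc AmX AmR. -/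
def St_AmG : Prop := ∀ (Y : Type) (d : Y → Y → ℕ), S.BddGeo d → ∀ B ∈ GhY d, ∀ s : Y → ℕ,
  JY s * amp B ∈ GhY d

/-- YKillF (MEDIUM).  As YKill (`GR/I_YKill.lean`), with `J = JY (fun y => a y.1.2)` and
`e = J amp(low PY)`, `g = J amp(top PY)`, `f = J amp(PY - low PY - top PY)`, `w = J amp(wY)`, `w' = J amp(wY')`.
The operators `B = PY, low PY, top PY, wY, wY'` satisfy `q0 B = B` (YF: the values at `k ≠ 0` are 0) and commute
with all `colY C` (YRel), so `J amp(B) J amp(B') = J amp(B B')` (`J J = J`, AmJ, AmA), and the relations of RAlg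
follow from those of YRel.  `e = J amp(low PY) = J amp(eY univ) = J proj {p | ∃ n, p.1 = root n} = eF a`
(YRel with `A = univ`, `colY univ = 1`; AmP).  Membership: YW with `s = univ` (`proj_univ`), `s` = levels,
AmR, GAG; `g` is a ghost by YGh (`A = univ`) and AmG.
USES GAG YMet YGeo YF YW YRel YGh RAlg Slc AmX AmA AmP AmJ AmR AmG. -/
def St_YKillF : Prop := ∀ (T : Tower) (E : Emb T) (a : ℕ → ℕ),
  EqK (dY T) (GhY (dY T)) (eF T a) 0

/-- YEF (EASY).  As YE (`GR/I_YE.lean`).  `eF a` has propagation 0 and is locally compact: `proj (cell z) * eF a`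
has finite rank (`(z, j)`, `j < a n`).  `eF a * eF b = eF (min a b)`; if `a n = b n` for `n ≥ n₀` then
`eF (min a b) - eF a` is minus the projection onto finitely many basis vectors.  USES YMet YGeo GFP. -/
def St_YEF : Prop := ∀ (T : Tower) (a b : ℕ → ℕ), eF T a ∈ RoeY (dY T) ∧
  eF T a * eF T b = eF T (fun n => min (a n) (b n)) ∧
  ((∀ᶠ n in atTop, a n = b n) →
    IsCompactOperator (eF T (fun n => min (a n) (b n)) - eF T a : OpY (Yt T)))

/-- YFinF (EASY).  As YFin: `n = 0`, `x = y = eF (min a b)`.  USES YEF. -/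
def St_YFinF : Prop := ∀ (T : Tower) (a b : ℕ → ℕ), (∀ᶠ n in atTop, a n = b n) →
  EqK (dY T) (CpY (Yt T)) (eF T a) (eF T b)

/-- KerF (EASY-MEDIUM).  As KerL (`GR/I_KerL.lean`): the vectors `v` with `v 0` supported in `P` and `v c` supported
in `F` for `c ≠ 0` form a space of dimension `card P + N card F`, the values `(L v) 0 p`, `p ∈ Q`, and
`(L v) c p`, `c ≠ 0`, `p ∈ F`, are `card Q + N card F` linear functionals. -/
def St_KerF : Prop := ∀ (ι : Type) (F P Q : Set ι) (N : ℕ)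
  (L : (Fin (N + 1) → L2 ι) →ₗ[ℂ] (Fin (N + 1) → L2 ι)), F.Finite → P.Finite → Q.Finite →
  Q.ncard < P.ncard →
  ∃ v : Fin (N + 1) → L2 ι, v ≠ 0 ∧ (∀ p, v 0 p ≠ 0 → p ∈ P) ∧
    (∀ c, c ≠ 0 → ∀ p, v c p ≠ 0 → p ∈ F) ∧ (∀ p ∈ Q, L v 0 p = 0) ∧
    ∀ c, c ≠ 0 → ∀ p ∈ F, L v c p = 0

/-- YVecF (MEDIUM).  As YVec (`GR/I_YVec.lean`, on main; docstring of YVec in `Stmts.lean`), with KerF instead of
KerL: `P = {(root n, j) | j < a n}`, `Q = {(root n, j) | j < b n}`, `F = {p | p.1.1.2 = n ∧ p.2 < m}` with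
`m ≥ a n`, so `P ⊆ F`, `eF a (v 0) = v 0`, and `eF b (u 0) = 0` since `u 0` lives on `T_n` and vanishes on `Q`.
USES GCC GCQ YMet YGeo YComm KerF Act. -/
def St_YVecF : Prop := ∀ (T : Tower) (a b : ℕ → ℕ) (N : ℕ) (x y : MatY (Yt T) (N + 1)),
  (∀ i j, x i j ∈ RoeP (dY T)) → (∀ i j, y i j ∈ RoeP (dY T)) →
  (∀ i j, IsCompactOperator ((x * y - stabY N (eF T a)) i j)) →
  (∀ i j, IsCompactOperator ((y * x - stabY N (eF T b)) i j)) → ∀ δ > (0 : ℝ),
  ∀ᶠ n in atTop, b n < a n → ∃ v u : Fin (N + 1) → HY (Yt T), v ≠ 0 ∧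
    ‖act x (act y v) - v‖ ≤ δ * ‖v‖ ∧ ‖act y v - u‖ ≤ δ * ‖v‖ ∧ ‖act y (act x u)‖ ≤ δ * ‖v‖

/-- YInfF (EASY-MEDIUM).  As YInf (`GR/I_YInf.lean`).  USES Act Est YVecF. -/
def St_YInfF : Prop := ∀ (T : Tower) (a b : ℕ → ℕ),
  EqK (dY T) (CpY (Yt T)) (eF T a) (eF T b) → ∀ᶠ n in atTop, a n = b n

end

end Pool.Agent.Work.MP_1ddc88_an.GR
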